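import Pool.Agent.Helper48.ND.Defs

namespace Pool.Agent.Helper48.ND

open Finset Classical

variable {E E' : Finset (ℕ × ℕ)} {a b c u r s k D : ℕ}

theorem mem_nb : b ∈ nb E a ↔ (a, b) ∈ E := by
  unfold nb
  simp only [mem_image, mem_filter, Prod.exists, exists_eq_right]

theorem ball_zero : ball E a 0 = {a} := rfl

theorem ball_succ : ball E a (r + 1) = ball E a r ∪ (ball E a r).biUnion (nb E) := rfl

theorem mem_ball_succ : b ∈ ball E a (r + 1) ↔ b ∈ ball E a r ∨ ∃ x ∈ ball E a r, (x, b) ∈ E := by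
  rw [ball_succ, mem_union, mem_biUnion]
  simp only [mem_nb]

theorem ball_subset_succ : ball E a r ⊆ ball E a (r + 1) := by
  rw [ball_succ]; exact subset_union_left

theorem ball_mono (h : r ≤ s) : ball E a r ⊆ ball E a s := by
  induction h with
  | refl => exact Subset.refl _
  | step _ ih => exact ih.trans ball_subset_succ

theorem self_mem_ball : a ∈ ball E a r := ball_mono (Nat.zero_le r) (by simp [ball_zero])

theorem ball_nonempty : (ball E a r).Nonempty := ⟨a, self_mem_ball⟩

theorem ball_trans (h1 : b ∈ ball E a r) (h2 : c ∈ ball E b s) : c ∈ ball E a (r + s) := by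
  induction s generalizing c with
  | zero => simp only [ball_zero, mem_singleton] at h2; subst h2; exact h1
  | succ s ih =>
    rw [mem_ball_succ] at h2
    rw [← add_assoc, mem_ball_succ]
    rcases h2 with h2 | ⟨x, hx, hxc⟩
    · exact Or.inl (ih h2)
    · exact Or.inr ⟨x, ih hx, hxc⟩

theorem ball_trans' (h1 : b ∈ ball E a r) (h2 : c ∈ ball E b s) (h : r + s ≤ k) :
    c ∈ ball E a k := ball_mono h (ball_trans h1 h2)

theorem ball_subset_ball (h1 : b ∈ ball E a r) (h : r + s ≤ k) : ball E b s ⊆ ball E a k :=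
  fun _ h2 => ball_trans' h1 h2 h

/-- first step of a path -/
theorem mem_ball_succ' : b ∈ ball E a (r + 1) ↔ b = a ∨ ∃ x, (a, x) ∈ E ∧ b ∈ ball E x r := by
  induction r generalizing b with
  | zero =>
    rw [mem_ball_succ]
    simp only [ball_zero, mem_singleton, exists_eq_left]
    constructor
    · rintro (h | h)
      · exact Or.inl h
      · exact Or.inr ⟨b, h, rfl⟩
    · rintro (h | ⟨x, h, rfl⟩)
      · exact Or.inl h
      · exact Or.inr h
  | succ r ih =>
    rw [mem_ball_succ]
    constructor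
    · rintro (h | ⟨x, hx, hxb⟩)
      · rcases ih.1 h with h | ⟨y, hy, hyb⟩
        · exact Or.inl h
        · exact Or.inr ⟨y, hy, ball_subset_succ hyb⟩
      · rcases ih.1 hx with h | ⟨y, hy, hyb⟩
        · subst h
          exact Or.inr ⟨b, hxb, self_mem_ball⟩
        · exact Or.inr ⟨y, hy, mem_ball_succ.2 (Or.inr ⟨x, hyb, hxb⟩)⟩
    · rintro (h | ⟨y, hy, hyb⟩)
      · subst h; exact Or.inl self_mem_ball
      · rw [mem_ball_succ] at hyb
        rcases hyb with h | ⟨x, hx, hxb⟩
        · exact Or.inl (ih.2 (Or.inr ⟨y, hy, h⟩))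
        · exact Or.inr ⟨x, ih.2 (Or.inr ⟨y, hy, hx⟩), hxb⟩

theorem ball_symm_imp (hE : SymE E) (h : b ∈ ball E a r) : a ∈ ball E b r := by
  induction r generalizing b with
  | zero => simp only [ball_zero, mem_singleton] at h ⊢; exact h.symm
  | succ r ih =>
    rw [mem_ball_succ] at h
    rcases h with h | ⟨x, hx, hxb⟩
    · exact ball_subset_succ (ih h)
    · exact mem_ball_succ'.2 (Or.inr ⟨x, hE _ _ hxb, ih hx⟩)

theorem ball_symm (hE : SymE E) : b ∈ ball E a r ↔ a ∈ ball E b r :=
  ⟨ball_symm_imp hE, ball_symm_imp hE⟩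

theorem ball_closed {V : Finset ℕ} (hV : ∀ a ∈ V, nb E a ⊆ V) (ha : a ∈ V) : ball E a r ⊆ V := by
  induction r with
  | zero => simpa [ball_zero] using ha
  | succ r ih =>
    rw [ball_succ]
    refine union_subset ih ?_
    rw [biUnion_subset]
    exact fun x hx => hV x (ih hx)

theorem Agree.mono (h : Agree E E' u D) (hk : k ≤ D) : Agree E E' u k :=
  fun a ha => h a (ball_mono hk ha)

theorem Agree.sub (h : Agree E E' u D) (ha : a ∈ ball E u k) (hk : k + r ≤ D) :
    Agree E E' a r := fun _ hb => h _ (ball_trans' ha hb hk)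

theorem Agree.ball_eq (h : Agree E E' u D) (hr : r ≤ D + 1) : ball E u r = ball E' u r := by
  induction r with
  | zero => rfl
  | succ r ih =>
    have hb := ih (by omega)
    rw [ball_succ, ball_succ, ← hb]
    congr 1
    exact biUnion_congr rfl (fun a ha => h a (ball_mono (by omega) ha))

theorem Agree.ball_eq' (h : Agree E E' u D) (ha : a ∈ ball E u k) (hk : k + r ≤ D) :
    ball E a r = ball E' a r := (h.sub ha hk).ball_eq (by omega)

theorem Agree.symm (h : Agree E E' u D) : Agree E' E u D := by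
  intro a ha
  rw [← h.ball_eq (by omega)] at ha
  exact (h a ha).symm

/-- locality is monotone in the radius -/
theorem IsLocal.mono {S S' : Type} {f : Finset (ℕ × ℕ) → (ℕ → S) → ℕ → S'} {D D' : ℕ}
    (hf : IsLocal f D) (h : D ≤ D') : IsLocal f D' :=
  fun E E' s s' u hA hs => hf E E' s s' u (hA.mono h) (fun a ha => hs a (ball_mono h ha))

/-- composition of local maps -/
theorem IsLocal.comp {S S' S'' : Type} {f : Finset (ℕ × ℕ) → (ℕ → S) → ℕ → S'}
    {g : Finset (ℕ × ℕ) → (ℕ → S') → ℕ → S''} {D1 D2 : ℕ}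
    (hg : IsLocal g D2) (hf : IsLocal f D1) :
    IsLocal (fun E s => g E (f E s)) (D1 + D2) := by
  intro E E' s s' u hA hs
  refine hg E E' _ _ u (hA.mono (by omega)) (fun a ha => ?_)
  exact hf E E' s s' a (hA.sub ha (by omega)) (fun b hb => hs b (ball_trans' ha hb (by omega)))

end Pool.Agent.Helper48.ND
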