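import Pool.Agent.Helper48.ND.Ball

namespace Pool.Agent.Helper48.ND

open Finset Classical

variable {E : Finset (ℕ × ℕ)} {R ρ v u : ℕ} {x x' : ℕ → ℝ} {V : Finset ℕ}

theorem th_pos : 0 < th := by norm_num [th]
theorem th_lt_one : th < 1 := by norm_num [th]
theorem et_pos : 0 < et := by norm_num [et]
theorem et_lt_one : et < 1 := by norm_num [et]
theorem c1_pos : 0 < c1 := by norm_num [c1, th, et]

theorem AA_pos : 0 < AA E R x v :=
  sum_pos (fun _ _ => Real.exp_pos _) ball_nonempty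

theorem MM_pos : 0 < MM E ρ x v :=
  sum_pos (fun _ _ => Real.exp_pos _) ball_nonempty

theorem QQ_pos : 0 < QQ E R ρ x v := mul_pos AA_pos (Real.rpow_pos_of_pos MM_pos _)

theorem sh_nonneg : 0 ≤ sh E ρ x v u := by
  unfold sh; split_ifs
  · exact div_nonneg (Real.exp_pos _).le MM_pos.le
  · exact le_refl _

theorem al_nonneg : 0 ≤ al E R x v u := by
  unfold al; split_ifs
  · exact div_nonneg (Real.exp_pos _).le AA_pos.le
  · exact le_refl _

theorem sh_zero (h : u ∉ ball E v ρ) : sh E ρ x v u = 0 := by simp [sh, h]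

theorem al_zero (h : u ∉ ball E v R) : al E R x v u = 0 := by simp [al, h]

theorem sum_sh_ball : ∑ a ∈ ball E v ρ, sh E ρ x v a = 1 := by
  have h : ∑ a ∈ ball E v ρ, sh E ρ x v a = ∑ a ∈ ball E v ρ, Real.exp (x a) / MM E ρ x v :=
    sum_congr rfl (fun a ha => by simp [sh, ha])
  rw [h, ← sum_div]
  exact div_self MM_pos.ne'

theorem sum_al_ball : ∑ a ∈ ball E v R, al E R x v a = 1 := by
  have h : ∑ a ∈ ball E v R, al E R x v a = ∑ a ∈ ball E v R, Real.exp (th * x a) / AA E R x v :=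
    sum_congr rfl (fun a ha => by simp [al, ha])
  rw [h, ← sum_div]
  exact div_self AA_pos.ne'

theorem sum_sh (h : ball E v ρ ⊆ V) : ∑ a ∈ V, sh E ρ x v a = 1 := by
  rw [← sum_sh_ball (E := E) (v := v) (ρ := ρ) (x := x)]
  exact (sum_subset h (fun a _ ha => sh_zero ha)).symm

theorem sum_al (h : ball E v R ⊆ V) : ∑ a ∈ V, al E R x v a = 1 := by
  rw [← sum_al_ball (E := E) (v := v) (R := R) (x := x)]
  exact (sum_subset h (fun a _ ha => al_zero ha)).symm

theorem sum_sh_le_one (X : Finset ℕ) : ∑ a ∈ X, sh E ρ x v a ≤ 1 := by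
  have h : ∑ a ∈ X ∪ ball E v ρ, sh E ρ x v a = 1 := sum_sh subset_union_right
  rw [← h]
  exact sum_le_sum_of_subset_of_nonneg subset_union_left (fun _ _ _ => sh_nonneg)

theorem sum_al_le_one (X : Finset ℕ) : ∑ a ∈ X, al E R x v a ≤ 1 := by
  have h : ∑ a ∈ X ∪ ball E v R, al E R x v a = 1 := sum_al subset_union_right
  rw [← h]
  exact sum_le_sum_of_subset_of_nonneg subset_union_left (fun _ _ _ => al_nonneg)

theorem sh_le_one : sh E ρ x v u ≤ 1 := by
  have := sum_sh_le_one (E := E) (ρ := ρ) (x := x) (v := v) {u}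
  simpa using this

theorem al_le_one : al E R x v u ≤ 1 := by
  have := sum_al_le_one (E := E) (R := R) (x := x) (v := v) {u}
  simpa using this

theorem QQ_congr (hρ : ρ ≤ R) (h : ∀ a ∈ ball E v R, x a = x' a) :
    QQ E R ρ x v = QQ E R ρ x' v := by
  unfold QQ AA MM
  rw [sum_congr rfl (fun a ha => by rw [h a ha]), sum_congr (s₁ := ball E v ρ) rfl
    (fun a ha => by rw [h a (ball_mono hρ ha)])]

end Pool.Agent.Helper48.ND
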