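import Pool.Agent.Helper48.ND.Bas

/-!
# ND-4: Close

exp (x' a) ≤ exp δ * exp (x a) and exp (x a) ≤ exp δ * exp (x' a) on the ball, so MM of x' lies between
exp (-δ) MM and exp δ MM; AA of x' lies between exp (-th δ) AA and exp (th δ) AA. If u is not in the
ball, both sides of sh_close are 0. QQ = AA * MM ^ (-th): Real.rpow_le_rpow_of_nonpos.
-/

namespace Pool.Agent.Helper48.ND

open Finset Classical

theorem sum_exp_close {B : Finset ℕ} {x x' : ℕ → ℝ} {c δ : ℝ} (hc : 0 ≤ c)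
    (h : ∀ a ∈ B, |x' a - x a| ≤ δ) :
    ∑ a ∈ B, Real.exp (c * x' a) ≤ Real.exp (c * δ) * ∑ a ∈ B, Real.exp (c * x a) := by
  rw [mul_sum]
  refine sum_le_sum fun a ha => ?_
  rw [← Real.exp_add]
  apply Real.exp_le_exp.2
  have h1 := (abs_le.1 (h a ha)).2
  nlinarith

theorem MM_close {E : Finset (ℕ × ℕ)} {ρ v : ℕ} {x x' : ℕ → ℝ} {δ : ℝ}
    (h : ∀ a ∈ ball E v ρ, |x' a - x a| ≤ δ) : MM E ρ x' v ≤ Real.exp δ * MM E ρ x v := by
  have h1 := sum_exp_close (c := 1) zero_le_one h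
  simp only [one_mul] at h1
  exact h1

theorem AA_close {E : Finset (ℕ × ℕ)} {R v : ℕ} {x x' : ℕ → ℝ} {δ : ℝ}
    (h : ∀ a ∈ ball E v R, |x' a - x a| ≤ δ) : AA E R x' v ≤ Real.exp (th * δ) * AA E R x v :=
  sum_exp_close th_pos.le h

theorem abs_flip {B : Finset ℕ} {x x' : ℕ → ℝ} {δ : ℝ} (h : ∀ a ∈ B, |x' a - x a| ≤ δ) :
    ∀ a ∈ B, |x a - x' a| ≤ δ := fun a ha => by rw [abs_sub_comm]; exact h a ha

theorem sh_close {E : Finset (ℕ × ℕ)} {ρ v u : ℕ} {x x' : ℕ → ℝ} {δ : ℝ} (hu : |x' u - x u| ≤ δ)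
    (h : ∀ a ∈ ball E v ρ, |x' a - x a| ≤ δ) :
    sh E ρ x' v u ≤ Real.exp (2 * δ) * sh E ρ x v u := by
  unfold sh
  split_ifs with hub
  · have h1 : Real.exp (x' u) ≤ Real.exp δ * Real.exp (x u) := by
      rw [← Real.exp_add]
      apply Real.exp_le_exp.2
      have h2 := (abs_le.1 hu).2
      linarith
    have h2 : MM E ρ x v ≤ Real.exp δ * MM E ρ x' v := MM_close (abs_flip h)
    have h3 : 0 < MM E ρ x v := MM_pos
    have h4 : 0 < MM E ρ x' v := MM_pos
    rw [mul_div_assoc', div_le_div_iff₀ h4 h3]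
    calc Real.exp (x' u) * MM E ρ x v
        ≤ (Real.exp δ * Real.exp (x u)) * (Real.exp δ * MM E ρ x' v) :=
          mul_le_mul h1 h2 h3.le (by positivity)
      _ = Real.exp (2 * δ) * Real.exp (x u) * MM E ρ x' v := by
          rw [two_mul, Real.exp_add]; ring
  · simp

theorem al_close {E : Finset (ℕ × ℕ)} {R v u : ℕ} {x x' : ℕ → ℝ} {δ : ℝ} (hu : |x' u - x u| ≤ δ)
    (h : ∀ a ∈ ball E v R, |x' a - x a| ≤ δ) :
    al E R x' v u ≤ Real.exp (2 * th * δ) * al E R x v u := by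
  unfold al
  split_ifs with hub
  · have h1 : Real.exp (th * x' u) ≤ Real.exp (th * δ) * Real.exp (th * x u) := by
      rw [← Real.exp_add]
      apply Real.exp_le_exp.2
      have h2 := (abs_le.1 hu).2
      have h3 := th_pos
      nlinarith
    have h2 : AA E R x v ≤ Real.exp (th * δ) * AA E R x' v := AA_close (abs_flip h)
    have h3 : 0 < AA E R x v := AA_pos
    have h4 : 0 < AA E R x' v := AA_pos
    rw [mul_div_assoc', div_le_div_iff₀ h4 h3]
    calc Real.exp (th * x' u) * AA E R x v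
        ≤ (Real.exp (th * δ) * Real.exp (th * x u)) * (Real.exp (th * δ) * AA E R x' v) :=
          mul_le_mul h1 h2 h3.le (by positivity)
      _ = Real.exp (2 * th * δ) * Real.exp (th * x u) * AA E R x' v := by
          rw [show 2 * th * δ = th * δ + th * δ by ring, Real.exp_add]; ring
  · simp

theorem QQ_close {E : Finset (ℕ × ℕ)} {R ρ v : ℕ} (hρ : ρ ≤ R) {x x' : ℕ → ℝ} {δ : ℝ}
    (h : ∀ a ∈ ball E v R, |x' a - x a| ≤ δ) :
    QQ E R ρ x' v ≤ Real.exp (2 * th * δ) * QQ E R ρ x v := by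
  have h' : ∀ a ∈ ball E v ρ, |x' a - x a| ≤ δ := fun a ha => h a (ball_mono hρ ha)
  have h1 : AA E R x' v ≤ Real.exp (th * δ) * AA E R x v := AA_close h
  have h2 : MM E ρ x v ≤ Real.exp δ * MM E ρ x' v := MM_close (abs_flip h')
  have h3 : 0 < MM E ρ x v := MM_pos
  have h4 : 0 < MM E ρ x' v := MM_pos
  have h5 : Real.exp (-δ) * MM E ρ x v ≤ MM E ρ x' v := by
    rw [Real.exp_neg, inv_mul_le_iff₀ (Real.exp_pos _)]
    exact h2
  have h6 : (MM E ρ x' v) ^ (-th) ≤ Real.exp (th * δ) * (MM E ρ x v) ^ (-th) := by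
    have h7 := Real.rpow_le_rpow_of_nonpos (z := -th) (by positivity) h5 (by
      have := th_pos
      linarith)
    refine h7.trans (le_of_eq ?_)
    rw [Real.mul_rpow (Real.exp_pos _).le h3.le, ← Real.exp_mul]
    congr 2
    ring
  unfold QQ
  calc AA E R x' v * MM E ρ x' v ^ (-th)
      ≤ (Real.exp (th * δ) * AA E R x v) * (Real.exp (th * δ) * MM E ρ x v ^ (-th)) :=
        mul_le_mul h1 h6 (Real.rpow_pos_of_pos h4 _).le
          (mul_nonneg (Real.exp_pos _).le AA_pos.le)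
    _ = Real.exp (2 * th * δ) * (AA E R x v * MM E ρ x v ^ (-th)) := by
        rw [show 2 * th * δ = th * δ + th * δ by ring, Real.exp_add]; ring

end Pool.Agent.Helper48.ND
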