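import Pool.Agent.Helper48.ND.StepSum
import Pool.Agent.Helper48.ND.Close

/-!
# ND-5: BlockIneq

Every vertex moves at most once (at step j = lab a), so |x j a - x 0 a| ≤ et for j ≤ q, a ∈ V. Write
Q j v for QQ at x j, σ j v and τ j v for the sums of sh, al (at x j) over the class V.filter (lab = j).
step_sum (P a := lab a = j) gives F (j+1) ≤ F j + ∑ v, b v * Q j v * (th^2 et^2 (τ j + 7 σ j)
- th et^2/2 (σ j - σ j ^2)), F j := ∑ v, b v * Q j v. Telescope over j < q. Compare with the values at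
x 0 (superscript 0) by Close with δ = et:
 Q j ≤ exp(2 th et) Q^0, τ j ≤ exp(2 th et) τ^0, σ j ≤ exp(2 et) σ^0 (classwise), and
 σ j - σ j^2 = (sum over a in the class, w in V not in the class, of sh a * sh w at x j)
   ≥ exp(-4 et) * (the same at x 0) = exp(-4 et) (σ^0 - (σ^0)^2), Q j ≥ exp(-2 th et) Q^0
(closeness is symmetric). ∑_j τ^0 = 1, ∑_j σ^0 = 1 (classes partition V, hlab; sum_sh, sum_al), so the
positive part is ≤ th^2 et^2 * 8 * exp(small) ≤ 9 th^2 et^2 per v. For the negative part: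
exp(-2 th et - 4 et) ≥ 98/100 and ∑_j (σ^0 - (σ^0)^2) = 1 - ∑_a sh a^2 - off v ≥ 0 where
off v = ∑ a ∈ V, ∑ w ∈ V.filter (w ≠ a ∧ lab w = lab a), sh a * sh w. Finally
49/100 th et^2 off ≤ th et^2/2 off.
-/

namespace Pool.Agent.Helper48.ND

open Finset Classical

/-- every vertex moves at most once -/
theorem blockineq_move {E : Finset (ℕ × ℕ)} {V : Finset ℕ}
    {R ρ : ℕ} (x : ℕ → ℕ → ℝ) (N : ℕ → ℕ) (lab : ℕ → ℕ) (q : ℕ)
    (hx : ∀ j < q, ∀ a ∈ V, x (j + 1) a =
      if lab a = j then x j a + et * (if 0 < LL E R ρ (x j) N a then -1 else 1) else x j a) :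
    ∀ j ≤ q, ∀ a ∈ V, (j ≤ lab a → x j a = x 0 a) ∧ |x j a - x 0 a| ≤ et := by
  intro j
  induction j with
  | zero =>
    intro _ a _
    refine ⟨fun _ => rfl, ?_⟩
    rw [sub_self, abs_zero]
    exact et_pos.le
  | succ j ih =>
    intro hj a ha
    obtain ⟨h1, h2⟩ := ih (by omega) a ha
    have h3 := hx j (by omega) a ha
    by_cases hl : lab a = j
    · rw [if_pos hl] at h3
      refine ⟨fun h => by omega, ?_⟩
      rw [h3, h1 (by omega)]
      have h4 : |(if 0 < LL E R ρ (x j) N a then (-1 : ℝ) else 1)| = 1 := by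
        split_ifs <;> simp
      rw [add_sub_cancel_left, abs_mul, h4, mul_one, abs_of_pos et_pos]
    · rw [if_neg hl] at h3
      rw [h3]
      exact ⟨fun h => h1 (by omega), h2⟩

theorem blockineq_expA : Real.exp (2 * th * et) * Real.exp (2 * th * et) ≤ 9 / 8 := by
  rw [← Real.exp_add]
  have h1 : |2 * th * et + 2 * th * et| ≤ 1 := by
    rw [abs_of_pos] <;> norm_num [th, et]
  have h2 := (abs_le.mp (Real.abs_exp_sub_one_sub_id_le h1)).2
  have h3 : 2 * th * et + 2 * th * et = 1 / 200000 := by norm_num [th, et]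
  rw [h3] at h2 ⊢
  nlinarith

theorem blockineq_expB : Real.exp (2 * th * et) * Real.exp (2 * et) ≤ 9 / 8 := by
  rw [← Real.exp_add]
  have h1 : |2 * th * et + 2 * et| ≤ 1 := by
    rw [abs_of_pos] <;> norm_num [th, et]
  have h2 := (abs_le.mp (Real.abs_exp_sub_one_sub_id_le h1)).2
  have h3 : 2 * th * et + 2 * et = 201 / 400000 := by norm_num [th, et]
  rw [h3] at h2 ⊢
  nlinarith

theorem blockineq_expC : 98 / 100 ≤
    Real.exp (-(2 * th * et)) * (Real.exp (-(2 * et)) * Real.exp (-(2 * et))) := by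
  rw [← Real.exp_add, ← Real.exp_add]
  have h1 := Real.add_one_le_exp (-(2 * th * et) + (-(2 * et) + -(2 * et)))
  have h3 : -(2 * th * et) + (-(2 * et) + -(2 * et)) = - 401 / 400000 := by norm_num [th, et]
  rw [h3] at h1 ⊢
  linarith

theorem blockineq_flip {a b c : ℝ} (h : a ≤ Real.exp c * b) : Real.exp (-c) * a ≤ b := by
  have h1 := mul_le_mul_of_nonneg_left h (Real.exp_pos (-c)).le
  rwa [← mul_assoc, ← Real.exp_add, neg_add_cancel, Real.exp_zero, one_mul] at h1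

/-- the comparison of one term with the values at the beginning -/
theorem blockineq_term {E : Finset (ℕ × ℕ)} {V : Finset ℕ}
    {R ρ v : ℕ} (hρ : ρ ≤ R) (hv : ball E v R ⊆ V) {x x' : ℕ → ℝ} (P : ℕ → Prop)
    (h : ∀ a ∈ V, |x' a - x a| ≤ et) :
    QQ E R ρ x' v * (th ^ 2 * et ^ 2 * (∑ a ∈ V.filter P, al E R x' v a
      + 7 * ∑ a ∈ V.filter P, sh E ρ x' v a)
        - th * et ^ 2 / 2 * (∑ a ∈ V.filter P, sh E ρ x' v a
          - (∑ a ∈ V.filter P, sh E ρ x' v a) ^ 2)) ≤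
    QQ E R ρ x v * (th ^ 2 * et ^ 2 * (9 / 8) * (∑ a ∈ V.filter P, al E R x v a
      + 7 * ∑ a ∈ V.filter P, sh E ρ x v a)
        - th * et ^ 2 / 2 * (98 / 100) * (∑ a ∈ V.filter P, sh E ρ x v a
          - (∑ a ∈ V.filter P, sh E ρ x v a) ^ 2)) := by
  have hv' : ball E v ρ ⊆ V := (ball_mono hρ).trans hv
  have h' : ∀ a ∈ V, |x a - x' a| ≤ et := fun a ha => by rw [abs_sub_comm]; exact h a ha
  have hQ := QQ_close (E := E) hρ (x := x) (x' := x') (δ := et) (fun a ha => h a (hv ha))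
  have hQ' := blockineq_flip (QQ_close (E := E) hρ (x := x') (x' := x) (δ := et)
    (fun a ha => h' a (hv ha)))
  have hQ0 : 0 < QQ E R ρ x v := QQ_pos
  have hQ0' : 0 < QQ E R ρ x' v := QQ_pos
  have hτ : ∑ a ∈ V.filter P, al E R x' v a ≤
      Real.exp (2 * th * et) * ∑ a ∈ V.filter P, al E R x v a := by
    rw [mul_sum]
    exact sum_le_sum fun a ha => al_close (h a (mem_filter.mp ha).1) (fun b hb => h b (hv hb))
  have hσ : ∑ a ∈ V.filter P, sh E ρ x' v a ≤
      Real.exp (2 * et) * ∑ a ∈ V.filter P, sh E ρ x v a := by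
    rw [mul_sum]
    exact sum_le_sum fun a ha => sh_close (h a (mem_filter.mp ha).1) (fun b hb => h b (hv' hb))
  have hσ' : Real.exp (-(2 * et)) * ∑ a ∈ V.filter P, sh E ρ x v a ≤
      ∑ a ∈ V.filter P, sh E ρ x' v a := by
    rw [mul_sum]
    exact sum_le_sum fun a ha => blockineq_flip
      (sh_close (h' a (mem_filter.mp ha).1) (fun b hb => h' b (hv' hb)))
  have hσc' : Real.exp (-(2 * et)) * ∑ a ∈ V.filter (fun a => ¬ P a), sh E ρ x v a ≤
      ∑ a ∈ V.filter (fun a => ¬ P a), sh E ρ x' v a := by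
    rw [mul_sum]
    exact sum_le_sum fun a ha => blockineq_flip
      (sh_close (h' a (mem_filter.mp ha).1) (fun b hb => h' b (hv' hb)))
  have hs := sum_sh (x := x) hv'
  have hs' := sum_sh (x := x') hv'
  rw [← sum_filter_add_sum_filter_not V P] at hs hs'
  have hτ0 : 0 ≤ ∑ a ∈ V.filter P, al E R x v a := sum_nonneg fun _ _ => al_nonneg
  have hσ0 : 0 ≤ ∑ a ∈ V.filter P, sh E ρ x v a := sum_nonneg fun _ _ => sh_nonneg
  have hσc0 : 0 ≤ ∑ a ∈ V.filter (fun a => ¬ P a), sh E ρ x v a :=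
    sum_nonneg fun _ _ => sh_nonneg
  have hτ0' : 0 ≤ ∑ a ∈ V.filter P, al E R x' v a := sum_nonneg fun _ _ => al_nonneg
  have hσ0' : 0 ≤ ∑ a ∈ V.filter P, sh E ρ x' v a := sum_nonneg fun _ _ => sh_nonneg
  set τ := ∑ a ∈ V.filter P, al E R x v a with hτd
  set τ' := ∑ a ∈ V.filter P, al E R x' v a with hτd'
  set σ := ∑ a ∈ V.filter P, sh E ρ x v a with hσd
  set σ' := ∑ a ∈ V.filter P, sh E ρ x' v a with hσd'
  set κ := ∑ a ∈ V.filter (fun a => ¬ P a), sh E ρ x v a with hκd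
  set κ' := ∑ a ∈ V.filter (fun a => ¬ P a), sh E ρ x' v a with hκd'
  set Q := QQ E R ρ x v with hQd
  set Q' := QQ E R ρ x' v with hQd'
  have e1 : σ - σ ^ 2 = σ * κ := by
    have : κ = 1 - σ := by linarith
    rw [this]
    ring
  have e2 : σ' - σ' ^ 2 = σ' * κ' := by
    have : κ' = 1 - σ' := by linarith
    rw [this]
    ring
  rw [e1, e2]
  have hexp := Real.exp_pos (2 * th * et)
  -- positive part
  have p1 : Q' * τ' ≤ 9 / 8 * (Q * τ) := by
    calc Q' * τ' ≤ (Real.exp (2 * th * et) * Q) * (Real.exp (2 * th * et) * τ) :=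
          mul_le_mul hQ hτ hτ0' (by positivity)
      _ = (Real.exp (2 * th * et) * Real.exp (2 * th * et)) * (Q * τ) := by ring
      _ ≤ 9 / 8 * (Q * τ) := mul_le_mul_of_nonneg_right blockineq_expA (by positivity)
  have p2 : Q' * σ' ≤ 9 / 8 * (Q * σ) := by
    calc Q' * σ' ≤ (Real.exp (2 * th * et) * Q) * (Real.exp (2 * et) * σ) :=
          mul_le_mul hQ hσ hσ0' (by positivity)
      _ = (Real.exp (2 * th * et) * Real.exp (2 * et)) * (Q * σ) := by ring
      _ ≤ 9 / 8 * (Q * σ) := mul_le_mul_of_nonneg_right blockineq_expB (by positivity)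
  -- negative part
  have p3 : 98 / 100 * (Q * (σ * κ)) ≤ Q' * (σ' * κ') := by
    calc 98 / 100 * (Q * (σ * κ)) ≤
          (Real.exp (-(2 * th * et)) * (Real.exp (-(2 * et)) * Real.exp (-(2 * et)))) *
            (Q * (σ * κ)) := mul_le_mul_of_nonneg_right blockineq_expC (by positivity)
      _ = (Real.exp (-(2 * th * et)) * Q) * ((Real.exp (-(2 * et)) * σ) *
            (Real.exp (-(2 * et)) * κ)) := by ring
      _ ≤ Q' * (σ' * κ') := by
          apply mul_le_mul hQ' _ (by positivity) hQ0'.le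
          exact mul_le_mul hσ' hσc' (by positivity) hσ0'
  have t1 : 0 ≤ th ^ 2 * et ^ 2 := by positivity
  have t2 : 0 ≤ th * et ^ 2 / 2 := by
    have := th_pos
    positivity
  have q1 := mul_le_mul_of_nonneg_left p1 t1
  have q2 := mul_le_mul_of_nonneg_left p2 t1
  have q3 := mul_le_mul_of_nonneg_left p3 t2
  nlinarith

/-- the classes partition `V` -/
theorem blockineq_part {V : Finset ℕ} (lab : ℕ → ℕ) {q : ℕ} (hlab : ∀ a ∈ V, lab a < q)
    (g : ℕ → ℝ) : ∑ j ∈ range q, ∑ a ∈ V.filter (fun a => lab a = j), g a = ∑ a ∈ V, g a :=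
  sum_fiberwise_of_maps_to (fun a ha => mem_range.mpr (hlab a ha)) g

theorem blockineq_sq {E : Finset (ℕ × ℕ)} {V : Finset ℕ} {ρ v : ℕ} (hv : ball E v ρ ⊆ V)
    (x : ℕ → ℝ) (lab : ℕ → ℕ) {q : ℕ} (hlab : ∀ a ∈ V, lab a < q) :
    ∑ j ∈ range q, (∑ a ∈ V.filter (fun a => lab a = j), sh E ρ x v a) ^ 2 =
      ∑ a ∈ ball E v ρ, sh E ρ x v a ^ 2 +
        ∑ a ∈ V, ∑ w ∈ V.filter (fun w => w ≠ a ∧ lab w = lab a),
          sh E ρ x v a * sh E ρ x v w := by
  have h1 : ∑ a ∈ ball E v ρ, sh E ρ x v a ^ 2 = ∑ a ∈ V, sh E ρ x v a ^ 2 := by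
    apply sum_subset hv
    intro a _ ha
    rw [sh_zero ha]
    ring
  rw [h1, ← sum_add_distrib, ← blockineq_part lab hlab]
  apply sum_congr rfl
  intro j _
  rw [sq, sum_mul_sum]
  apply sum_congr rfl
  intro a ha
  obtain ⟨haV, haj⟩ := mem_filter.mp ha
  rw [← add_sum_erase _ _ ha, sq]
  congr 1
  apply sum_congr _ fun _ _ => rfl
  ext w
  simp only [mem_erase, mem_filter]
  constructor
  · rintro ⟨h2, h3, h4⟩
    exact ⟨h3, h2, h4.trans haj.symm⟩
  · rintro ⟨h2, h3, h4⟩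
    exact ⟨h3, h2, h4.trans haj⟩

theorem block_ineq {E : Finset (ℕ × ℕ)} (hE : SymE E) {V : Finset ℕ} (hV : ∀ a ∈ V, nb E a ⊆ V)
    {R ρ : ℕ} (hρ : ρ ≤ R) (x : ℕ → ℕ → ℝ) (N : ℕ → ℕ) (lab : ℕ → ℕ) (q : ℕ)
    (hlab : ∀ a ∈ V, lab a < q)
    (hx : ∀ j < q, ∀ a ∈ V, x (j + 1) a =
      if lab a = j then x j a + et * (if 0 < LL E R ρ (x j) N a then -1 else 1) else x j a) :
    ∑ v ∈ V, Real.exp (c1 * N v) * QQ E R ρ (x q) v ≤
    ∑ v ∈ V, Real.exp (c1 * N v) * QQ E R ρ (x 0) v *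
      (1 + 9 * th ^ 2 * et ^ 2
        - 49 / 100 * th * et ^ 2 * (1 - ∑ a ∈ ball E v ρ, sh E ρ (x 0) v a ^ 2))
    + th * et ^ 2 / 2 * ∑ v ∈ V, Real.exp (c1 * N v) * QQ E R ρ (x 0) v *
        ∑ a ∈ V, ∑ w ∈ V.filter (fun w => w ≠ a ∧ lab w = lab a),
          sh E ρ (x 0) v a * sh E ρ (x 0) v w := by
  have hmove := blockineq_move (E := E) (V := V) (R := R) (ρ := ρ) x N lab q hx
  set T : ℕ → ℕ → ℝ := fun j v =>
    th ^ 2 * et ^ 2 * (9 / 8) * (∑ a ∈ V.filter (fun a => lab a = j), al E R (x 0) v a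
      + 7 * ∑ a ∈ V.filter (fun a => lab a = j), sh E ρ (x 0) v a)
        - th * et ^ 2 / 2 * (98 / 100) * (∑ a ∈ V.filter (fun a => lab a = j), sh E ρ (x 0) v a
          - (∑ a ∈ V.filter (fun a => lab a = j), sh E ρ (x 0) v a) ^ 2) with hT
  have hind : ∀ j ≤ q, ∑ v ∈ V, Real.exp (c1 * N v) * QQ E R ρ (x j) v ≤
      ∑ v ∈ V, Real.exp (c1 * N v) * QQ E R ρ (x 0) v +
        ∑ v ∈ V, Real.exp (c1 * N v) * (QQ E R ρ (x 0) v * ∑ i ∈ range j, T i v) := by
    intro j
    induction j with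
    | zero =>
      intro _
      simp
    | succ j ih =>
      intro hj
      have h1 := step_sum hE hV hρ (x j) (x (j + 1)) N (fun a => lab a = j)
        (fun a ha => by
          have := hx j (by omega) a ha
          split_ifs at this ⊢ <;> exact this)
      have hf : @Finset.filter ℕ (fun a => lab a = j) (fun a => Classical.propDecidable _) V =
          V.filter (fun a => lab a = j) := by
        ext b
        simp only [mem_filter]
      simp only [hf] at h1
      have h2 := ih (by omega)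
      have h3 : ∑ v ∈ V, Real.exp (c1 * N v) * QQ E R ρ (x j) v *
          (1 + th ^ 2 * et ^ 2 * (∑ a ∈ V.filter (fun a => lab a = j), al E R (x j) v a +
            7 * ∑ a ∈ V.filter (fun a => lab a = j), sh E ρ (x j) v a)
          - th * et ^ 2 / 2 * (∑ a ∈ V.filter (fun a => lab a = j), sh E ρ (x j) v a
          - (∑ a ∈ V.filter (fun a => lab a = j), sh E ρ (x j) v a) ^ 2)) ≤
          ∑ v ∈ V, Real.exp (c1 * N v) * QQ E R ρ (x j) v +
            ∑ v ∈ V, Real.exp (c1 * N v) * (QQ E R ρ (x 0) v * T j v) := by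
        rw [← sum_add_distrib]
        apply sum_le_sum
        intro v hv
        have h4 := blockineq_term (E := E) (V := V) (R := R) (ρ := ρ) (v := v) hρ
          (ball_closed hV hv) (x := x 0) (x' := x j) (fun a => lab a = j)
          (fun a ha => (hmove j (by omega) a ha).2)
        simp only [hf] at h4
        have h5 := mul_le_mul_of_nonneg_left h4 (Real.exp_pos (c1 * N v)).le
        rw [hT]
        calc _ = Real.exp (c1 * N v) * QQ E R ρ (x j) v + Real.exp (c1 * N v) *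
              (QQ E R ρ (x j) v * (th ^ 2 * et ^ 2 *
                (∑ a ∈ V.filter (fun a => lab a = j), al E R (x j) v a
                + 7 * ∑ a ∈ V.filter (fun a => lab a = j), sh E ρ (x j) v a)
              - th * et ^ 2 / 2 * (∑ a ∈ V.filter (fun a => lab a = j), sh E ρ (x j) v a
              - (∑ a ∈ V.filter (fun a => lab a = j), sh E ρ (x j) v a) ^ 2))) := by ring
          _ ≤ _ := add_le_add le_rfl h5
      have h6 : ∑ v ∈ V, Real.exp (c1 * N v) *
          (QQ E R ρ (x 0) v * ∑ i ∈ range (j + 1), T i v) =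
          ∑ v ∈ V, Real.exp (c1 * N v) * (QQ E R ρ (x 0) v * ∑ i ∈ range j, T i v) +
            ∑ v ∈ V, Real.exp (c1 * N v) * (QQ E R ρ (x 0) v * T j v) := by
        rw [← sum_add_distrib]
        apply sum_congr rfl
        intro v _
        rw [sum_range_succ]
        ring
      rw [h6]
      linarith
  refine (hind q le_rfl).trans ?_
  rw [mul_sum, ← sum_add_distrib, ← sum_add_distrib]
  apply sum_le_sum
  intro v hv
  have hvR : ball E v R ⊆ V := ball_closed hV hv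
  have hvρ : ball E v ρ ⊆ V := ball_closed hV hv
  have hsum : ∑ i ∈ range q, T i v = 9 * (th ^ 2 * et ^ 2) - 49 / 100 * th * et ^ 2 *
      (1 - (∑ a ∈ ball E v ρ, sh E ρ (x 0) v a ^ 2 +
        ∑ a ∈ V, ∑ w ∈ V.filter (fun w => w ≠ a ∧ lab w = lab a),
          sh E ρ (x 0) v a * sh E ρ (x 0) v w)) := by
    have s1 := blockineq_part lab hlab (fun a => al E R (x 0) v a)
    have s2 := blockineq_part lab hlab (fun a => sh E ρ (x 0) v a)
    rw [sum_al hvR] at s1
    rw [sum_sh hvρ] at s2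
    rw [← blockineq_sq hvρ (x 0) lab hlab]
    simp only [hT]
    rw [sum_sub_distrib, ← mul_sum, ← mul_sum, sum_add_distrib, sum_sub_distrib, ← mul_sum, s1, s2]
    ring
  rw [hsum]
  have hoff : 0 ≤ ∑ a ∈ V, ∑ w ∈ V.filter (fun w => w ≠ a ∧ lab w = lab a),
      sh E ρ (x 0) v a * sh E ρ (x 0) v w :=
    sum_nonneg fun _ _ => sum_nonneg fun _ _ => mul_nonneg sh_nonneg sh_nonneg
  have hw : 0 ≤ Real.exp (c1 * N v) * QQ E R ρ (x 0) v := mul_nonneg (Real.exp_pos _).le QQ_pos.le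
  set off := ∑ a ∈ V, ∑ w ∈ V.filter (fun w => w ≠ a ∧ lab w = lab a),
      sh E ρ (x 0) v a * sh E ρ (x 0) v w with hoffd
  set S := ∑ a ∈ ball E v ρ, sh E ρ (x 0) v a ^ 2 with hSd
  have t3 : 0 ≤ th * et ^ 2 := by
    have := th_pos
    positivity
  have t4 : 0 ≤ Real.exp (c1 * N v) * QQ E R ρ (x 0) v * (th * et ^ 2 * off) :=
    mul_nonneg hw (mul_nonneg t3 hoff)
  nlinarith

end Pool.Agent.Helper48.ND
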