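import Pool.Agent.Helper48.ND.Bas

/-!
# ND-14: Carve

All by induction on k generalizing C (with a = C.min' h, B = ballIn E C a (rad ..), B' the next ball;
ballIn E C a r ⊆ C when a ∈ C, monotone in r).
carve_mem: direct. carve_self: if y ∈ B then x = a ∈ B; otherwise y ∉ B', the value comes from
C \ B', x ∈ C \ B' by carve_mem, and the induction hypothesis. carve_sep: if y ∈ B then y' ∈ C (carve_mem)
and adjacent, so y' ∈ B', and y' ∉ B would give none; so y' ∈ B; symmetric case by hE.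
carve_ball: the vertices with value some x in the first step are exactly B (x = a, later centres differ
from a since a ∉ C \ B'), and ballIn E C a r ⊆ ballIn E B a r for r ≤ rad by induction on r; for r < rad
wt (ballIn (r+1)) > 2 wt (ballIn r) (Nat.notMem_of_lt_sInf), so 2^rad ≤ wt B ≤ wt C. In the other case use
the induction hypothesis for C \ B' (the filter sets agree, x ∈ C \ B', x ≠ a; wt (C \ B') ≤ wt C).
-/

namespace Pool.Agent.Helper48.ND

open Finset Classical

private theorem cv_mem_succ {E : Finset (ℕ × ℕ)} {C : Finset ℕ} {a b r : ℕ} :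
    b ∈ ballIn E C a (r + 1) ↔
      b ∈ ballIn E C a r ∨ (∃ x ∈ ballIn E C a r, (x, b) ∈ E) ∧ b ∈ C := by
  rw [ballIn, mem_union, mem_inter, mem_biUnion]
  simp only [mem_nb]

private theorem cv_mono {E : Finset (ℕ × ℕ)} {C : Finset ℕ} {a r s : ℕ} (h : r ≤ s) :
    ballIn E C a r ⊆ ballIn E C a s := by
  induction h with
  | refl => exact Subset.refl _
  | step _ ih => exact ih.trans (fun z hz => cv_mem_succ.2 (Or.inl hz))

private theorem cv_self {E : Finset (ℕ × ℕ)} {C : Finset ℕ} {a r : ℕ} : a ∈ ballIn E C a r :=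
  cv_mono (Nat.zero_le r) (by simp [ballIn])

private theorem cv_subset {E : Finset (ℕ × ℕ)} {C : Finset ℕ} {a r : ℕ} (ha : a ∈ C) :
    ballIn E C a r ⊆ C := by
  induction r with
  | zero => simpa [ballIn] using ha
  | succ r ih =>
    intro z hz
    rcases cv_mem_succ.1 hz with h | h
    · exact ih h
    · exact h.2

private theorem cv_mono_set {E : Finset (ℕ × ℕ)} {C D : Finset ℕ} {a r : ℕ} (h : C ⊆ D) :
    ballIn E C a r ⊆ ballIn E D a r := by
  induction r with
  | zero => exact Subset.refl _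
  | succ r ih =>
    intro z hz
    rcases cv_mem_succ.1 hz with h1 | ⟨⟨x, hx, hxz⟩, hz'⟩
    · exact cv_mem_succ.2 (Or.inl (ih h1))
    · exact cv_mem_succ.2 (Or.inr ⟨⟨x, ih hx, hxz⟩, h hz'⟩)

private theorem cv_zero {E : Finset (ℕ × ℕ)} {W : ℕ → ℕ} {C : Finset ℕ} {y : ℕ} :
    carve E W 0 C y = none := by
  simp [carve]

private theorem cv_empty {E : Finset (ℕ × ℕ)} {W : ℕ → ℕ} {k : ℕ} {C : Finset ℕ} {y : ℕ}
    (hC : ¬ C.Nonempty) : carve E W (k + 1) C y = none := by
  rw [carve, dif_neg hC]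

private theorem cv_in {E : Finset (ℕ × ℕ)} {W : ℕ → ℕ} {k : ℕ} {C : Finset ℕ} {y : ℕ}
    (hC : C.Nonempty) (hy : y ∈ ballIn E C (C.min' hC) (rad E W C (C.min' hC))) :
    carve E W (k + 1) C y = some (C.min' hC) := by
  rw [carve, dif_pos hC, if_pos hy]

private theorem cv_bd {E : Finset (ℕ × ℕ)} {W : ℕ → ℕ} {k : ℕ} {C : Finset ℕ} {y : ℕ}
    (hC : C.Nonempty) (hy : y ∉ ballIn E C (C.min' hC) (rad E W C (C.min' hC)))
    (hy' : y ∈ ballIn E C (C.min' hC) (rad E W C (C.min' hC) + 1)) :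
    carve E W (k + 1) C y = none := by
  rw [carve, dif_pos hC, if_neg hy, if_pos hy']

private theorem cv_out {E : Finset (ℕ × ℕ)} {W : ℕ → ℕ} {k : ℕ} {C : Finset ℕ} {y : ℕ}
    (hC : C.Nonempty) (hy' : y ∉ ballIn E C (C.min' hC) (rad E W C (C.min' hC) + 1)) :
    carve E W (k + 1) C y =
      carve E W k (C \ ballIn E C (C.min' hC) (rad E W C (C.min' hC) + 1)) y := by
  have hy : y ∉ ballIn E C (C.min' hC) (rad E W C (C.min' hC)) :=
    fun h => hy' (cv_mono (Nat.le_succ _) h)
  rw [carve, dif_pos hC, if_neg hy, if_neg hy']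

/-- case distinction for a vertex with a value -/
private theorem cv_cases {E : Finset (ℕ × ℕ)} {W : ℕ → ℕ} {k : ℕ} {C : Finset ℕ} {x y : ℕ}
    (h : carve E W (k + 1) C y = some x) : ∃ hC : C.Nonempty,
      (y ∈ ballIn E C (C.min' hC) (rad E W C (C.min' hC)) ∧ x = C.min' hC) ∨
      (y ∉ ballIn E C (C.min' hC) (rad E W C (C.min' hC) + 1) ∧
        carve E W k (C \ ballIn E C (C.min' hC) (rad E W C (C.min' hC) + 1)) y = some x) := by
  by_cases hC : C.Nonempty
  · refine ⟨hC, ?_⟩
    by_cases hy : y ∈ ballIn E C (C.min' hC) (rad E W C (C.min' hC))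
    · left
      rw [cv_in hC hy] at h
      exact ⟨hy, (Option.some.inj h).symm⟩
    · by_cases hy' : y ∈ ballIn E C (C.min' hC) (rad E W C (C.min' hC) + 1)
      · rw [cv_bd hC hy hy'] at h
        exact absurd h (by simp)
      · right
        rw [cv_out hC hy'] at h
        exact ⟨hy', h⟩
  · rw [cv_empty hC] at h
    exact absurd h (by simp)

theorem carve_mem {E : Finset (ℕ × ℕ)} {W : ℕ → ℕ} {k : ℕ} {C : Finset ℕ} {x y : ℕ}
    (h : carve E W k C y = some x) : y ∈ C ∧ x ∈ C := by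
  induction k generalizing C with
  | zero => rw [cv_zero] at h; exact absurd h (by simp)
  | succ k ih =>
    obtain ⟨hC, h1 | h1⟩ := cv_cases h
    · have ha := C.min'_mem hC
      exact ⟨cv_subset ha h1.1, by rw [h1.2]; exact ha⟩
    · have h2 := ih h1.2
      exact ⟨(mem_sdiff.1 h2.1).1, (mem_sdiff.1 h2.2).1⟩

theorem carve_self {E : Finset (ℕ × ℕ)} {W : ℕ → ℕ} {k : ℕ} {C : Finset ℕ}
    {x y : ℕ} (h : carve E W k C y = some x) : carve E W k C x = some x := by
  induction k generalizing C with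
  | zero => rw [cv_zero] at h; exact absurd h (by simp)
  | succ k ih =>
    obtain ⟨hC, h1 | h1⟩ := cv_cases h
    · rw [h1.2]
      exact cv_in hC cv_self
    · have h2 := carve_mem h1.2
      rw [cv_out hC (mem_sdiff.1 h2.2).2]
      exact ih h1.2

theorem carve_sep {E : Finset (ℕ × ℕ)} (hE : SymE E) {W : ℕ → ℕ} {k : ℕ} {C : Finset ℕ}
    {x x' y y' : ℕ} (h : carve E W k C y = some x) (h' : carve E W k C y' = some x')
    (hyy : (y, y') ∈ E) : x = x' := by
  induction k generalizing C with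
  | zero => rw [cv_zero] at h; exact absurd h (by simp)
  | succ k ih =>
    have hyC := (carve_mem h).1
    have hyC' := (carve_mem h').1
    obtain ⟨hC, h1⟩ := cv_cases h
    obtain ⟨_, h2⟩ := cv_cases h'
    rcases h1 with h1 | h1 <;> rcases h2 with h2 | h2
    · rw [h1.2, h2.2]
    · exact absurd (cv_mem_succ.2 (Or.inr ⟨⟨y, h1.1, hyy⟩, hyC'⟩)) h2.1
    · exact absurd (cv_mem_succ.2 (Or.inr ⟨⟨y', h2.1, hE _ _ hyy⟩, hyC⟩)) h1.1
    · exact ih h1.2 h2.2

/-- growth of the weights up to the radius -/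
private theorem cv_grow {E : Finset (ℕ × ℕ)} {W : ℕ → ℕ} (hW : ∀ a, 1 ≤ W a) {C : Finset ℕ}
    {a r : ℕ} (hr : r ≤ rad E W C a) : 2 ^ r ≤ wt W (ballIn E C a r) := by
  induction r with
  | zero =>
    simp only [ballIn, wt, sum_singleton, pow_zero]
    exact hW a
  | succ r ih =>
    have h1 := ih (by omega)
    have h2 : r ∉ {r | wt W (ballIn E C a (r + 1)) ≤ 2 * wt W (ballIn E C a r)} :=
      Nat.notMem_of_lt_sInf (by unfold rad at hr; omega)
    simp only [Set.mem_setOf_eq, not_le] at h2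
    rw [pow_succ]
    omega

private theorem cv_wt_mono {W : ℕ → ℕ} {X Y : Finset ℕ} (h : X ⊆ Y) : wt W X ≤ wt W Y :=
  sum_le_sum_of_subset h

theorem carve_ball {E : Finset (ℕ × ℕ)} {W : ℕ → ℕ} (hW : ∀ a, 1 ≤ W a) {k : ℕ} {C : Finset ℕ}
    {x y : ℕ} (h : carve E W k C y = some x) :
    ∃ r, 2 ^ r ≤ wt W C ∧
      y ∈ ballIn E (C.filter (fun z => carve E W k C z = some x)) x r := by
  induction k generalizing C with
  | zero => rw [cv_zero] at h; exact absurd h (by simp)
  | succ k ih =>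
    obtain ⟨hC, h1 | h1⟩ := cv_cases h
    · obtain ⟨hy, rfl⟩ := h1
      have haC := C.min'_mem hC
      refine ⟨rad E W C (C.min' hC), (cv_grow hW le_rfl).trans (cv_wt_mono (cv_subset haC)), ?_⟩
      have hsub : ∀ r ≤ rad E W C (C.min' hC), ballIn E C (C.min' hC) r ⊆
          ballIn E (C.filter (fun z => carve E W (k + 1) C z = some (C.min' hC)))
            (C.min' hC) r := by
        intro r
        induction r with
        | zero => intro _; exact Subset.refl _
        | succ r ihr =>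
          intro hr z hz
          rcases cv_mem_succ.1 hz with h2 | ⟨⟨u, hu, huz⟩, hzC⟩
          · exact cv_mem_succ.2 (Or.inl (ihr (by omega) h2))
          · refine cv_mem_succ.2 (Or.inr ⟨⟨u, ihr (by omega) hu, huz⟩, ?_⟩)
            rw [mem_filter]
            exact ⟨hzC, cv_in hC (cv_mono hr hz)⟩
      exact hsub _ le_rfl hy
    · obtain ⟨r, hr, hyr⟩ := ih h1.2
      refine ⟨r, hr.trans (cv_wt_mono sdiff_subset), cv_mono_set ?_ hyr⟩
      intro z hz
      rw [mem_filter] at hz
      have hz1 := mem_sdiff.1 hz.1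
      rw [mem_filter]
      exact ⟨hz1.1, by rw [cv_out hC hz1.2]; exact hz.2⟩

end Pool.Agent.Helper48.ND
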