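import Pool.Agent.Helper48.ND.Bas

/-!
# ND-15: CarveWt

Induction on k. If C is empty both sides are 0 (k = 0 forces C empty). Otherwise a = C.min' h,
B = ballIn E C a (rad ..), B' the next ball, B ⊆ B' ⊆ C. wt B' ≤ 2 wt B: the set in the definition of rad
is nonempty (otherwise wt (ballIn (r+1)) > 2 wt (ballIn r) for all r, so wt grows beyond wt C), Nat.sInf_mem.
The vertices of C with value none are those of B' \ B and those of C \ B' with value none in the
recursive call (card (C \ B') < card C, as a ∈ B'). 2 wt (B' \ B) = 2 wt B' - 2 wt B ≤ wt B'.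
-/

namespace Pool.Agent.Helper48.ND

open Finset Classical

theorem carvewt_sub {E : Finset (ℕ × ℕ)} {C : Finset ℕ} {a : ℕ} (ha : a ∈ C) (r : ℕ) :
    ballIn E C a r ⊆ C := by
  induction r with
  | zero =>
    rw [ballIn, singleton_subset_iff]
    exact ha
  | succ r ih =>
    rw [ballIn]
    exact union_subset ih inter_subset_right

theorem carvewt_succ {E : Finset (ℕ × ℕ)} {C : Finset ℕ} {a : ℕ} (r : ℕ) :
    ballIn E C a r ⊆ ballIn E C a (r + 1) := by
  conv_rhs => rw [ballIn]
  exact subset_union_left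

theorem carvewt_self {E : Finset (ℕ × ℕ)} {C : Finset ℕ} {a : ℕ} (r : ℕ) :
    a ∈ ballIn E C a r := by
  induction r with
  | zero => rw [ballIn, mem_singleton]
  | succ r ih => exact carvewt_succ r ih

theorem carvewt_mono (W : ℕ → ℕ) {X Y : Finset ℕ} (h : X ⊆ Y) : wt W X ≤ wt W Y :=
  sum_le_sum_of_subset h

theorem carvewt_rad {E : Finset (ℕ × ℕ)} {W : ℕ → ℕ} {C : Finset ℕ} {a : ℕ} (ha : a ∈ C) :
    wt W (ballIn E C a (rad E W C a + 1)) ≤ 2 * wt W (ballIn E C a (rad E W C a)) := by
  have hne : {r | wt W (ballIn E C a (r + 1)) ≤ 2 * wt W (ballIn E C a r)}.Nonempty := by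
    by_contra hcon
    rw [Set.not_nonempty_iff_eq_empty] at hcon
    have h1 : ∀ r, 2 * wt W (ballIn E C a r) < wt W (ballIn E C a (r + 1)) := by
      intro r
      by_contra h
      have : r ∈ {r | wt W (ballIn E C a (r + 1)) ≤ 2 * wt W (ballIn E C a r)} := not_lt.1 h
      rw [hcon] at this
      exact this
    have h2 : ∀ r, r ≤ wt W (ballIn E C a r) := by
      intro r
      induction r with
      | zero => exact Nat.zero_le _
      | succ r ih =>
        have := h1 r
        omega
    have h3 := h2 (wt W C + 1)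
    have h4 := carvewt_mono W (carvewt_sub (E := E) ha (wt W C + 1))
    omega
  exact Nat.sInf_mem hne

theorem carve_wt {E : Finset (ℕ × ℕ)} {W : ℕ → ℕ} {k : ℕ} {C : Finset ℕ} (hk : C.card ≤ k) :
    ∑ y ∈ C.filter (fun y => carve E W k C y = none), 2 * W y ≤ ∑ y ∈ C, W y := by
  induction k generalizing C with
  | zero =>
    have hC : C = ∅ := card_eq_zero.1 (Nat.le_zero.1 hk)
    subst hC
    simp
  | succ k ih =>
    by_cases h : C.Nonempty
    · obtain ⟨a, hadef⟩ : ∃ a, a = C.min' h := ⟨_, rfl⟩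
      have ha : a ∈ C := hadef ▸ C.min'_mem h
      obtain ⟨B, hB⟩ : ∃ B, B = ballIn E C a (rad E W C a) := ⟨_, rfl⟩
      obtain ⟨B', hB'⟩ : ∃ B', B' = ballIn E C a (rad E W C a + 1) := ⟨_, rfl⟩
      have hBB' : B ⊆ B' := by rw [hB, hB']; exact carvewt_succ _
      have hB'C : B' ⊆ C := by rw [hB']; exact carvewt_sub ha _
      have haB' : a ∈ B' := by rw [hB']; exact carvewt_self _
      have hrad : wt W B' ≤ 2 * wt W B := by rw [hB, hB']; exact carvewt_rad ha
      have hcard : (C \ B').card ≤ k := by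
        have h1 : (C \ B').card < C.card :=
          card_lt_card (sdiff_ssubset hB'C ⟨a, haB'⟩)
        omega
      have hih := ih hcard
      have hsub : C.filter (fun y => carve E W (k + 1) C y = none) ⊆
          (B' \ B) ∪ (C \ B').filter (fun y => carve E W k (C \ B') y = none) := by
        intro y hy
        rw [mem_filter] at hy
        obtain ⟨hyC, hy⟩ := hy
        rw [carve, dif_pos h, ← hadef, ← hB, ← hB'] at hy
        rw [mem_union, mem_sdiff, mem_filter, mem_sdiff]
        by_cases h1 : y ∈ B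
        · rw [if_pos h1] at hy
          exact absurd hy (by simp)
        · rw [if_neg h1] at hy
          by_cases h2 : y ∈ B'
          · exact Or.inl ⟨h2, h1⟩
          · rw [if_neg h2] at hy
            exact Or.inr ⟨⟨hyC, h2⟩, hy⟩
      have e1 : ∑ y ∈ B' \ B, W y + ∑ y ∈ B, W y = ∑ y ∈ B', W y := sum_sdiff hBB'
      have e2 : ∑ y ∈ C \ B', W y + ∑ y ∈ B', W y = ∑ y ∈ C, W y := sum_sdiff hB'C
      have e3 : ∑ y ∈ B' \ B, 2 * W y = 2 * ∑ y ∈ B' \ B, W y := (mul_sum _ _ _).symm
      have hrad' : ∑ y ∈ B', W y ≤ 2 * ∑ y ∈ B, W y := hrad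
      calc ∑ y ∈ C.filter (fun y => carve E W (k + 1) C y = none), 2 * W y
          ≤ ∑ y ∈ (B' \ B) ∪ (C \ B').filter (fun y => carve E W k (C \ B') y = none), 2 * W y :=
            sum_le_sum_of_subset hsub
        _ ≤ ∑ y ∈ B' \ B, 2 * W y +
            ∑ y ∈ (C \ B').filter (fun y => carve E W k (C \ B') y = none), 2 * W y := by
            have h5 := sum_union_inter (s₁ := B' \ B) (s₂ := (C \ B').filter
              (fun y => carve E W k (C \ B') y = none)) (f := fun y => 2 * W y)
            omega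
        _ ≤ ∑ y ∈ C, W y := by omega
    · rw [not_nonempty_iff_eq_empty] at h
      subst h
      simp

end Pool.Agent.Helper48.ND
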