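import Pool.Agent.Helper48.ND.Bas

/-!
# ND-16: Ctr

Finset.exists_max_image on the nonempty ball with the function a ↦ toLex (h a, a) : ℤ ×ₗ ℕ; uniqueness
from antisymmetry. good_adj: the centre z of u lies in ball E u ρ ⊆ ball E w (ρ+1), the centre z' of w lies
in ball E w ρ ⊆ ball E u (ρ+1), so each is ≤ the other.
-/

namespace Pool.Agent.Helper48.ND

open Finset Classical

theorem isCtr_ctr {E : Finset (ℕ × ℕ)} {r : ℕ} {h : ℕ → ℤ} {u : ℕ} :
    IsCtr E r h u (ctr E r h u) := by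
  have hex : ∃ z, IsCtr E r h u z := by
    obtain ⟨z, hz, hmax⟩ := Finset.exists_max_image (ball E u r)
      (fun a => (toLex (h a, a) : ℤ ×ₗ ℕ)) ball_nonempty
    exact ⟨z, hz, hmax⟩
  unfold ctr
  rw [dif_pos hex]
  exact hex.choose_spec

theorem IsCtr.unique {E : Finset (ℕ × ℕ)} {r : ℕ} {h : ℕ → ℤ} {u z z' : ℕ}
    (hz : IsCtr E r h u z) (hz' : IsCtr E r h u z') : z = z' := by
  have h1 := hz.2 z' hz'.1
  have h2 := hz'.2 z hz.1
  have h3 : toLex (h z, z) = toLex (h z', z') := le_antisymm h2 h1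
  have h4 : (h z, z) = (h z', z') := toLex.injective h3
  exact (Prod.mk.inj h4).2

theorem good_adj {E : Finset (ℕ × ℕ)} (hE : SymE E) {ρ : ℕ} {h : ℕ → ℤ} {u w : ℕ}
    (hu : good E ρ h u) (hw : good E ρ h w) (huw : (u, w) ∈ E) :
    ctr E (ρ + 1) h u = ctr E (ρ + 1) h w := by
  have hsub : ball E u ρ ⊆ ball E w (ρ + 1) := by
    intro b hb
    exact mem_ball_succ'.2 (Or.inr ⟨u, hE _ _ huw, hb⟩)
  have hsub' : ball E w ρ ⊆ ball E u (ρ + 1) := by
    intro b hb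
    exact mem_ball_succ'.2 (Or.inr ⟨w, huw, hb⟩)
  have h1 := (isCtr_ctr (E := E) (r := ρ + 1) (h := h) (u := w)).2 _ (hsub hu)
  have h2 := (isCtr_ctr (E := E) (r := ρ + 1) (h := h) (u := u)).2 _ (hsub' hw)
  have h4 := toLex.injective (le_antisymm h1 h2)
  exact (Prod.mk.inj h4).2

end Pool.Agent.Helper48.ND
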