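import Pool.Agent.Helper48.ND.Bas

/-!
# ND-10: Defect

Exchange the sums: ∑ v, b v Q v ∑ a ∑ w sh v a * sh v w = ∑ a ∑ w ∑ v ∈ V, b v Q v sh v a sh v w and
∑ v ∈ V can be replaced by ∑ v ∈ ball E a R (if v ∉ ball E a R then a ∉ ball E v R ⊇ ball E v ρ, so
sh v a = 0; ball E a R ⊆ V), which is KK a w. Apply h for every a, and exchange back:
∑ a ∈ V ∑ w ∈ V KK a w = ∑ v b v Q v (∑ a ∈ V sh v a)^2 = ∑ v b v Q v (sum_sh).
-/

namespace Pool.Agent.Helper48.ND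

open Finset Classical

theorem KK_defect {E : Finset (ℕ × ℕ)} (hE : SymE E) {V : Finset ℕ} (hV : ∀ a ∈ V, nb E a ⊆ V)
    {R ρ : ℕ} (hρ : ρ ≤ R) (x : ℕ → ℝ) (N : ℕ → ℕ) (lab : ℕ → ℕ)
    (h : ∀ u ∈ V, ∑ w ∈ V.filter (fun w => w ≠ u ∧ lab w = lab u), KK E R ρ x N u w ≤
      1 / 128 * ∑ w ∈ V, KK E R ρ x N u w) :
    ∑ v ∈ V, Real.exp (c1 * N v) * QQ E R ρ x v *
        ∑ a ∈ V, ∑ w ∈ V.filter (fun w => w ≠ a ∧ lab w = lab a),
          sh E ρ x v a * sh E ρ x v w ≤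
      1 / 128 * ∑ v ∈ V, Real.exp (c1 * N v) * QQ E R ρ x v := by
  -- `KK` as a sum over `V`
  have hKK : ∀ a ∈ V, ∀ w, KK E R ρ x N a w = ∑ v ∈ V, Real.exp (c1 * N v) * QQ E R ρ x v *
      (sh E ρ x v a * sh E ρ x v w) := by
    intro a ha w
    unfold KK
    refine sum_subset (ball_closed hV ha) fun v hv hva => ?_
    have h1 : a ∉ ball E v ρ := fun h2 => hva (ball_symm_imp hE (ball_mono hρ h2))
    rw [sh_zero h1]
    ring
  have e1 : ∑ v ∈ V, Real.exp (c1 * N v) * QQ E R ρ x v *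
        ∑ a ∈ V, ∑ w ∈ V.filter (fun w => w ≠ a ∧ lab w = lab a),
          sh E ρ x v a * sh E ρ x v w =
      ∑ a ∈ V, ∑ w ∈ V.filter (fun w => w ≠ a ∧ lab w = lab a), KK E R ρ x N a w := by
    have h1 : ∀ a ∈ V, ∑ w ∈ V.filter (fun w => w ≠ a ∧ lab w = lab a), KK E R ρ x N a w =
        ∑ v ∈ V, ∑ w ∈ V.filter (fun w => w ≠ a ∧ lab w = lab a),
          Real.exp (c1 * N v) * QQ E R ρ x v * (sh E ρ x v a * sh E ρ x v w) := by
      intro a ha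
      rw [sum_comm]
      exact sum_congr rfl fun w _ => hKK a ha w
    rw [sum_congr rfl h1, sum_comm]
    refine sum_congr rfl fun v _ => ?_
    rw [mul_sum]
    refine sum_congr rfl fun a _ => ?_
    rw [mul_sum]
  have e2 : ∑ v ∈ V, Real.exp (c1 * N v) * QQ E R ρ x v =
      ∑ a ∈ V, ∑ w ∈ V, KK E R ρ x N a w := by
    have h1 : ∀ a ∈ V, ∑ w ∈ V, KK E R ρ x N a w =
        ∑ v ∈ V, ∑ w ∈ V,
          Real.exp (c1 * N v) * QQ E R ρ x v * (sh E ρ x v a * sh E ρ x v w) := by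
      intro a ha
      rw [sum_comm]
      exact sum_congr rfl fun w _ => hKK a ha w
    rw [sum_congr rfl h1, sum_comm]
    refine sum_congr rfl fun v hv => ?_
    have h2 : ∑ a ∈ V, sh E ρ x v a = 1 := sum_sh (ball_closed hV hv)
    have h3 : ∑ a ∈ V, ∑ w ∈ V,
        Real.exp (c1 * N v) * QQ E R ρ x v * (sh E ρ x v a * sh E ρ x v w) =
        Real.exp (c1 * N v) * QQ E R ρ x v * ((∑ a ∈ V, sh E ρ x v a) * ∑ w ∈ V, sh E ρ x v w) := by
      rw [sum_mul_sum, mul_sum]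
      refine sum_congr rfl fun a _ => ?_
      rw [mul_sum]
    rw [h3, h2, mul_one, mul_one]
  rw [e1, e2, mul_sum]
  exact sum_le_sum h

end Pool.Agent.Helper48.ND
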