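import Pool.Agent.Helper48.ND.Model

/-!
# Deterministic network decomposition in `O(log^2 n)` rounds: definitions

Graphs are finite sets `E` of ordered pairs of natural numbers (identifiers).
-/

namespace Pool.Agent.Helper48.ND

open Finset Classical

noncomputable section

/-- out-neighbours of `a` in the finite set `E` of ordered pairs -/
def nb (E : Finset (ℕ × ℕ)) (a : ℕ) : Finset ℕ := (E.filter (fun p => p.1 = a)).image Prod.snd

/-- all vertices at distance at most `r` from `a` -/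
def ball (E : Finset (ℕ × ℕ)) (a : ℕ) : ℕ → Finset ℕ
  | 0 => {a}
  | r + 1 => ball E a r ∪ (ball E a r).biUnion (nb E)

/-- symmetric edge set -/
def SymE (E : Finset (ℕ × ℕ)) : Prop := ∀ a b, (a, b) ∈ E → (b, a) ∈ E

/-- `E` and `E'` have the same out-neighbours at all vertices of `ball E u D` -/
def Agree (E E' : Finset (ℕ × ℕ)) (u D : ℕ) : Prop := ∀ a ∈ ball E u D, nb E a = nb E' a

/-- `f` computes the new state of `u` from the states and edges in the ball of radius `D` -/
def IsLocal {S S' : Type} (f : Finset (ℕ × ℕ) → (ℕ → S) → ℕ → S') (D : ℕ) : Prop :=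
  ∀ (E E' : Finset (ℕ × ℕ)) (s s' : ℕ → S) (u : ℕ), Agree E E' u D →
    (∀ a ∈ ball E u D, s a = s' a) → f E s u = f E' s' u

/-- the ordered pairs of identifiers of adjacent vertices -/
def edgesOf {V : Type} [Fintype V] (G : SimpleGraph V) (id : V → ℕ) : Finset (ℕ × ℕ) :=
  (Finset.univ.filter (fun p : V × V => G.Adj p.1 p.2)).image (fun p => (id p.1, id p.2))

/-! ### Constants -/

/-- exponent `theta` -/
def th : ℝ := 1 / 200
/-- step size `eta` -/
def et : ℝ := 1 / 4000
/-- weight of one non-concentrated time -/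
def c1 : ℝ := 6 / 25 * th * et ^ 2

/-! ### The weights process (phase B) -/

/-- state of a vertex in phase B: height, number of non-concentrated times so far, pipeline of
labels, history of the heights -/
structure St where
  ht : ℤ
  cnt : ℕ
  lab : ℕ → ℕ
  hist : ℕ → ℤ

/-- log-weight -/
def xx (s : ℕ → St) (a : ℕ) : ℝ := et * ((s a).ht : ℝ)

/-- `A_v` -/
def AA (E : Finset (ℕ × ℕ)) (R : ℕ) (x : ℕ → ℝ) (v : ℕ) : ℝ :=
  ∑ a ∈ ball E v R, Real.exp (th * x a)

/-- `M_{v,rho}` -/
def MM (E : Finset (ℕ × ℕ)) (ρ : ℕ) (x : ℕ → ℝ) (v : ℕ) : ℝ :=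
  ∑ a ∈ ball E v ρ, Real.exp (x a)

/-- the functional `A_v / M_{v,rho}^theta` -/
def QQ (E : Finset (ℕ × ℕ)) (R ρ : ℕ) (x : ℕ → ℝ) (v : ℕ) : ℝ :=
  AA E R x v * (MM E ρ x v) ^ (-th)

/-- share of `u` in the ball of radius `rho` around `v` -/
def sh (E : Finset (ℕ × ℕ)) (ρ : ℕ) (x : ℕ → ℝ) (v u : ℕ) : ℝ :=
  if u ∈ ball E v ρ then Real.exp (x u) / MM E ρ x v else 0

/-- share of `u` in the theta-mass of the ball of radius `R` around `v` -/
def al (E : Finset (ℕ × ℕ)) (R : ℕ) (x : ℕ → ℝ) (v u : ℕ) : ℝ :=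
  if u ∈ ball E v R then Real.exp (th * x u) / AA E R x v else 0

/-- the ball of radius `rho` around `v` is not concentrated -/
def IsNC (E : Finset (ℕ × ℕ)) (ρ : ℕ) (x : ℕ → ℝ) (v : ℕ) : Prop :=
  ∑ a ∈ ball E v ρ, (sh E ρ x v a) ^ 2 < 1 / 2

/-- weight of the pair `u`, `w` -/
def KK (E : Finset (ℕ × ℕ)) (R ρ : ℕ) (x : ℕ → ℝ) (N : ℕ → ℕ) (u w : ℕ) : ℝ :=
  ∑ v ∈ ball E u R, Real.exp (c1 * N v) * QQ E R ρ x v * (sh E ρ x v u * sh E ρ x v w)

/-- the gradient at `u` -/
def LL (E : Finset (ℕ × ℕ)) (R ρ : ℕ) (x : ℕ → ℝ) (N : ℕ → ℕ) (u : ℕ) : ℝ :=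
  ∑ v ∈ ball E u R, Real.exp (c1 * N v) * QQ E R ρ x v *
    (Real.sinh (th * et) * al E R x v u - th * Real.sinh et * sh E ρ x v u)

/-- value at `x` of the polynomial of degree at most 2 over the integers mod `p` whose coefficients
are the three last digits of `l` in base `p` -/
def ev (p l x : ℕ) : ℕ := (l % p + (l / p % p) * x + (l / p / p % p) * (x * x)) % p

/-- weight of the conflicts of `u` at the point `y` -/
def conf (W : Finset ℕ) (K : ℕ → ℝ) (p : ℕ) (lab : ℕ → ℕ) (u y : ℕ) : ℝ :=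
  ∑ w ∈ W.filter (fun w => lab w ≠ lab u ∧ ev p (lab w) y = ev p (lab u) y), K w

/-- a point of `range p` with the smallest weight of conflicts -/
def pick (W : Finset ℕ) (K : ℕ → ℝ) (p : ℕ) (lab : ℕ → ℕ) (u : ℕ) : ℕ :=
  if h : (Finset.range p).Nonempty then
    (Finset.exists_min_image (Finset.range p) (conf W K p lab u) h).choose
  else 0

/-- new label of `u` -/
def newlab (W : Finset ℕ) (K : ℕ → ℝ) (p : ℕ) (lab : ℕ → ℕ) (u : ℕ) : ℕ :=
  pick W K p lab u * p + ev p (lab u) (pick W K p lab u)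

/-- count the non-concentrated times and store the height -/
def stepC (J τ : ℕ) (E : Finset (ℕ × ℕ)) (s : ℕ → St) (u : ℕ) : St :=
  { ht := (s u).ht
    cnt := (s u).cnt + if IsNC E (τ - J) (xx s) u then 1 else 0
    lab := (s u).lab
    hist := Function.update (s u).hist τ (s u).ht }

/-- one step of the pipeline of labels -/
def stepL (pr : ℕ → ℕ) (J R τ : ℕ) (E : Finset (ℕ × ℕ)) (s : ℕ → St) (u : ℕ) : St :=
  { ht := (s u).ht
    cnt := (s u).cnt
    lab := fun i => if i ≤ J then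
        newlab (ball E u (2 * R)) (KK E R (min R (τ + i - J)) (xx s) (fun a => (s a).cnt) u) (pr i)
          (fun a => (s a).lab (i + 1)) u
      else (s u).lab i
    hist := (s u).hist }

/-- the vertices of class `j` move -/
def stepX (J R τ j : ℕ) (E : Finset (ℕ × ℕ)) (s : ℕ → St) (u : ℕ) : St :=
  { ht := if J ≤ τ ∧ (s u).lab 0 = j then
        (s u).ht + (if 0 < LL E R (τ - J) (xx s) (fun a => (s a).cnt) u then -1 else 1)
      else (s u).ht
    cnt := (s u).cnt
    lab := (s u).lab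
    hist := (s u).hist }

/-- the classes `0, …, q-1` move one after another -/
def stepXs (J R τ : ℕ) (E : Finset (ℕ × ℕ)) : ℕ → (ℕ → St) → ℕ → St
  | 0, s => s
  | q + 1, s => stepX J R τ q E (stepXs J R τ E q s)

/-- one block -/
def block (pr : ℕ → ℕ) (J R τ : ℕ) (E : Finset (ℕ × ℕ)) (s : ℕ → St) : ℕ → St :=
  stepXs J R τ E (pr 0 * pr 0) (stepL pr J R τ E (stepC J τ E s))

/-- initial state of phase B -/
def initB (J : ℕ) (a : ℕ) : St :=
  { ht := 0, cnt := 0, lab := fun i => if i ≤ J then 0 else a, hist := fun _ => 0 }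

/-- state at the beginning of block `τ` -/
def traj (pr : ℕ → ℕ) (J R : ℕ) (E : Finset (ℕ × ℕ)) : ℕ → ℕ → St
  | 0 => initB J
  | τ + 1 => block pr J R τ E (traj pr J R E τ)

/-! ### Centres and cells (phase A) -/

/-- `z` is the vertex of `ball E u r` with the largest pair (height, identifier) -/
def IsCtr (E : Finset (ℕ × ℕ)) (r : ℕ) (h : ℕ → ℤ) (u z : ℕ) : Prop :=
  z ∈ ball E u r ∧ ∀ a ∈ ball E u r, toLex (h a, a) ≤ toLex (h z, z)

/-- the centre of `u` -/
def ctr (E : Finset (ℕ × ℕ)) (r : ℕ) (h : ℕ → ℤ) (u : ℕ) : ℕ :=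
  if hz : ∃ z, IsCtr E r h u z then hz.choose else 0

/-- `u` is good for the radius `ρ` -/
def good (E : Finset (ℕ × ℕ)) (ρ : ℕ) (h : ℕ → ℤ) (u : ℕ) : Prop :=
  ctr E (ρ + 1) h u ∈ ball E u ρ

/-- ball inside the set `C` -/
def ballIn (E : Finset (ℕ × ℕ)) (C : Finset ℕ) (a : ℕ) : ℕ → Finset ℕ
  | 0 => {a}
  | r + 1 => ballIn E C a r ∪ ((ballIn E C a r).biUnion (nb E) ∩ C)

/-- total weight -/
def wt (W : ℕ → ℕ) (X : Finset ℕ) : ℕ := ∑ a ∈ X, W a

/-- the radius at which the weighted ball growing from `a` inside `C` stops -/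
def rad (E : Finset (ℕ × ℕ)) (W : ℕ → ℕ) (C : Finset ℕ) (a : ℕ) : ℕ :=
  sInf {r | wt W (ballIn E C a (r + 1)) ≤ 2 * wt W (ballIn E C a r)}

/-- ball carving inside `C` with at most `k` clusters: `some x` is the cluster with centre `x`,
`none` is the boundary -/
def carve (E : Finset (ℕ × ℕ)) (W : ℕ → ℕ) : ℕ → Finset ℕ → ℕ → Option ℕ
  | 0, _, _ => none
  | k + 1, C, y =>
    if h : C.Nonempty then
      if y ∈ ballIn E C (C.min' h) (rad E W C (C.min' h)) then some (C.min' h)
      else if y ∈ ballIn E C (C.min' h) (rad E W C (C.min' h) + 1) then none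
      else carve E W k (C \ ballIn E C (C.min' h) (rad E W C (C.min' h) + 1)) y
    else none

/-- state of a vertex in phase A: result (colour, centre), number of colours for which it was good
while it had no result, history of the heights -/
structure StA where
  res : Option (ℕ × ℕ)
  ex : ℕ
  hist : ℕ → ℤ

/-- the cell of `u` for colour `τ` -/
def cell (J τ : ℕ) (E : Finset (ℕ × ℕ)) (s : ℕ → StA) (u : ℕ) : Finset ℕ :=
  (ball E u (2 * (τ - J))).filter (fun w => (s w).res = none ∧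
    good E (τ - J) (fun a => (s a).hist τ) w ∧
    ctr E (τ - J + 1) (fun a => (s a).hist τ) w = ctr E (τ - J + 1) (fun a => (s a).hist τ) u)

/-- one step of phase A -/
def stepA (J τ : ℕ) (E : Finset (ℕ × ℕ)) (s : ℕ → StA) (u : ℕ) : StA :=
  if (s u).res = none ∧ good E (τ - J) (fun a => (s a).hist τ) u then
    match carve E (fun a => 2 ^ (s a).ex) (cell J τ E s u).card (cell J τ E s u) u with
    | some x => { res := some (τ, x), ex := (s u).ex, hist := (s u).hist }
    | none => { res := none, ex := (s u).ex + 1, hist := (s u).hist }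
  else s u

/-- initial state of phase A -/
def initA (s : ℕ → St) (a : ℕ) : StA := { res := none, ex := 0, hist := (s a).hist }

/-- state before colour `τ` -/
def trajA (J : ℕ) (E : Finset (ℕ × ℕ)) (s : ℕ → St) : ℕ → ℕ → StA
  | 0 => initA s
  | τ + 1 => stepA J τ E (trajA J E s τ)

/-- final output: colour and centre -/
def final (pr : ℕ → ℕ) (J R m : ℕ) (E : Finset (ℕ × ℕ)) (u : ℕ) : ℕ × ℕ :=
  ((trajA J E (traj pr J R E (J + m)) (J + m) u).res).getD (0, u)

end

end Pool.Agent.Helper48.ND
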