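import Pool.Agent.Helper48.ND.BlockIneq
import Pool.Agent.Helper48.ND.Defect

/-!
# ND-11: Drift

block_ineq plus KK_defect: F q ≤ ∑ v, b v Q v (1 + 9 th^2 et^2 + th et^2/256 - 49/100 th et^2 (1 - Σ sh^2)),
b v = exp (c1 N v), and th et^2/256 = (200/256) th^2 et^2. If IsNC, then Σ sh^2 < 1/2, N v = N0 v + 1 and
exp c1 * (1 + 9.79 th^2 et^2 - 0.245 th et^2) ≤ exp (c1 + 9.79 th^2 et^2 - 0.245 th et^2)
≤ exp (10 th^2 et^2) because c1 = 0.24 th et^2. Otherwise N v = N0 v and Σ sh^2 ≤ 1 (shares are in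
[0,1] with sum 1).
-/

namespace Pool.Agent.Helper48.ND

open Finset Classical

theorem drift {E : Finset (ℕ × ℕ)} (hE : SymE E) {V : Finset ℕ} (hV : ∀ a ∈ V, nb E a ⊆ V)
    {R ρ : ℕ} (hρ : ρ ≤ R) (x : ℕ → ℕ → ℝ) (N0 N : ℕ → ℕ) (lab : ℕ → ℕ) (q : ℕ)
    (hN : ∀ v ∈ V, N v = N0 v + if IsNC E ρ (x 0) v then 1 else 0)
    (hlab : ∀ a ∈ V, lab a < q)
    (hx : ∀ j < q, ∀ a ∈ V, x (j + 1) a =
      if lab a = j then x j a + et * (if 0 < LL E R ρ (x j) N a then -1 else 1) else x j a)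
    (h : ∀ u ∈ V, ∑ w ∈ V.filter (fun w => w ≠ u ∧ lab w = lab u), KK E R ρ (x 0) N u w ≤
      1 / 128 * ∑ w ∈ V, KK E R ρ (x 0) N u w) :
    ∑ v ∈ V, Real.exp (c1 * N v) * QQ E R ρ (x q) v ≤
      Real.exp (10 * th ^ 2 * et ^ 2) * ∑ v ∈ V, Real.exp (c1 * N0 v) * QQ E R ρ (x 0) v := by
  have h1 := block_ineq hE hV hρ x N lab q hlab hx
  have h2 := KK_defect hE hV hρ (x 0) N lab h
  have h3 : ∑ v ∈ V, Real.exp (c1 * N v) * QQ E R ρ (x q) v ≤
      ∑ v ∈ V, Real.exp (c1 * N v) * QQ E R ρ (x 0) v *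
        (1 + 9 * th ^ 2 * et ^ 2 + th * et ^ 2 / 256
          - 49 / 100 * th * et ^ 2 * (1 - ∑ a ∈ ball E v ρ, sh E ρ (x 0) v a ^ 2)) := by
    have h4 : ∑ v ∈ V, Real.exp (c1 * N v) * QQ E R ρ (x 0) v *
        (1 + 9 * th ^ 2 * et ^ 2 + th * et ^ 2 / 256
          - 49 / 100 * th * et ^ 2 * (1 - ∑ a ∈ ball E v ρ, sh E ρ (x 0) v a ^ 2)) =
        ∑ v ∈ V, Real.exp (c1 * N v) * QQ E R ρ (x 0) v *
        (1 + 9 * th ^ 2 * et ^ 2
          - 49 / 100 * th * et ^ 2 * (1 - ∑ a ∈ ball E v ρ, sh E ρ (x 0) v a ^ 2)) +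
        th * et ^ 2 / 2 * (1 / 128 * ∑ v ∈ V, Real.exp (c1 * N v) * QQ E R ρ (x 0) v) := by
      rw [mul_sum, mul_sum, ← sum_add_distrib]
      refine sum_congr rfl fun v _ => ?_
      ring
    rw [h4]
    refine h1.trans ?_
    have h5 : 0 ≤ th * et ^ 2 / 2 := by norm_num [th, et]
    have h6 := mul_le_mul_of_nonneg_left h2 h5
    linarith
  refine h3.trans ?_
  rw [mul_sum]
  refine sum_le_sum fun v hv => ?_
  obtain ⟨S, hS⟩ : ∃ S, S = ∑ a ∈ ball E v ρ, sh E ρ (x 0) v a ^ 2 := ⟨_, rfl⟩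
  have hQ : 0 < QQ E R ρ (x 0) v := QQ_pos
  have hb : 0 < Real.exp (c1 * N0 v) := Real.exp_pos _
  rw [← hS]
  by_cases hnc : IsNC E ρ (x 0) v
  · have hS2 : S < 1 / 2 := by
      rw [hS]
      exact hnc
    have hNv : (N v : ℝ) = N0 v + 1 := by
      rw [hN v hv, if_pos hnc]
      push_cast
      ring
    rw [hNv]
    have e1 : Real.exp (c1 * ((N0 v : ℝ) + 1)) = Real.exp (c1 * N0 v) * Real.exp c1 := by
      rw [← Real.exp_add]
      congr 1
      ring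
    rw [e1]
    have e2 : Real.exp c1 * (1 + 9 * th ^ 2 * et ^ 2 + th * et ^ 2 / 256
          - 49 / 100 * th * et ^ 2 * (1 - S)) ≤ Real.exp (10 * th ^ 2 * et ^ 2) := by
      have e3 : 1 + 9 * th ^ 2 * et ^ 2 + th * et ^ 2 / 256
          - 49 / 100 * th * et ^ 2 * (1 - S) ≤ (10 * th ^ 2 * et ^ 2 - c1) + 1 := by
        have : 0 < th * et ^ 2 := by norm_num [th, et]
        norm_num [c1, th, et] at *
        nlinarith
      have e4 := Real.add_one_le_exp (10 * th ^ 2 * et ^ 2 - c1)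
      calc Real.exp c1 * (1 + 9 * th ^ 2 * et ^ 2 + th * et ^ 2 / 256
          - 49 / 100 * th * et ^ 2 * (1 - S))
          ≤ Real.exp c1 * Real.exp (10 * th ^ 2 * et ^ 2 - c1) :=
            mul_le_mul_of_nonneg_left (e3.trans e4) (Real.exp_pos _).le
        _ = Real.exp (10 * th ^ 2 * et ^ 2) := by
            rw [← Real.exp_add]
            congr 1
            ring
    calc Real.exp (c1 * N0 v) * Real.exp c1 * QQ E R ρ (x 0) v *
          (1 + 9 * th ^ 2 * et ^ 2 + th * et ^ 2 / 256 - 49 / 100 * th * et ^ 2 * (1 - S))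
        = (Real.exp c1 * (1 + 9 * th ^ 2 * et ^ 2 + th * et ^ 2 / 256
          - 49 / 100 * th * et ^ 2 * (1 - S))) * (Real.exp (c1 * N0 v) * QQ E R ρ (x 0) v) := by
          ring
      _ ≤ Real.exp (10 * th ^ 2 * et ^ 2) * (Real.exp (c1 * N0 v) * QQ E R ρ (x 0) v) :=
          mul_le_mul_of_nonneg_right e2 (by positivity)
  · have hS2 : S ≤ 1 := by
      rw [hS, ← sum_sh_ball (E := E) (v := v) (ρ := ρ) (x := x 0)]
      refine sum_le_sum fun a _ => ?_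
      have h5 : 0 ≤ sh E ρ (x 0) v a := sh_nonneg
      have h6 : sh E ρ (x 0) v a ≤ 1 := sh_le_one
      nlinarith
    have hNv : N v = N0 v := by
      rw [hN v hv, if_neg hnc]
      simp
    rw [hNv]
    have e2 : 1 + 9 * th ^ 2 * et ^ 2 + th * et ^ 2 / 256
          - 49 / 100 * th * et ^ 2 * (1 - S) ≤ Real.exp (10 * th ^ 2 * et ^ 2) := by
      refine le_trans ?_ (Real.add_one_le_exp _)
      norm_num [th, et]
      nlinarith
    calc Real.exp (c1 * N0 v) * QQ E R ρ (x 0) v *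
          (1 + 9 * th ^ 2 * et ^ 2 + th * et ^ 2 / 256 - 49 / 100 * th * et ^ 2 * (1 - S))
        = (1 + 9 * th ^ 2 * et ^ 2 + th * et ^ 2 / 256
          - 49 / 100 * th * et ^ 2 * (1 - S)) * (Real.exp (c1 * N0 v) * QQ E R ρ (x 0) v) := by
          ring
      _ ≤ Real.exp (10 * th ^ 2 * et ^ 2) * (Real.exp (c1 * N0 v) * QQ E R ρ (x 0) v) :=
          mul_le_mul_of_nonneg_right e2 (by positivity)

end Pool.Agent.Helper48.ND
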