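import Pool.Agent.Helper48.ND.Bas

/-!
# ND-23: FullInfo

State = ℕ × ℕ × Finset (ℕ × ℕ) (n, own identifier, known pairs); init n i = (n, i, ∅);
step (n, i, K) T = (n, i, K ∪ T.biUnion (fun s => s.2.2 ∪ {(i, s.2.1), (s.2.1, i)})); out (n,i,K) = F n K i.
After t rounds n = card V, i = id v, K ⊆ edgesOf G id, and K contains all (a, b) ∈ edgesOf with
a ∈ ball (edgesOf G id) (id v) (t - 1), for t ≥ 1 (induction with mem_ball_succ'; edgesOf is symmetric). So for
T ≥ D + 1: Agree (edgesOf G id) K (id v) D and the locality of F gives the result.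
-/

namespace Pool.Agent.Helper48.ND

open Finset Classical

theorem fullinfo_mem_edges {V : Type} [Fintype V] (G : SimpleGraph V) (id : V → ℕ) (a b : ℕ) :
    (a, b) ∈ edgesOf G id ↔ ∃ v w, G.Adj v w ∧ id v = a ∧ id w = b := by
  unfold edgesOf
  simp only [mem_image, mem_filter, mem_univ, true_and, Prod.exists, Prod.mk.injEq]

/-- the algorithm which collects the neighbourhoods -/
noncomputable def fullinfo_alg {Out : Type} (F : ℕ → Finset (ℕ × ℕ) → ℕ → Out) : Alg Out where
  State := ℕ × ℕ × Finset (ℕ × ℕ)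
  init n i := (n, i, ∅)
  step s T := (s.1, s.2.1, s.2.2 ∪ T.biUnion (fun u => u.2.2 ∪ {(s.2.1, u.2.1), (u.2.1, s.2.1)}))
  out s := F s.1 s.2.2 s.2.1

theorem fullinfo_inv {Out : Type} (F : ℕ → Finset (ℕ × ℕ) → ℕ → Out) {V : Type} [Fintype V]
    (G : SimpleGraph V) (id : V → ℕ) (hid : Function.Injective id) (t : ℕ) :
    ∀ v, ∃ K : Finset (ℕ × ℕ), (fullinfo_alg F).run G id t v = (Fintype.card V, id v, K) ∧
      K ⊆ edgesOf G id ∧
      ∀ r < t, ∀ a ∈ ball (edgesOf G id) (id v) r, ∀ b, (a, b) ∈ edgesOf G id → (a, b) ∈ K := by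
  induction t with
  | zero =>
    intro v
    exact ⟨∅, rfl, by simp, by simp⟩
  | succ t ih =>
    intro v
    choose K hK1 hK2 hK3 using ih
    have hrun : (fullinfo_alg F).run G id (t + 1) v = (Fintype.card V, id v,
        K v ∪ ((Finset.univ.filter (fun w => G.Adj v w)).image
          ((fullinfo_alg F).run G id t)).biUnion
            (fun u => u.2.2 ∪ {(id v, u.2.1), (u.2.1, id v)})) := by
      show (fullinfo_alg F).step ((fullinfo_alg F).run G id t v) _ = _
      rw [hK1 v]
      rfl
    rw [hrun]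
    refine ⟨_, rfl, ?_, ?_⟩
    · refine union_subset (hK2 v) ?_
      rw [biUnion_subset]
      intro s hs
      obtain ⟨w, hw, rfl⟩ := mem_image.1 hs
      have hadj : G.Adj v w := (mem_filter.1 hw).2
      rw [hK1 w]
      refine union_subset (hK2 w) ?_
      intro p hp
      rw [mem_insert, mem_singleton] at hp
      rcases hp with rfl | rfl
      · exact (fullinfo_mem_edges G id _ _).2 ⟨v, w, hadj, rfl, rfl⟩
      · exact (fullinfo_mem_edges G id _ _).2 ⟨w, v, hadj.symm, rfl, rfl⟩
    · have hself : ∀ b, (id v, b) ∈ edgesOf G id → (id v, b) ∈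
          K v ∪ ((Finset.univ.filter (fun w => G.Adj v w)).image
          ((fullinfo_alg F).run G id t)).biUnion
            (fun u => u.2.2 ∪ {(id v, u.2.1), (u.2.1, id v)}) := by
        intro b hb
        obtain ⟨v', w, hadj, h1, h2⟩ := (fullinfo_mem_edges G id _ _).1 hb
        have hv : v' = v := hid h1
        subst hv
        refine mem_union_right _ (mem_biUnion.2 ⟨(fullinfo_alg F).run G id t w,
          mem_image_of_mem _ (mem_filter.2 ⟨mem_univ _, hadj⟩), ?_⟩)
        rw [hK1 w]
        refine mem_union_right _ ?_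
        rw [mem_insert]
        left
        rw [h2]
      intro r hr a ha b hab
      cases r with
      | zero =>
        rw [ball_zero, mem_singleton] at ha
        subst ha
        exact hself b hab
      | succ r =>
        rcases mem_ball_succ'.1 ha with ha | ⟨x, hx, hax⟩
        · subst ha
          exact hself b hab
        · obtain ⟨v', w, hadj, h1, h2⟩ := (fullinfo_mem_edges G id _ _).1 hx
          have hv : v' = v := hid h1
          subst hv
          refine mem_union_right _ (mem_biUnion.2 ⟨(fullinfo_alg F).run G id t w,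
            mem_image_of_mem _ (mem_filter.2 ⟨mem_univ _, hadj⟩), ?_⟩)
          rw [hK1 w]
          refine mem_union_left _ ?_
          rw [← h2] at hax
          exact hK3 w r (by omega) a hax b hab

theorem fullinfo {Out : Type} (F : ℕ → Finset (ℕ × ℕ) → ℕ → Out) :
    ∃ A : Alg Out, ∀ (V : Type) [Fintype V] (G : SimpleGraph V) (id : V → ℕ),
      Function.Injective id → ∀ D T : ℕ, D + 1 ≤ T →
      IsLocal (fun E (_ : ℕ → Unit) u => F (Fintype.card V) E u) D →
      ∀ v, A.out (A.run G id T v) = F (Fintype.card V) (edgesOf G id) (id v) := by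
  refine ⟨fullinfo_alg F, ?_⟩
  intro V _ G id hid D T hT hF v
  obtain ⟨K, hK1, hK2, hK3⟩ := fullinfo_inv F G id hid T v
  rw [hK1]
  show F (Fintype.card V) K (id v) = _
  have hA : Agree (edgesOf G id) K (id v) D := by
    intro a ha
    ext b
    rw [mem_nb, mem_nb]
    exact ⟨fun h => hK3 D (by omega) a ha b h, fun h => hK2 h⟩
  exact (hF (edgesOf G id) K (fun _ => ()) (fun _ => ()) (id v) hA (fun _ _ => rfl)).symm

end Pool.Agent.Helper48.ND
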