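import Pool.Agent.Helper48.ND.Ctr

/-!
# ND-13: Tele

Put M t = MM E t (fun a => et * ht t a) v. Always M (t+1) ≥ exp (-et) * M t (larger ball, every height
changes by at most 1). If t is counted: Σ sh^2 ≥ 1/2, so some a in ball E v t has sh a ≥ 1/2
(Σ sh^2 ≤ max sh), i.e. exp (x a) ≥ M t / 2; the centre z of ball E v (t+1) is not in ball E v t and
ht t z ≥ ht t a, so MM E (t+1) at time t is ≥ M t + exp (x z) ≥ 3/2 M t and M (t+1) ≥ 3/2 exp (-et) M t.
M 0 = 1 and M m ≤ n * exp (et * m) (|ht m a| ≤ m). Take logarithms.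
-/

namespace Pool.Agent.Helper48.ND

open Finset Classical

/-- if the ball is concentrated, some vertex has share at least one half -/
theorem exists_half {E : Finset (ℕ × ℕ)} {ρ v : ℕ} {x : ℕ → ℝ} (h : ¬ IsNC E ρ x v) :
    ∃ a ∈ ball E v ρ, MM E ρ x v / 2 ≤ Real.exp (x a) := by
  by_contra hcon
  push Not at hcon
  apply h
  unfold IsNC
  have hM : 0 < MM E ρ x v := MM_pos
  have h1 : ∀ a ∈ ball E v ρ, (sh E ρ x v a) ^ 2 < 1 / 2 * sh E ρ x v a := by
    intro a ha
    have h2 : sh E ρ x v a = Real.exp (x a) / MM E ρ x v := by simp [sh, ha]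
    have h3 : sh E ρ x v a < 1 / 2 := by
      rw [h2, div_lt_iff₀ hM]
      have := hcon a ha
      linarith
    have h4 : 0 < sh E ρ x v a := by
      rw [h2]; exact div_pos (Real.exp_pos _) hM
    nlinarith
  have h5 : ∑ a ∈ ball E v ρ, (sh E ρ x v a) ^ 2 < ∑ a ∈ ball E v ρ, 1 / 2 * sh E ρ x v a :=
    sum_lt_sum_of_nonempty ball_nonempty h1
  rw [← mul_sum, sum_sh_ball, mul_one] at h5
  exact h5

theorem tele {E : Finset (ℕ × ℕ)} {v n m : ℕ} (ht : ℕ → ℕ → ℤ)
    (hn : ∀ r, (ball E v r).card ≤ n) (h0 : ∀ a, ht 0 a = 0)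
    (hstep : ∀ t a, |ht (t + 1) a - ht t a| ≤ 1) :
    (((Finset.range m).filter (fun t => ¬ IsNC E t (fun a => et * (ht t a : ℝ)) v ∧
      ¬ good E t (ht t) v)).card : ℝ) * Real.log (3 / 2) ≤ Real.log n + 2 * et * m := by
  have het : 0 < et := et_pos
  set x : ℕ → ℕ → ℝ := fun t a => et * (ht t a : ℝ) with hx
  have hxs : ∀ t a, -et + x t a ≤ x (t + 1) a := by
    intro t a
    have h1 := hstep t a
    have h2 : (-1 : ℤ) ≤ ht (t + 1) a - ht t a := (abs_le.1 h1).1
    have h3 : (-1 : ℝ) ≤ (ht (t + 1) a : ℝ) - ht t a := by exact_mod_cast h2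
    simp only [hx]
    nlinarith
  have hbound : ∀ t a, |(ht t a : ℝ)| ≤ t := by
    intro t a
    induction t with
    | zero => simp [h0]
    | succ t ih =>
      have h1 := hstep t a
      have h3 : |(ht (t + 1) a : ℝ) - ht t a| ≤ 1 := by exact_mod_cast h1
      have h4 : (ht (t + 1) a : ℝ) = ((ht (t + 1) a : ℝ) - ht t a) + ht t a := by ring
      rw [h4]
      refine (abs_add_le _ _).trans ?_
      push_cast
      linarith
  -- one time step of the masses
  have hM1 : ∀ t r, Real.exp (-et) * MM E r (x t) v ≤ MM E r (x (t + 1)) v := by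
    intro t r
    unfold MM
    rw [mul_sum]
    refine sum_le_sum (fun a _ => ?_)
    rw [← Real.exp_add]
    exact Real.exp_le_exp.2 (hxs t a)
  have hlog1 : ∀ t, Real.log (MM E t (x t) v) - et ≤ Real.log (MM E (t + 1) (x (t + 1)) v) := by
    intro t
    have h1 : MM E t (x t) v ≤ MM E (t + 1) (x t) v :=
      sum_le_sum_of_subset_of_nonneg (ball_mono (Nat.le_succ t))
        (fun _ _ _ => (Real.exp_pos _).le)
    have h2 : Real.exp (-et) * MM E t (x t) v ≤ MM E (t + 1) (x (t + 1)) v :=
      (mul_le_mul_of_nonneg_left h1 (Real.exp_pos _).le).trans (hM1 t (t + 1))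
    have h3 := Real.log_le_log (mul_pos (Real.exp_pos _) MM_pos) h2
    rw [Real.log_mul (Real.exp_pos _).ne' MM_pos.ne', Real.log_exp] at h3
    linarith
  have hlog2 : ∀ t, (¬ IsNC E t (x t) v ∧ ¬ good E t (ht t) v) →
      Real.log (MM E t (x t) v) - et + Real.log (3 / 2) ≤
        Real.log (MM E (t + 1) (x (t + 1)) v) := by
    rintro t ⟨hnc, hng⟩
    obtain ⟨a, ha, hah⟩ := exists_half hnc
    set z := ctr E (t + 1) (ht t) v with hz
    have hzc : IsCtr E (t + 1) (ht t) v z := isCtr_ctr
    have hzn : z ∉ ball E v t := hng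
    have h1 : toLex (ht t a, a) ≤ toLex (ht t z, z) := hzc.2 a (ball_mono (Nat.le_succ t) ha)
    have h2 : ht t a ≤ ht t z := by
      rw [Prod.Lex.toLex_le_toLex] at h1
      rcases h1 with h1 | h1
      · exact h1.le
      · exact h1.1.le
    have h3 : x t a ≤ x t z := by
      simp only [hx]
      have : (ht t a : ℝ) ≤ ht t z := by exact_mod_cast h2
      nlinarith
    have h4 : MM E t (x t) v / 2 ≤ Real.exp (x t z) := hah.trans (Real.exp_le_exp.2 h3)
    have h5 : MM E t (x t) v + Real.exp (x t z) ≤ MM E (t + 1) (x t) v := by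
      have h6 : insert z (ball E v t) ⊆ ball E v (t + 1) :=
        insert_subset hzc.1 (ball_mono (Nat.le_succ t))
      have h7 : ∑ b ∈ insert z (ball E v t), Real.exp (x t b) ≤ MM E (t + 1) (x t) v :=
        sum_le_sum_of_subset_of_nonneg h6 (fun _ _ _ => (Real.exp_pos _).le)
      rw [sum_insert hzn] at h7
      unfold MM at *
      linarith
    have h8 : (3 / 2 : ℝ) * MM E t (x t) v ≤ MM E (t + 1) (x t) v := by linarith
    have h9 : Real.exp (-et) * (3 / 2 * MM E t (x t) v) ≤ MM E (t + 1) (x (t + 1)) v :=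
      (mul_le_mul_of_nonneg_left h8 (Real.exp_pos _).le).trans (hM1 t (t + 1))
    have h32 : (0 : ℝ) < 3 / 2 := by norm_num
    have hMp : 0 < MM E t (x t) v := MM_pos
    have h10 := Real.log_le_log (mul_pos (Real.exp_pos _) (mul_pos h32 hMp)) h9
    rw [Real.log_mul (Real.exp_pos _).ne' (mul_pos h32 hMp).ne', Real.log_exp,
      Real.log_mul h32.ne' hMp.ne'] at h10
    linarith
  have hlog32 : 0 < Real.log (3 / 2) := Real.log_pos (by norm_num)
  -- induction
  have key : ∀ m : ℕ, (((Finset.range m).filter (fun t => ¬ IsNC E t (x t) v ∧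
      ¬ good E t (ht t) v)).card : ℝ) * Real.log (3 / 2) - et * m ≤
        Real.log (MM E m (x m) v) := by
    intro m
    induction m with
    | zero =>
      have h1 : MM E 0 (x 0) v = 1 := by
        unfold MM
        rw [ball_zero, sum_singleton]
        simp [hx, h0]
      rw [h1]
      simp
    | succ m ih =>
      by_cases hc : (¬ IsNC E m (x m) v ∧ ¬ good E m (ht m) v)
      · have h1 : ((Finset.range (m + 1)).filter (fun t => ¬ IsNC E t (x t) v ∧
            ¬ good E t (ht t) v)).card = ((Finset.range m).filter (fun t => ¬ IsNC E t (x t) v ∧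
            ¬ good E t (ht t) v)).card + 1 := by
          rw [Finset.range_add_one, filter_insert, if_pos hc, card_insert_of_notMem]
          simp
        rw [h1]
        have h2 := hlog2 m hc
        push_cast
        nlinarith
      · have h1 : ((Finset.range (m + 1)).filter (fun t => ¬ IsNC E t (x t) v ∧
            ¬ good E t (ht t) v)).card = ((Finset.range m).filter (fun t => ¬ IsNC E t (x t) v ∧
            ¬ good E t (ht t) v)).card := by
          rw [Finset.range_add_one, filter_insert, if_neg hc]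
        rw [h1]
        have h2 := hlog1 m
        push_cast
        nlinarith
  have hk := key m
  have hup : Real.log (MM E m (x m) v) ≤ Real.log n + et * m := by
    have h1 : MM E m (x m) v ≤ n * Real.exp (et * m) := by
      unfold MM
      have h2 : ∀ a ∈ ball E v m, Real.exp (x m a) ≤ Real.exp (et * m) := by
        intro a _
        refine Real.exp_le_exp.2 ?_
        simp only [hx]
        exact mul_le_mul_of_nonneg_left ((le_abs_self _).trans (hbound m a)) het.le
      refine (sum_le_sum h2).trans ?_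
      rw [sum_const, nsmul_eq_mul]
      exact mul_le_mul_of_nonneg_right (by exact_mod_cast hn m) (Real.exp_pos _).le
    have hnpos : (0 : ℝ) < n := by
      have h3 : 0 < (ball E v 0).card := card_pos.2 ball_nonempty
      have h4 := hn 0
      exact_mod_cast lt_of_lt_of_le h3 h4
    have h5 := Real.log_le_log MM_pos h1
    rwa [Real.log_mul hnpos.ne' (Real.exp_pos _).ne', Real.log_exp] at h5
  linarith

end Pool.Agent.Helper48.ND
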