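import Pool.Agent.Helper48.ND.Phi
import Pool.Agent.Helper48.ND.Tele

/-!
# Every vertex is good for many colours
-/

namespace Pool.Agent.Helper48.ND

open Finset Classical

theorem log_three_half : (1 : ℝ) / 3 ≤ Real.log (3 / 2) := by
  have h := Real.one_sub_inv_le_log_of_pos (x := 3 / 2) (by norm_num)
  norm_num at h ⊢
  exact h

theorem log_card_le {n : ℕ} (hn : 1 ≤ n) : Real.log n ≤ (Nat.log 2 n + 1 : ℕ) := by
  have h1 : n < 2 ^ (Nat.log 2 n + 1) := Nat.lt_pow_succ_log_self (by norm_num) n
  have h2 : (n : ℝ) ≤ 2 ^ (Nat.log 2 n + 1) := by exact_mod_cast h1.le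
  have h3 : (0 : ℝ) < n := by exact_mod_cast hn
  calc Real.log n ≤ Real.log (2 ^ (Nat.log 2 n + 1)) := Real.log_le_log h3 h2
    _ = (Nat.log 2 n + 1 : ℕ) * Real.log 2 := by rw [Real.log_pow]
    _ ≤ (Nat.log 2 n + 1 : ℕ) * 1 := by
        apply mul_le_mul_of_nonneg_left _ (by positivity)
        have := Real.log_two_lt_d9
        linarith
    _ = _ := mul_one _

section

variable {pr : ℕ → ℕ} (hpr : ∀ i, (pr i).Prime) (hlo : ∀ i, 512 * 4 ^ i ≤ pr i)
    (hhi : ∀ i, pr i ≤ 1024 * 4 ^ i) {E : Finset (ℕ × ℕ)} (hE : SymE E) {V : Finset ℕ}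
    (hV : ∀ a ∈ V, nb E a ⊆ V) {J R : ℕ} (hid : ∀ a ∈ V, a < pr J ^ 3)

/-- the colours (in the second part) for which `v` is good, not concentrated, or neither -/
theorem split_count (m v : ℕ) : m ≤
    ((Finset.range (J + m)).filter (fun τ =>
      good E (τ - J) (fun a => (traj pr J R E (J + m) a).hist τ) v)).card +
    (tN pr J R E (J + m) v +
    ((Finset.range m).filter (fun t => ¬ IsNC E t
      (fun a => et * ((traj pr J R E (J + t) a).ht : ℝ)) v ∧
      ¬ good E t (fun a => (traj pr J R E (J + t) a).ht) v)).card) := by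
  have h1 : ((Finset.range m).filter (fun t =>
      good E t (fun a => (traj pr J R E (J + t) a).ht) v)).card ≤
      ((Finset.range (J + m)).filter (fun τ =>
      good E (τ - J) (fun a => (traj pr J R E (J + m) a).hist τ) v)).card := by
    refine card_le_card_of_injOn (fun t => J + t) ?_ ?_
    · intro t ht
      simp only [coe_filter, mem_range, Set.mem_setOf_eq] at ht ⊢
      refine ⟨by omega, ?_⟩
      rw [Nat.add_sub_cancel_left]
      have e : (fun a => (traj pr J R E (J + m) a).hist (J + t)) =
          (fun a => (traj pr J R E (J + t) a).ht) := by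
        funext a; exact hist_eq (by omega) a
      rw [e]; exact ht.2
    · intro a _ b _ hab
      simpa using hab
  have h2 : ((Finset.range m).filter (fun t => IsNC E t
      (fun a => et * ((traj pr J R E (J + t) a).ht : ℝ)) v)).card ≤ tN pr J R E (J + m) v := by
    rw [tN_card]
    refine card_le_card_of_injOn (fun t => J + t) ?_ ?_
    · intro t ht
      simp only [coe_filter, mem_range, Set.mem_setOf_eq] at ht ⊢
      refine ⟨by omega, ?_⟩
      rw [Nat.add_sub_cancel_left]
      exact ht.2
    · intro a _ b _ hab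
      simpa using hab
  have h3 : Finset.range m ⊆ (Finset.range m).filter (fun t =>
      good E t (fun a => (traj pr J R E (J + t) a).ht) v) ∪
      ((Finset.range m).filter (fun t => IsNC E t
      (fun a => et * ((traj pr J R E (J + t) a).ht : ℝ)) v) ∪
      (Finset.range m).filter (fun t => ¬ IsNC E t
      (fun a => et * ((traj pr J R E (J + t) a).ht : ℝ)) v ∧
      ¬ good E t (fun a => (traj pr J R E (J + t) a).ht) v)) := by
    intro t ht
    simp only [mem_union, mem_filter, ht, true_and]
    tauto
  have h4 := card_le_card h3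
  rw [card_range] at h4
  have h5 := h4.trans (card_union_le _ _)
  have h6 := card_union_le ((Finset.range m).filter (fun t => IsNC E t
      (fun a => et * ((traj pr J R E (J + t) a).ht : ℝ)) v)) ((Finset.range m).filter
      (fun t => ¬ IsNC E t (fun a => et * ((traj pr J R E (J + t) a).ht : ℝ)) v ∧
      ¬ good E t (fun a => (traj pr J R E (J + t) a).ht) v))
  omega

include hpr hlo hhi hE hV hid in
theorem good_count (hR : R = 100000000000 * (Nat.log 2 V.card + 1)) {v : ℕ} (hv : v ∈ V) :
    V.card < 2 ^ ((Finset.range (J + R)).filter (fun τ =>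
      good E (τ - J) (fun a => (traj pr J R E (J + R) a).hist τ) v)).card := by
  have hn : 1 ≤ V.card := card_pos.2 ⟨v, hv⟩
  set L := Nat.log 2 V.card + 1 with hL
  have hlog : Real.log V.card ≤ (L : ℝ) := log_card_le hn
  have h1 := tN_bound (R := R) hpr hlo hhi hE hV hid le_rfl hv
  have h2 := tele (E := E) (v := v) (n := V.card) (m := R)
    (fun t a => (traj pr J R E (J + t) a).ht) (fun r => card_le_card (ball_closed hV hv))
    (fun a => ht_zero le_rfl a) (fun t a => ht_step a)
  have h3 := split_count (pr := pr) (J := J) (R := R) (E := E) R v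
  set g := ((Finset.range (J + R)).filter (fun τ =>
      good E (τ - J) (fun a => (traj pr J R E (J + R) a).hist τ) v)).card with hg
  set N := tN pr J R E (J + R) v with hN
  set b := ((Finset.range R).filter (fun t => ¬ IsNC E t
      (fun a => et * ((traj pr J R E (J + t) a).ht : ℝ)) v ∧
      ¬ good E t (fun a => (traj pr J R E (J + t) a).ht) v)).card with hb
  have hRL : (R : ℝ) = 100000000000 * (L : ℝ) := by rw [hR]; push_cast; ring
  have hL1 : (1 : ℝ) ≤ L := by rw [hL]; push_cast; linarith [Nat.cast_nonneg (α := ℝ) (Nat.log 2 V.card)]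
  have hb0 : (0 : ℝ) ≤ b := Nat.cast_nonneg _
  have h4 : (b : ℝ) * (1 / 3) ≤ L + 2 * et * R := by
    refine le_trans (mul_le_mul_of_nonneg_left log_three_half hb0) (h2.trans ?_)
    linarith
  have h5 : c1 * N ≤ 10 * th ^ 2 * et ^ 2 * R + 2 * L := by linarith
  unfold et at h4
  unfold c1 th et at h5
  rw [hRL] at h4 h5
  have h6 : (N : ℝ) ≤ 48000000000 * L := by
    have h7 := mul_le_mul_of_nonneg_left h5 (by norm_num : (0:ℝ) ≤ 13333333334)
    norm_num at h7 ⊢
    nlinarith
  have h8 : (b : ℝ) ≤ 200000000 * L := by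
    norm_num at h4 ⊢
    nlinarith
  have h9 : (R : ℝ) ≤ g + (N + b) := by exact_mod_cast h3
  have h10 : (L : ℝ) ≤ g := by
    rw [hRL] at h9
    nlinarith
  have h11 : L ≤ g := by exact_mod_cast h10
  calc V.card < 2 ^ L := Nat.lt_pow_succ_log_self (by norm_num) _
    _ ≤ 2 ^ g := Nat.pow_le_pow_right (by norm_num) h11

end

end Pool.Agent.Helper48.ND
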