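import Pool.Agent.Helper48.ND.Bas

/-!
# ND-6: Hash

ev_lt: Nat.mod_lt. ev_card: in ZMod p the equation ev p l y = ev p l' y says that y is a root of the
polynomial with coefficients the differences of the three base p digits of l and l'; it is not zero
because l = d0 + p d1 + p^2 d2 is determined by its digits when l < p^3; degree ≤ 2 gives at most 2
roots; the map y ↦ (y : ZMod p) is injective on range p.
-/

namespace Pool.Agent.Helper48.ND

open Finset Classical

theorem ev_lt {p : ℕ} (hp : 0 < p) (l y : ℕ) : ev p l y < p := Nat.mod_lt _ hp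

theorem hash_digits {p l l' : ℕ} (hp : 0 < p) (hl : l < p ^ 3) (hl' : l' < p ^ 3)
    (h0 : l % p = l' % p) (h1 : l / p % p = l' / p % p) (h2 : l / p / p % p = l' / p / p % p) :
    l = l' := by
  have e2 : l / p / p = l' / p / p := by
    have a : l / p / p < p := by
      rw [Nat.div_div_eq_div_mul]
      exact Nat.div_lt_of_lt_mul (by nlinarith [hl, pow_succ p 2, sq p])
    have b : l' / p / p < p := by
      rw [Nat.div_div_eq_div_mul]
      exact Nat.div_lt_of_lt_mul (by nlinarith [hl', pow_succ p 2, sq p])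
    rwa [Nat.mod_eq_of_lt a, Nat.mod_eq_of_lt b] at h2
  have e1 : l / p = l' / p := by
    rw [← Nat.div_add_mod (l / p) p, ← Nat.div_add_mod (l' / p) p, e2, h1]
  rw [← Nat.div_add_mod l p, ← Nat.div_add_mod l' p, e1, h0]

theorem hash_cast {p : ℕ} (l y : ℕ) : ((ev p l y : ℕ) : ZMod p) =
    ((l % p : ℕ) : ZMod p) + ((l / p % p : ℕ) : ZMod p) * (y : ZMod p) +
      ((l / p / p % p : ℕ) : ZMod p) * (y : ZMod p) ^ 2 := by
  unfold ev
  rw [ZMod.natCast_mod]
  push_cast
  ring

theorem hash_inj {p : ℕ} {a b : ℕ} (ha : a < p) (hb : b < p)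
    (h : (a : ZMod p) = (b : ZMod p)) : a = b := by
  rw [ZMod.natCast_eq_natCast_iff'] at h
  rwa [Nat.mod_eq_of_lt ha, Nat.mod_eq_of_lt hb] at h

theorem ev_card {p : ℕ} (hp : p.Prime) {l l' : ℕ} (hl : l < p ^ 3) (hl' : l' < p ^ 3)
    (hne : l ≠ l') : ((Finset.range p).filter (fun y => ev p l y = ev p l' y)).card ≤ 2 := by
  haveI : Fact p.Prime := ⟨hp⟩
  set c0 : ZMod p := ((l % p : ℕ) : ZMod p) - ((l' % p : ℕ) : ZMod p) with hc0
  set c1' : ZMod p := ((l / p % p : ℕ) : ZMod p) - ((l' / p % p : ℕ) : ZMod p) with hc1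
  set c2 : ZMod p := ((l / p / p % p : ℕ) : ZMod p) - ((l' / p / p % p : ℕ) : ZMod p) with hc2
  let P : Polynomial (ZMod p) :=
    Polynomial.C c2 * Polynomial.X ^ 2 + Polynomial.C c1' * Polynomial.X + Polynomial.C c0
  have hdeg : P.natDegree ≤ 2 := Polynomial.natDegree_quadratic_le
  have hP : P ≠ 0 := by
    intro h0
    have k0 : P.coeff 0 = c0 := by simp [P]
    have k1 : P.coeff 1 = c1' := by simp [P, Polynomial.coeff_X, Polynomial.coeff_C]
    have k2 : P.coeff 2 = c2 := by simp [P, Polynomial.coeff_X, Polynomial.coeff_C]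
    rw [h0, Polynomial.coeff_zero] at k0 k1 k2
    apply hne
    refine hash_digits hp.pos hl hl' ?_ ?_ ?_
    · exact hash_inj (Nat.mod_lt _ hp.pos) (Nat.mod_lt _ hp.pos) (sub_eq_zero.1 k0.symm)
    · exact hash_inj (Nat.mod_lt _ hp.pos) (Nat.mod_lt _ hp.pos) (sub_eq_zero.1 k1.symm)
    · exact hash_inj (Nat.mod_lt _ hp.pos) (Nat.mod_lt _ hp.pos) (sub_eq_zero.1 k2.symm)
  have hle : ((Finset.range p).filter (fun y => ev p l y = ev p l' y)).card ≤
      P.roots.toFinset.card := by
    apply Finset.card_le_card_of_injOn (fun y : ℕ => (y : ZMod p))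
    · intro y hy
      have hy' := Finset.mem_filter.1 hy
      have h1 : ((ev p l y : ℕ) : ZMod p) = ((ev p l' y : ℕ) : ZMod p) := by rw [hy'.2]
      rw [hash_cast, hash_cast] at h1
      simp only [Multiset.mem_toFinset, Finset.mem_coe]
      rw [Polynomial.mem_roots hP]
      simp only [P, Polynomial.IsRoot.def, Polynomial.eval_add, Polynomial.eval_mul,
        Polynomial.eval_C, Polynomial.eval_pow, Polynomial.eval_X, hc0, hc1, hc2]
      linear_combination h1
    · intro a ha b hb hab
      have ha' := Finset.mem_range.1 (Finset.mem_filter.1 ha).1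
      have hb' := Finset.mem_range.1 (Finset.mem_filter.1 hb).1
      exact hash_inj ha' hb' hab
  exact hle.trans ((Multiset.toFinset_card_le _).trans ((Polynomial.card_roots' P).trans hdeg))

end Pool.Agent.Helper48.ND
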