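import Pool.Agent.Helper48.ND.Ctr

/-!
# ND-21: LocA

ρ = τ - J ≤ R. For w ∈ ball E u (2 ρ): ball E w (ρ+1) ⊆ ball E u (3 ρ + 1) is the same for E and E', so ctr (use
IsCtr.unique / isCtr_ctr or congruence of IsCtr) and good agree; hence the cell is the same set. carve only
uses nb E a for a in the cell ⊆ ball E u (2ρ) and W there: show carve E W k C = carve E' W' k C when nb E = nb E'
and W = W' on C (ballIn, wt, rad congruence; C.min' is in C, ballIn ⊆ C).
-/

namespace Pool.Agent.Helper48.ND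

open Finset Classical

variable {E E' : Finset (ℕ × ℕ)}

theorem ctr_congr {r : ℕ} {h h' : ℕ → ℤ} {w : ℕ} (hb : ball E w r = ball E' w r)
    (hh : ∀ a ∈ ball E w r, h a = h' a) : ctr E r h w = ctr E' r h' w := by
  have h1 : IsCtr E r h w (ctr E r h w) := isCtr_ctr
  have h2 : IsCtr E' r h' w (ctr E r h w) := by
    refine ⟨hb ▸ h1.1, fun a ha => ?_⟩
    rw [← hb] at ha
    rw [← hh a ha, ← hh _ h1.1]
    exact h1.2 a ha
  exact h2.unique isCtr_ctr

theorem good_congr {ρ : ℕ} {h h' : ℕ → ℤ} {w : ℕ} (hb : ball E w (ρ + 1) = ball E' w (ρ + 1))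
    (hb' : ball E w ρ = ball E' w ρ)
    (hh : ∀ a ∈ ball E w (ρ + 1), h a = h' a) : good E ρ h w ↔ good E' ρ h' w := by
  unfold good
  rw [ctr_congr hb hh, hb']

theorem ballIn_subset {C : Finset ℕ} {a : ℕ} (ha : a ∈ C) (r : ℕ) : ballIn E C a r ⊆ C := by
  induction r with
  | zero => simpa [ballIn] using ha
  | succ r ih =>
    rw [ballIn]
    exact union_subset ih inter_subset_right

theorem ballIn_congr {C : Finset ℕ} {a : ℕ} (ha : a ∈ C) (hE : ∀ b ∈ C, nb E b = nb E' b) (r : ℕ) :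
    ballIn E C a r = ballIn E' C a r := by
  induction r with
  | zero => rfl
  | succ r ih =>
    rw [ballIn, ballIn, ← ih]
    congr 2
    exact biUnion_congr rfl (fun b hb => hE b (ballIn_subset ha r hb))

theorem wt_congr {W W' : ℕ → ℕ} {C X : Finset ℕ} (hW : ∀ b ∈ C, W b = W' b) (hX : X ⊆ C) :
    wt W X = wt W' X := sum_congr rfl (fun b hb => hW b (hX hb))

theorem rad_congr {W W' : ℕ → ℕ} {C : Finset ℕ} {a : ℕ} (ha : a ∈ C)
    (hE : ∀ b ∈ C, nb E b = nb E' b) (hW : ∀ b ∈ C, W b = W' b) :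
    rad E W C a = rad E' W' C a := by
  unfold rad
  congr 1
  ext r
  simp only [Set.mem_ofPred_eq]
  rw [← ballIn_congr ha hE, ← ballIn_congr ha hE, wt_congr hW (ballIn_subset ha _),
    wt_congr hW (ballIn_subset ha _)]

theorem carve_congr {W W' : ℕ → ℕ} (k : ℕ) : ∀ {C : Finset ℕ},
    (∀ b ∈ C, nb E b = nb E' b) → (∀ b ∈ C, W b = W' b) →
    carve E W k C = carve E' W' k C := by
  induction k with
  | zero => intro C _ _; funext y; rfl
  | succ k ih =>
    intro C hE hW
    funext y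
    rw [carve, carve]
    by_cases hC : C.Nonempty
    · have hm := C.min'_mem hC
      rw [dif_pos hC, dif_pos hC, rad_congr hm hE hW, ballIn_congr hm hE, ballIn_congr hm hE,
        ih (fun b hb => hE b (mem_sdiff.1 hb).1) (fun b hb => hW b (mem_sdiff.1 hb).1)]
    · rw [dif_neg hC, dif_neg hC]

theorem isLocal_stepA (J R τ : ℕ) (h : τ - J ≤ R) : IsLocal (stepA J τ) (3 * R + 1) := by
  intro E E' s s' u hA hs
  obtain ⟨ρ, hρ⟩ : ∃ ρ, ρ = τ - J := ⟨_, rfl⟩
  rw [← hρ] at h
  have hu := hs u self_mem_ball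
  have hb1 : ∀ w ∈ ball E u (2 * ρ), ball E w (ρ + 1) = ball E' w (ρ + 1) := fun w hw =>
    hA.ball_eq' hw (by omega)
  have hb2 : ∀ w ∈ ball E u (2 * ρ), ball E w ρ = ball E' w ρ := fun w hw =>
    hA.ball_eq' hw (by omega)
  have hh : ∀ w ∈ ball E u (2 * ρ), ∀ a ∈ ball E w (ρ + 1),
      (fun a => (s a).hist τ) a = (fun a => (s' a).hist τ) a := fun w hw a ha => by
    simp only [hs a (ball_trans' hw ha (by omega))]
  have hctr : ∀ w ∈ ball E u (2 * ρ), ctr E (ρ + 1) (fun a => (s a).hist τ) w =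
      ctr E' (ρ + 1) (fun a => (s' a).hist τ) w := fun w hw =>
    ctr_congr (hb1 w hw) (hh w hw)
  have hgood : ∀ w ∈ ball E u (2 * ρ), (good E ρ (fun a => (s a).hist τ) w ↔
      good E' ρ (fun a => (s' a).hist τ) w) := fun w hw =>
    good_congr (hb1 w hw) (hb2 w hw) (hh w hw)
  have huu : u ∈ ball E u (2 * ρ) := self_mem_ball
  have hcell : cell J τ E s u = cell J τ E' s' u := by
    unfold cell
    rw [← hρ, ← hA.ball_eq (r := 2 * ρ) (by omega)]
    refine filter_congr (fun w hw => ?_)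
    rw [hctr w hw, hctr u huu, hgood w hw, hs w (ball_mono (by omega) hw)]
  have hsub : cell J τ E s u ⊆ ball E u (2 * ρ) := by
    unfold cell
    rw [← hρ]
    exact filter_subset _ _
  have hcarve : carve E (fun a => 2 ^ (s a).ex) (cell J τ E s u).card (cell J τ E s u) u =
      carve E' (fun a => 2 ^ (s' a).ex) (cell J τ E' s' u).card (cell J τ E' s' u) u := by
    rw [← hcell]
    exact congrFun (carve_congr _ (fun b hb => hA b (ball_mono (by omega) (hsub hb)))
      (fun b hb => by simp only [hs b (ball_mono (by omega) (hsub hb))])) u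
  unfold stepA
  rw [← hρ, hcarve]
  simp only [hgood u huu, hu]

end Pool.Agent.Helper48.ND
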