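import Pool.Agent.Helper48.ND.LocCongr

/-!
# ND-19: LocL

Congruence lemmas: for v in ball E u R, ball E v r = ball E' v r for r ≤ R (Agree.ball_eq'), AA, MM, QQ, sh
at v depend only on s on ball E v R ⊆ ball E u (2 R). So KK E R ρ (xx s) N u = KK E' R ρ (xx s') N' u as
functions of w, for ρ ≤ R; ball E u (2R) is the same; newlab depends on K, lab only on W = ball E u (2R)
and u. The radius used is min R _ ≤ R.
-/

namespace Pool.Agent.Helper48.ND

open Finset Classical

theorem isLocal_stepL (pr : ℕ → ℕ) (J R τ : ℕ) : IsLocal (stepL pr J R τ) (2 * R) := by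
  intro E E' s s' u hA hs
  have hu := hs u self_mem_ball
  have hW : ball E u (2 * R) = ball E' u (2 * R) := hA.ball_eq (by omega)
  have hx : ∀ a ∈ ball E u (2 * R), xx s a = xx s' a := fun a ha => by
    unfold xx
    rw [hs a ha]
  have hN : ∀ a ∈ ball E u (2 * R), (fun a => (s a).cnt) a = (fun a => (s' a).cnt) a :=
    fun a ha => by simp only [hs a ha]
  have hnew : ∀ i, newlab (ball E u (2 * R))
        (KK E R (min R (τ + i - J)) (xx s) (fun a => (s a).cnt) u) (pr i)
          (fun a => (s a).lab (i + 1)) u =
      newlab (ball E' u (2 * R))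
        (KK E' R (min R (τ + i - J)) (xx s') (fun a => (s' a).cnt) u) (pr i)
          (fun a => (s' a).lab (i + 1)) u := by
    intro i
    rw [← hW]
    refine newlab_congr (fun w _ => KK_congr (min_le_left _ _) hA hx hN w) (fun w hw => ?_) ?_
    · simp only [hs w hw]
    · simp only [hu]
  unfold stepL
  simp only [hnew, hu]

end Pool.Agent.Helper48.ND
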