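import Pool.Agent.Helper48.ND.LocCongr

/-!
# ND-20: LocX

As in LocL: LL E R ρ (xx s) N u depends only on ball E u (2 R) (QQ, sh, al at v ∈ ball E u R use ball E v R).
-/

namespace Pool.Agent.Helper48.ND

open Finset Classical

theorem isLocal_stepX (J R τ j : ℕ) (h : τ - J ≤ R) : IsLocal (stepX J R τ j) (2 * R) := by
  intro E E' s s' u hA hs
  have hu := hs u self_mem_ball
  have hx : ∀ a ∈ ball E u (2 * R), xx s a = xx s' a := fun a ha => by
    unfold xx
    rw [hs a ha]
  have hN : ∀ a ∈ ball E u (2 * R), (fun a => (s a).cnt) a = (fun a => (s' a).cnt) a :=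
    fun a ha => by simp only [hs a ha]
  have hL := LL_congr (ρ := τ - J) h hA hx hN
  unfold stepX
  rw [hu, hL]

end Pool.Agent.Helper48.ND
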