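import Pool.Agent.Helper48.ND.LocC
import Pool.Agent.Helper48.ND.LocL
import Pool.Agent.Helper48.ND.LocX
import Pool.Agent.Helper48.ND.LocA

/-!
# Locality of the whole algorithm
-/

namespace Pool.Agent.Helper48.ND

open Finset Classical

theorem isLocal_stepXs (J R τ : ℕ) (h : τ - J ≤ R) (q : ℕ) :
    IsLocal (fun E s => stepXs J R τ E q s) (q * (2 * R)) := by
  induction q with
  | zero =>
    intro E E' s s' u _ hs
    exact hs u self_mem_ball
  | succ q ih =>
    have h2 := (isLocal_stepX J R τ q h).comp ih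
    refine h2.mono (le_of_eq ?_)
    ring

theorem isLocal_block (pr : ℕ → ℕ) (J R τ : ℕ) (h : τ - J ≤ R) :
    IsLocal (fun E s => block pr J R τ E s) (R + 2 * R + pr 0 * pr 0 * (2 * R)) :=
  (isLocal_stepXs J R τ h (pr 0 * pr 0)).comp ((isLocal_stepL pr J R τ).comp
    (isLocal_stepC J R τ h))

theorem isLocal_traj (pr : ℕ → ℕ) (J R τ : ℕ) (h : τ ≤ J + R) :
    IsLocal (fun E (_ : ℕ → Unit) => traj pr J R E τ)
      (τ * (R + 2 * R + pr 0 * pr 0 * (2 * R))) := by
  induction τ with
  | zero =>
    intro E E' s s' u _ _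
    rfl
  | succ τ ih =>
    have h2 := (isLocal_block pr J R τ (by omega)).comp (ih (by omega))
    refine h2.mono (le_of_eq ?_)
    ring

theorem isLocal_trajA (J R τ : ℕ) (h : τ ≤ J + R) :
    IsLocal (fun E s => trajA J E s τ) (τ * (3 * R + 1)) := by
  induction τ with
  | zero =>
    intro E E' s s' u _ hs
    show StA.mk none 0 (s u).hist = StA.mk none 0 (s' u).hist
    rw [hs u self_mem_ball]
  | succ τ ih =>
    have h2 := (isLocal_stepA J R τ (by omega)).comp (ih (by omega))
    refine h2.mono (le_of_eq ?_)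
    ring

/-- total radius -/
def totD (q J R : ℕ) : ℕ := (J + R) * (R + 2 * R + q * (2 * R)) + (J + R) * (3 * R + 1)

theorem isLocal_final (pr : ℕ → ℕ) (J R : ℕ) :
    IsLocal (fun E (_ : ℕ → Unit) => final pr J R R E) (totD (pr 0 * pr 0) J R) := by
  have h := (isLocal_trajA J R (J + R) le_rfl).comp (isLocal_traj pr J R (J + R) le_rfl)
  intro E E' s s' u hA hs
  have h2 := h E E' s s' u hA hs
  show (trajA J E (traj pr J R E (J + R)) (J + R) u).res.getD (0, u) =
    (trajA J E' (traj pr J R E' (J + R)) (J + R) u).res.getD (0, u)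
  rw [show trajA J E (traj pr J R E (J + R)) (J + R) u =
    trajA J E' (traj pr J R E' (J + R)) (J + R) u from h2]

end Pool.Agent.Helper48.ND
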