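import Pool.Agent.Helper48.ND.LocCongr

/-!
# ND-18: LocC

IsNC E ρ (xx s) u depends on ball E u ρ and on s there (ρ ≤ R): Agree.ball_eq.
-/

namespace Pool.Agent.Helper48.ND

open Finset Classical

theorem isLocal_stepC (J R τ : ℕ) (h : τ - J ≤ R) : IsLocal (stepC J τ) R := by
  intro E E' s s' u hA hs
  have hu := hs u self_mem_ball
  have hN : IsNC E (τ - J) (xx s) u ↔ IsNC E' (τ - J) (xx s') u := by
    refine IsNC_congr (hA.ball_eq (by omega)) (fun a ha => ?_)
    unfold xx
    rw [hs a (ball_mono h ha)]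
  unfold stepC
  rw [hu]
  simp only [hN]

end Pool.Agent.Helper48.ND
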