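import Pool.Agent.Helper48.ND.Bas

/-!
# Congruence lemmas for the functionals of phase B
-/

namespace Pool.Agent.Helper48.ND

open Finset Classical

variable {E E' : Finset (ℕ × ℕ)} {x x' : ℕ → ℝ} {N N' : ℕ → ℕ} {v R ρ u : ℕ}

theorem AA_congr (hb : ball E v R = ball E' v R) (hx : ∀ a ∈ ball E v R, x a = x' a) :
    AA E R x v = AA E' R x' v := by
  unfold AA
  rw [← hb]
  exact sum_congr rfl (fun a ha => by rw [hx a ha])

theorem MM_congr (hb : ball E v ρ = ball E' v ρ) (hx : ∀ a ∈ ball E v ρ, x a = x' a) :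
    MM E ρ x v = MM E' ρ x' v := by
  unfold MM
  rw [← hb]
  exact sum_congr rfl (fun a ha => by rw [hx a ha])

theorem QQ_congr' (hb : ball E v R = ball E' v R) (hb' : ball E v ρ = ball E' v ρ)
    (hρ : ρ ≤ R) (hx : ∀ a ∈ ball E v R, x a = x' a) :
    QQ E R ρ x v = QQ E' R ρ x' v := by
  unfold QQ
  rw [AA_congr hb hx, MM_congr hb' (fun a ha => hx a (ball_mono hρ ha))]

theorem sh_congr (hb : ball E v ρ = ball E' v ρ) (hx : ∀ a ∈ ball E v ρ, x a = x' a) (w : ℕ) :
    sh E ρ x v w = sh E' ρ x' v w := by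
  unfold sh
  rw [MM_congr hb hx, ← hb]
  by_cases h : w ∈ ball E v ρ
  · rw [if_pos h, if_pos h, hx w h]
  · rw [if_neg h, if_neg h]

theorem al_congr (hb : ball E v R = ball E' v R) (hx : ∀ a ∈ ball E v R, x a = x' a) (w : ℕ) :
    al E R x v w = al E' R x' v w := by
  unfold al
  rw [AA_congr hb hx, ← hb]
  by_cases h : w ∈ ball E v R
  · rw [if_pos h, if_pos h, hx w h]
  · rw [if_neg h, if_neg h]

theorem IsNC_congr (hb : ball E v ρ = ball E' v ρ) (hx : ∀ a ∈ ball E v ρ, x a = x' a) :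
    IsNC E ρ x v ↔ IsNC E' ρ x' v := by
  unfold IsNC
  rw [← hb, sum_congr rfl (fun a _ => by rw [sh_congr hb hx a])]

theorem KK_congr (hρ : ρ ≤ R) (hA : Agree E E' u (2 * R)) (hx : ∀ a ∈ ball E u (2 * R), x a = x' a)
    (hN : ∀ a ∈ ball E u (2 * R), N a = N' a) (w : ℕ) :
    KK E R ρ x N u w = KK E' R ρ x' N' u w := by
  unfold KK
  rw [← hA.ball_eq (r := R) (by omega)]
  refine sum_congr rfl (fun v hv => ?_)
  have h1 : ball E v R = ball E' v R := hA.ball_eq' hv (by omega)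
  have h2 : ball E v ρ = ball E' v ρ := hA.ball_eq' hv (by omega)
  have h3 : ∀ a ∈ ball E v R, x a = x' a := fun a ha => hx a (ball_trans' hv ha (by omega))
  have h4 : ∀ a ∈ ball E v ρ, x a = x' a := fun a ha => h3 a (ball_mono hρ ha)
  rw [hN v (ball_mono (by omega) hv), QQ_congr' h1 h2 hρ h3, sh_congr h2 h4 u, sh_congr h2 h4 w]

theorem LL_congr (hρ : ρ ≤ R) (hA : Agree E E' u (2 * R)) (hx : ∀ a ∈ ball E u (2 * R), x a = x' a)
    (hN : ∀ a ∈ ball E u (2 * R), N a = N' a) :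
    LL E R ρ x N u = LL E' R ρ x' N' u := by
  unfold LL
  rw [← hA.ball_eq (r := R) (by omega)]
  refine sum_congr rfl (fun v hv => ?_)
  have h1 : ball E v R = ball E' v R := hA.ball_eq' hv (by omega)
  have h2 : ball E v ρ = ball E' v ρ := hA.ball_eq' hv (by omega)
  have h3 : ∀ a ∈ ball E v R, x a = x' a := fun a ha => hx a (ball_trans' hv ha (by omega))
  have h4 : ∀ a ∈ ball E v ρ, x a = x' a := fun a ha => h3 a (ball_mono hρ ha)
  rw [hN v (ball_mono (by omega) hv), QQ_congr' h1 h2 hρ h3, sh_congr h2 h4 u, al_congr h1 h3 u]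

theorem conf_congr {W : Finset ℕ} {K K' : ℕ → ℝ} {p : ℕ} {lab lab' : ℕ → ℕ} {y : ℕ}
    (hK : ∀ w ∈ W, K w = K' w) (hl : ∀ w ∈ W, lab w = lab' w) (hu : lab u = lab' u) :
    conf W K p lab u y = conf W K' p lab' u y := by
  unfold conf
  rw [filter_congr (q := fun w => lab' w ≠ lab' u ∧ ev p (lab' w) y = ev p (lab' u) y)
    (fun w hw => by rw [hl w hw, hu])]
  exact sum_congr rfl (fun w hw => hK w (mem_filter.1 hw).1)

theorem newlab_congr {W : Finset ℕ} {K K' : ℕ → ℝ} {p : ℕ} {lab lab' : ℕ → ℕ}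
    (hK : ∀ w ∈ W, K w = K' w) (hl : ∀ w ∈ W, lab w = lab' w) (hu : lab u = lab' u) :
    newlab W K p lab u = newlab W K' p lab' u := by
  have hc : conf W K p lab u = conf W K' p lab' u := by
    funext y
    exact conf_congr hK hl hu
  have hp : pick W K p lab u = pick W K' p lab' u := by
    unfold pick
    simp only [hc]
  unfold newlab
  rw [hp, hu]

end Pool.Agent.Helper48.ND
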