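import Pool.Agent.Helper48.ND.Carve
import Pool.Agent.Helper48.ND.CarveWt
import Pool.Agent.Helper48.ND.Ctr

/-!
# ND-17: PhaseA

S τ = trajA J E s τ; hist never changes. For v ∈ V good at colour τ (radius ρ = τ - J), the cell of v is
{w ∈ V | alive, good, same centre z}: if w is good with centre z ∈ ball E w ρ ∩ ball E v ρ then
w ∈ ball E v (2 ρ) (ball_symm), and balls of v stay in V. So members of a cell have the same cell.
(1) Weights: Φ τ = ∑ over alive v ∈ V of 2^(ex v). Group the alive good vertices by their cells: in each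
cell the clustered ones disappear and the ones with value none double; carve_wt (k = card) gives
Φ (τ+1) ≤ Φ τ ≤ Φ 0 = V.card. While v is alive, ex v = number of colours < τ for which v is good. Alive at
the end M: 2^(number of good colours) ≤ Φ M ≤ V.card, against hgood. (res is set only with first component
τ < M.)
(2) If v, w adjacent get res (τ,x), (τ,y): both were alive and good at colour τ, so the same centre by
good_adj, the same cell, and carve_sep gives x = y.
(3) res v = some (τ,x) implies x in the cell (carve_mem), carve x = some x (carve_self), so res x is the same;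
the set of z ∈ V with res z = some (τ,x) is the filter of carve_ball; wt (cell) ≤ Φ τ ≤ V.card.
-/

namespace Pool.Agent.Helper48.ND

open Finset Classical

/-- `v` is good at colour `τ` -/
def phasea_G (E : Finset (ℕ × ℕ)) (J : ℕ) (s : ℕ → St) (τ v : ℕ) : Prop :=
  good E (τ - J) (fun a => (s a).hist τ) v

/-- the centre of `v` at colour `τ` -/
noncomputable def phasea_Z (E : Finset (ℕ × ℕ)) (J : ℕ) (s : ℕ → St) (τ v : ℕ) : ℕ :=
  ctr E (τ - J + 1) (fun a => (s a).hist τ) v

/-- the members of `V` that are alive and good and have centre `z` -/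
noncomputable def phasea_K (E : Finset (ℕ × ℕ)) (J : ℕ) (s : ℕ → St) (V : Finset ℕ) (τ z : ℕ) :
    Finset ℕ :=
  V.filter (fun w => (trajA J E s τ w).res = none ∧ phasea_G E J s τ w ∧ phasea_Z E J s τ w = z)

/-- the value of the carving at `u` -/
noncomputable def phasea_c (E : Finset (ℕ × ℕ)) (J : ℕ) (s : ℕ → St) (τ : ℕ) (C : Finset ℕ)
    (u : ℕ) : Option ℕ :=
  carve E (fun a => 2 ^ (trajA J E s τ a).ex) C.card C u

variable {E : Finset (ℕ × ℕ)} {J : ℕ} {s : ℕ → St} {V : Finset ℕ}

theorem phasea_hist (τ v : ℕ) : (trajA J E s τ v).hist = (s v).hist := by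
  induction τ with
  | zero => rfl
  | succ τ ih =>
    show (stepA J τ E (trajA J E s τ) v).hist = _
    unfold stepA
    split_ifs
    · split <;> exact ih
    · exact ih

theorem phasea_good (τ v : ℕ) :
    good E (τ - J) (fun a => (trajA J E s τ a).hist τ) v ↔ phasea_G E J s τ v := by
  unfold phasea_G
  simp only [phasea_hist]

theorem phasea_ctr (τ v : ℕ) :
    ctr E (τ - J + 1) (fun a => (trajA J E s τ a).hist τ) v = phasea_Z E J s τ v := by
  unfold phasea_Z
  simp only [phasea_hist]

theorem phasea_cell (hE : SymE E) (hV : ∀ a ∈ V, nb E a ⊆ V) {τ v : ℕ} (hv : v ∈ V)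
    (hg : phasea_G E J s τ v) :
    cell J τ E (trajA J E s τ) v = phasea_K E J s V τ (phasea_Z E J s τ v) := by
  unfold cell phasea_K
  ext w
  simp only [mem_filter, phasea_good, phasea_ctr]
  constructor
  · rintro ⟨h1, h2⟩
    exact ⟨ball_closed hV hv h1, h2⟩
  · rintro ⟨h1, h2, h3, h4⟩
    refine ⟨?_, h2, h3, h4⟩
    have h5 : phasea_Z E J s τ w ∈ ball E w (τ - J) := h3
    rw [h4] at h5
    have h6 : phasea_Z E J s τ v ∈ ball E v (τ - J) := hg
    exact ball_trans' h6 (ball_symm_imp hE h5) (by omega)

theorem phasea_step_some (hE : SymE E) (hV : ∀ a ∈ V, nb E a ⊆ V) {τ v x : ℕ} (hv : v ∈ V)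
    (ha : (trajA J E s τ v).res = none) (hg : phasea_G E J s τ v)
    (hc : phasea_c E J s τ (phasea_K E J s V τ (phasea_Z E J s τ v)) v = some x) :
    (trajA J E s (τ + 1) v).res = some (τ, x) := by
  show (stepA J τ E (trajA J E s τ) v).res = _
  unfold stepA
  rw [if_pos ⟨ha, (phasea_good τ v).2 hg⟩, phasea_cell hE hV hv hg]
  unfold phasea_c at hc
  rw [hc]

theorem phasea_step_none (hE : SymE E) (hV : ∀ a ∈ V, nb E a ⊆ V) {τ v : ℕ} (hv : v ∈ V)
    (ha : (trajA J E s τ v).res = none) (hg : phasea_G E J s τ v)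
    (hc : phasea_c E J s τ (phasea_K E J s V τ (phasea_Z E J s τ v)) v = none) :
    (trajA J E s (τ + 1) v).res = none ∧
      (trajA J E s (τ + 1) v).ex = (trajA J E s τ v).ex + 1 := by
  have h : trajA J E s (τ + 1) v = stepA J τ E (trajA J E s τ) v := rfl
  rw [h]
  unfold stepA
  rw [if_pos ⟨ha, (phasea_good τ v).2 hg⟩, phasea_cell hE hV hv hg]
  unfold phasea_c at hc
  rw [hc]
  exact ⟨rfl, rfl⟩

theorem phasea_step_id {τ v : ℕ}
    (h : ¬ ((trajA J E s τ v).res = none ∧ phasea_G E J s τ v)) :
    trajA J E s (τ + 1) v = trajA J E s τ v := by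
  show stepA J τ E (trajA J E s τ) v = _
  unfold stepA
  rw [if_neg]
  rwa [phasea_good]

theorem phasea_keep {τ v : ℕ} {p : ℕ × ℕ} (h : (trajA J E s τ v).res = some p) (M : ℕ)
    (hM : τ ≤ M) : (trajA J E s M v).res = some p := by
  induction M, hM using Nat.le_induction with
  | base => exact h
  | succ M _ ih =>
    rw [phasea_step_id, ih]
    rintro ⟨h1, -⟩
    rw [ih] at h1
    exact absurd h1 (by simp)

theorem phasea_alive_mono {τ v M : ℕ} (h : (trajA J E s M v).res = none) (hM : τ ≤ M) :
    (trajA J E s τ v).res = none := by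
  by_contra hne
  obtain ⟨p, hp⟩ := Option.ne_none_iff_exists'.mp hne
  rw [phasea_keep hp M hM] at h
  exact absurd h (by simp)

theorem phasea_spec (hE : SymE E) (hV : ∀ a ∈ V, nb E a ⊆ V) {v τ x : ℕ} (hv : v ∈ V) (M : ℕ)
    (h : (trajA J E s M v).res = some (τ, x)) :
    τ < M ∧ (trajA J E s τ v).res = none ∧ phasea_G E J s τ v ∧
      phasea_c E J s τ (phasea_K E J s V τ (phasea_Z E J s τ v)) v = some x := by
  induction M with
  | zero => exact absurd h (by simp [trajA, initA])
  | succ M ih =>
    by_cases hcase : (trajA J E s M v).res = none ∧ phasea_G E J s M v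
    · obtain ⟨ha, hg⟩ := hcase
      rcases hc : phasea_c E J s M (phasea_K E J s V M (phasea_Z E J s M v)) v with _ | y
      · rw [(phasea_step_none hE hV hv ha hg hc).1] at h
        exact absurd h (by simp)
      · rw [phasea_step_some hE hV hv ha hg hc] at h
        have h1 : M = τ ∧ y = x := by simpa using h
        obtain ⟨rfl, rfl⟩ := h1
        exact ⟨Nat.lt_succ_self _, ha, hg, hc⟩
    · rw [phasea_step_id hcase] at h
      obtain ⟨h1, h2⟩ := ih h
      exact ⟨by omega, h2⟩

theorem phasea_ex (hE : SymE E) (hV : ∀ a ∈ V, nb E a ⊆ V) {v : ℕ} (hv : v ∈ V) (M : ℕ)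
    (h : (trajA J E s M v).res = none) :
    (trajA J E s M v).ex = ((Finset.range M).filter (fun τ => phasea_G E J s τ v)).card := by
  induction M with
  | zero => rfl
  | succ M ih =>
    have ha := phasea_alive_mono h (Nat.le_succ M)
    have h1 := ih ha
    rw [Finset.range_add_one, Finset.filter_insert]
    by_cases hg : phasea_G E J s M v
    · rw [if_pos hg, Finset.card_insert_of_notMem (by simp), ← h1]
      rcases hc : phasea_c E J s M (phasea_K E J s V M (phasea_Z E J s M v)) v with _ | y
      · exact (phasea_step_none hE hV hv ha hg hc).2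
      · rw [phasea_step_some hE hV hv ha hg hc] at h
        exact absurd h (by simp)
    · rw [if_neg hg, ← h1, phasea_step_id (fun h => hg h.2)]

/-- the potential -/
noncomputable def phasea_Phi (E : Finset (ℕ × ℕ)) (J : ℕ) (s : ℕ → St) (V : Finset ℕ) (τ : ℕ) :
    ℕ :=
  ∑ v ∈ V.filter (fun v => (trajA J E s τ v).res = none), 2 ^ (trajA J E s τ v).ex

theorem phasea_fiber (τ z : ℕ) :
    (V.filter (fun v => (trajA J E s τ v).res = none ∧ phasea_G E J s τ v)).filter
      (fun v => phasea_Z E J s τ v = z) = phasea_K E J s V τ z := by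
  unfold phasea_K
  rw [Finset.filter_filter]
  congr 1
  funext v
  rw [and_assoc]

theorem phasea_Phi_step (hE : SymE E) (hV : ∀ a ∈ V, nb E a ⊆ V) (τ : ℕ) :
    phasea_Phi E J s V (τ + 1) ≤ phasea_Phi E J s V τ := by
  unfold phasea_Phi
  -- split according to goodness at colour `τ`
  set A := V.filter (fun v => (trajA J E s τ v).res = none) with hA
  have hsub : V.filter (fun v => (trajA J E s (τ + 1) v).res = none) ⊆ A := by
    intro v hv
    rw [mem_filter] at hv
    rw [hA, mem_filter]
    exact ⟨hv.1, phasea_alive_mono hv.2 (Nat.le_succ τ)⟩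
  have hB : V.filter (fun v => (trajA J E s (τ + 1) v).res = none)
      = A.filter (fun v => (trajA J E s (τ + 1) v).res = none) := by
    ext v
    constructor
    · intro hv
      rw [mem_filter]
      exact ⟨hsub hv, (mem_filter.mp hv).2⟩
    · intro hv
      rw [mem_filter] at hv ⊢
      exact ⟨(mem_filter.mp hv.1).1, hv.2⟩
  rw [hB, ← Finset.sum_filter_add_sum_filter_not A (fun v => phasea_G E J s τ v),
    ← Finset.sum_filter_add_sum_filter_not
      (A.filter (fun v => (trajA J E s (τ + 1) v).res = none)) (fun v => phasea_G E J s τ v)]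
  refine add_le_add ?_ ?_
  · -- good vertices
    have hAG : A.filter (fun v => phasea_G E J s τ v)
        = V.filter (fun v => (trajA J E s τ v).res = none ∧ phasea_G E J s τ v) := by
      rw [hA, Finset.filter_filter]
    rw [Finset.filter_filter]
    have hswap : A.filter (fun v => (trajA J E s (τ + 1) v).res = none ∧ phasea_G E J s τ v)
        = (A.filter (fun v => phasea_G E J s τ v)).filter
          (fun v => (trajA J E s (τ + 1) v).res = none) := by
      ext v
      simp only [mem_filter]
      tauto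
    rw [hswap, hAG]
    set B := V.filter (fun v => (trajA J E s τ v).res = none ∧ phasea_G E J s τ v) with hBdef
    rw [Finset.sum_filter]
    rw [← Finset.sum_fiberwise_of_maps_to (s := B) (t := B.image (phasea_Z E J s τ))
        (g := phasea_Z E J s τ) (fun v hv => Finset.mem_image_of_mem _ hv)
        (fun v => if (trajA J E s (τ + 1) v).res = none then
          2 ^ (trajA J E s (τ + 1) v).ex else 0),
      ← Finset.sum_fiberwise_of_maps_to (s := B) (t := B.image (phasea_Z E J s τ))
        (g := phasea_Z E J s τ) (fun v hv => Finset.mem_image_of_mem _ hv)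
        (fun v => 2 ^ (trajA J E s τ v).ex)]
    refine Finset.sum_le_sum fun z _ => ?_
    rw [phasea_fiber]
    refine le_trans ?_ (carve_wt (E := E) (W := fun a => 2 ^ (trajA J E s τ a).ex)
      (le_refl (phasea_K E J s V τ z).card))
    rw [← Finset.sum_filter]
    have hle : ((phasea_K E J s V τ z).filter
        (fun v => (trajA J E s (τ + 1) v).res = none)) ⊆ (phasea_K E J s V τ z).filter
        (fun y => carve E (fun a => 2 ^ (trajA J E s τ a).ex) (phasea_K E J s V τ z).card
          (phasea_K E J s V τ z) y = none) := by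
      intro v hv
      rw [mem_filter] at hv ⊢
      refine ⟨hv.1, ?_⟩
      have hvK := hv.1
      unfold phasea_K at hvK
      rw [mem_filter] at hvK
      obtain ⟨hvV, ha, hg, hz⟩ := hvK
      rcases hc : phasea_c E J s τ (phasea_K E J s V τ (phasea_Z E J s τ v)) v with _ | y
      · rw [hz] at hc
        exact hc
      · rw [phasea_step_some hE hV hvV ha hg hc] at hv
        exact absurd hv.2 (by simp)
    calc ∑ v ∈ (phasea_K E J s V τ z).filter (fun v => (trajA J E s (τ + 1) v).res = none),
          2 ^ (trajA J E s (τ + 1) v).ex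
        = ∑ v ∈ (phasea_K E J s V τ z).filter (fun v => (trajA J E s (τ + 1) v).res = none),
          2 * 2 ^ (trajA J E s τ v).ex := by
          refine Finset.sum_congr rfl fun v hv => ?_
          rw [mem_filter] at hv
          have hvK := hv.1
          unfold phasea_K at hvK
          rw [mem_filter] at hvK
          obtain ⟨hvV, ha, hg, hz⟩ := hvK
          rcases hc : phasea_c E J s τ (phasea_K E J s V τ (phasea_Z E J s τ v)) v with _ | y
          · rw [(phasea_step_none hE hV hvV ha hg hc).2, pow_succ, mul_comm]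
          · rw [phasea_step_some hE hV hvV ha hg hc] at hv
            exact absurd hv.2 (by simp)
      _ ≤ _ := Finset.sum_le_sum_of_subset hle
  · -- other vertices
    rw [Finset.filter_filter]
    have h1 : ∑ v ∈ A.filter (fun v => (trajA J E s (τ + 1) v).res = none ∧
          ¬ phasea_G E J s τ v), 2 ^ (trajA J E s (τ + 1) v).ex
        = ∑ v ∈ A.filter (fun v => (trajA J E s (τ + 1) v).res = none ∧
          ¬ phasea_G E J s τ v), 2 ^ (trajA J E s τ v).ex := by
      refine Finset.sum_congr rfl fun v hv => ?_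
      rw [mem_filter] at hv
      rw [phasea_step_id (fun h => hv.2.2 h.2)]
    rw [h1]
    refine Finset.sum_le_sum_of_subset ?_
    intro v hv
    rw [mem_filter] at hv ⊢
    exact ⟨hv.1, hv.2.2⟩

theorem phasea_Phi_le (hE : SymE E) (hV : ∀ a ∈ V, nb E a ⊆ V) (τ : ℕ) :
    phasea_Phi E J s V τ ≤ V.card := by
  induction τ with
  | zero =>
    unfold phasea_Phi
    have : ∀ v ∈ V.filter (fun v => (trajA J E s 0 v).res = none),
        2 ^ (trajA J E s 0 v).ex = 1 := fun v _ => by
      simp [trajA, initA]
    rw [Finset.sum_congr rfl this, Finset.sum_const, smul_eq_mul, mul_one]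
    exact Finset.card_filter_le _ _
  | succ τ ih => exact (phasea_Phi_step hE hV τ).trans ih

theorem phaseA {E : Finset (ℕ × ℕ)} (hE : SymE E) {V : Finset ℕ} (hV : ∀ a ∈ V, nb E a ⊆ V)
    (J M : ℕ) (s : ℕ → St)
    (hgood : ∀ v ∈ V, V.card < 2 ^ ((Finset.range M).filter (fun τ =>
      good E (τ - J) (fun a => (s a).hist τ) v)).card) :
    (∀ v ∈ V, ∃ τ x, τ < M ∧ (trajA J E s M v).res = some (τ, x)) ∧
    (∀ v ∈ V, ∀ w ∈ V, ∀ τ x y, (v, w) ∈ E → (trajA J E s M v).res = some (τ, x) →
      (trajA J E s M w).res = some (τ, y) → x = y) ∧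
    (∀ v ∈ V, ∀ τ x, (trajA J E s M v).res = some (τ, x) →
      x ∈ V ∧ (trajA J E s M x).res = some (τ, x) ∧
      ∃ r, 2 ^ r ≤ V.card ∧
        v ∈ ballIn E (V.filter (fun z => (trajA J E s M z).res = some (τ, x))) x r) := by
  refine ⟨?_, ?_, ?_⟩
  · intro v hv
    by_cases ha : (trajA J E s M v).res = none
    · exfalso
      have h1 := phasea_ex hE hV hv M ha
      have h2 : 2 ^ (trajA J E s M v).ex ≤ phasea_Phi E J s V M := by
        unfold phasea_Phi
        exact Finset.single_le_sum (f := fun v => 2 ^ (trajA J E s M v).ex)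
          (fun _ _ => Nat.zero_le _) (mem_filter.mpr ⟨hv, ha⟩)
      have h3 := phasea_Phi_le (J := J) (s := s) hE hV M
      have h4 := hgood v hv
      rw [h1] at h2
      exact absurd (lt_of_lt_of_le h4 (h2.trans h3)) (lt_irrefl _)
    · obtain ⟨⟨τ, x⟩, hp⟩ := Option.ne_none_iff_exists'.mp ha
      exact ⟨τ, x, (phasea_spec hE hV hv M hp).1, hp⟩
  · intro v hv w hw τ x y hvw hx hy
    obtain ⟨-, -, g1, c1⟩ := phasea_spec hE hV hv M hx
    obtain ⟨-, -, g2, c2⟩ := phasea_spec hE hV hw M hy
    have hz : phasea_Z E J s τ v = phasea_Z E J s τ w := good_adj hE g1 g2 hvw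
    rw [← hz] at c2
    exact carve_sep hE c1 c2 hvw
  · intro v hv τ x hx
    obtain ⟨hτ, a1, g1, c1⟩ := phasea_spec hE hV hv M hx
    set z := phasea_Z E J s τ v with hz
    set C := phasea_K E J s V τ z with hC
    have hmemC : ∀ y, y ∈ C ↔ y ∈ V ∧ (trajA J E s τ y).res = none ∧ phasea_G E J s τ y ∧
        phasea_Z E J s τ y = z := by
      intro y
      rw [hC]
      unfold phasea_K
      rw [mem_filter]
    have hres : ∀ y, y ∈ C → phasea_c E J s τ C y = some x →
        (trajA J E s M y).res = some (τ, x) := by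
      intro y hy hcy
      obtain ⟨h1, h2, h3, h4⟩ := (hmemC y).1 hy
      refine phasea_keep (phasea_step_some hE hV h1 h2 h3 ?_) M hτ
      rw [h4]
      exact hcy
    obtain ⟨m1, m2⟩ := carve_mem c1
    have hself : phasea_c E J s τ C x = some x := carve_self c1
    refine ⟨((hmemC x).1 m2).1, hres x m2 hself, ?_⟩
    obtain ⟨r, hr1, hr2⟩ := carve_ball (fun a => Nat.one_le_two_pow) c1
    refine ⟨r, ?_, ?_⟩
    · refine hr1.trans (le_trans ?_ (phasea_Phi_le (J := J) (s := s) hE hV τ))
      unfold wt phasea_Phi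
      refine Finset.sum_le_sum_of_subset ?_
      intro y hy
      obtain ⟨h1, h2, -, -⟩ := (hmemC y).1 hy
      exact mem_filter.mpr ⟨h1, h2⟩
    · have hset : C.filter (fun z' => carve E (fun a => 2 ^ (trajA J E s τ a).ex) C.card C z'
          = some x) = V.filter (fun z' => (trajA J E s M z').res = some (τ, x)) := by
        ext y
        rw [mem_filter, mem_filter]
        constructor
        · rintro ⟨h1, h2⟩
          exact ⟨((hmemC y).1 h1).1, hres y h1 h2⟩
        · rintro ⟨h1, h2⟩
          obtain ⟨-, a2, g2, c2⟩ := phasea_spec hE hV h1 M h2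
          have m3 := (carve_mem c2).2
          have hzy : phasea_Z E J s τ x = phasea_Z E J s τ y := by
            unfold phasea_K at m3
            rw [mem_filter] at m3
            exact m3.2.2.2
          have hzx : phasea_Z E J s τ x = z := ((hmemC x).1 m2).2.2.2
          have hzy' : phasea_Z E J s τ y = z := hzy.symm.trans hzx
          rw [hzy'] at c2
          exact ⟨(hmemC y).2 ⟨h1, a2, g2, hzy'⟩, c2⟩
      rw [← hset]
      exact hr2

end Pool.Agent.Helper48.ND
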