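import Pool.Agent.Helper48.ND.Bas

/-!
# From finite sets of pairs to graphs
-/

namespace Pool.Agent.Helper48.ND

open Finset Classical

variable {V : Type} [Fintype V] {G : SimpleGraph V} {id : V → ℕ}

theorem mem_edgesOf (hid : Function.Injective id) {v w : V} :
    (id v, id w) ∈ edgesOf G id ↔ G.Adj v w := by
  unfold edgesOf
  simp only [mem_image, mem_filter, mem_univ, true_and, Prod.exists, Prod.mk.injEq]
  constructor
  · rintro ⟨a, b, hab, ha, hb⟩
    rw [← hid ha, ← hid hb]; exact hab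
  · intro h; exact ⟨v, w, h, rfl, rfl⟩

theorem edgesOf_fst {a b : ℕ} (h : (a, b) ∈ edgesOf G id) : ∃ v w, id v = a ∧ id w = b ∧
    G.Adj v w := by
  unfold edgesOf at h
  simp only [mem_image, mem_filter, mem_univ, true_and, Prod.exists, Prod.mk.injEq] at h
  obtain ⟨v, w, h1, h2, h3⟩ := h
  exact ⟨v, w, h2, h3, h1⟩

theorem symE_edgesOf : SymE (edgesOf G id) := by
  intro a b h
  obtain ⟨v, w, rfl, rfl, h3⟩ := edgesOf_fst h
  unfold edgesOf
  simp only [mem_image, mem_filter, mem_univ, true_and, Prod.exists, Prod.mk.injEq]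
  exact ⟨w, v, h3.symm, rfl, rfl⟩

theorem nb_edgesOf : ∀ a ∈ (Finset.univ.image id : Finset ℕ), nb (edgesOf G id) a ⊆
    Finset.univ.image id := by
  intro a _ b hb
  rw [mem_nb] at hb
  obtain ⟨v, w, _, rfl, _⟩ := edgesOf_fst hb
  exact mem_image_of_mem _ (mem_univ _)

theorem walk_of_ballIn (hid : Function.Injective id) {S : Finset ℕ} {cl : Set V}
    (hcl : ∀ u, u ∈ cl ↔ id u ∈ S) {u0 : V} (h0 : u0 ∈ cl) (r : ℕ) :
    ∀ u, id u ∈ ballIn (edgesOf G id) S (id u0) r →
      ∃ (hu : u ∈ cl) (p : (G.induce cl).Walk ⟨u0, h0⟩ ⟨u, hu⟩), p.length ≤ r := by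
  induction r with
  | zero =>
    intro u hu
    have : id u = id u0 := by simpa [ballIn] using hu
    have := hid this
    subst this
    exact ⟨h0, SimpleGraph.Walk.nil, by simp⟩
  | succ r ih =>
    intro u hu
    unfold ballIn at hu
    rw [mem_union, mem_inter, mem_biUnion] at hu
    rcases hu with hu | ⟨⟨y, hy, hyu⟩, huS⟩
    · obtain ⟨h1, p, hp⟩ := ih u hu
      exact ⟨h1, p, by omega⟩
    · rw [mem_nb] at hyu
      obtain ⟨w, u', rfl, hu', hadj⟩ := edgesOf_fst hyu
      have := hid hu'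
      subst this
      obtain ⟨h1, p, hp⟩ := ih w hy
      have hu : u' ∈ cl := (hcl u').2 huS
      have hadj' : (G.induce cl).Adj ⟨w, h1⟩ ⟨u', hu⟩ := hadj
      refine ⟨hu, p.concat hadj', ?_⟩
      rw [SimpleGraph.Walk.length_concat]
      omega

end Pool.Agent.Helper48.ND
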