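import Pool.Agent.Helper48.ND.GoodCount
import Pool.Agent.Helper48.ND.PhaseA
import Pool.Agent.Helper48.ND.LocAll
import Pool.Agent.Helper48.ND.FullInfo
import Pool.Agent.Helper48.ND.Walk

/-!
# Main theorem
-/

namespace Pool.Agent.Helper48.ND

open Finset Classical

/-- the output of the algorithm -/
noncomputable def outF (pr : ℕ → ℕ) (b c : ℕ) (n : ℕ) (E : Finset (ℕ × ℕ)) (u : ℕ) : ℕ × ℕ :=
  ((final pr (c * (Nat.log 2 n + 1)) (b * (Nat.log 2 n + 1)) (b * (Nat.log 2 n + 1)) E u).1,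
    Nat.pair (final pr (c * (Nat.log 2 n + 1)) (b * (Nat.log 2 n + 1)) (b * (Nat.log 2 n + 1)) E u).1
      (final pr (c * (Nat.log 2 n + 1)) (b * (Nat.log 2 n + 1)) (b * (Nat.log 2 n + 1)) E u).2)

theorem isLocal_outF (pr : ℕ → ℕ) (b c n : ℕ) :
    IsLocal (fun E (_ : ℕ → Unit) u => outF pr b c n E u)
      (totD (pr 0 * pr 0) (c * (Nat.log 2 n + 1)) (b * (Nat.log 2 n + 1))) := by
  have h := isLocal_final pr (c * (Nat.log 2 n + 1)) (b * (Nat.log 2 n + 1))
  intro E E' s s' u hA hs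
  have h2 := h E E' s s' u hA hs
  show outF pr b c n E u = outF pr b c n E' u
  unfold outF
  rw [show final pr (c * (Nat.log 2 n + 1)) (b * (Nat.log 2 n + 1)) (b * (Nat.log 2 n + 1)) E u =
    final pr (c * (Nat.log 2 n + 1)) (b * (Nat.log 2 n + 1)) (b * (Nat.log 2 n + 1)) E' u from h2]

/-- the constant in the number of rounds -/
def bigK (b q c : ℕ) : ℕ := (c + b) * ((3 + 2 * q) * b) + (c + b) * (3 * b + 1) + 1

theorem totD_le (b q c L : ℕ) (hL : 1 ≤ L) :
    totD q (c * L) (b * L) + 1 ≤ bigK b q c * L ^ 2 := by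
  unfold totD bigK
  have h1 : L ≤ L ^ 2 := by nlinarith
  have h2 : 1 ≤ L ^ 2 := Nat.one_le_pow _ _ hL
  have h3 : (c * L + b * L) * (b * L + 2 * (b * L) +
      q * (2 * (b * L))) = (c + b) * ((3 + 2 * q) * b) * L ^ 2 := by
    ring
  have h4 : (c * L + b * L) * (3 * (b * L) + 1) ≤ (c + b) * (3 * b + 1) * L ^ 2 := by
    calc (c * L + b * L) * (3 * (b * L) + 1)
        = (c + b) * (3 * b * L ^ 2 + L) := by ring
      _ ≤ (c + b) * (3 * b * L ^ 2 + L ^ 2) :=
          Nat.mul_le_mul_left _ (Nat.add_le_add_left h1 _)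
      _ = _ := by ring
  rw [h3]
  calc (c + b) * ((3 + 2 * q) * b) * L ^ 2 + (c * L + b * L) * (3 * (b * L) + 1) + 1
      ≤ (c + b) * ((3 + 2 * q) * b) * L ^ 2 + (c + b) * (3 * b + 1) * L ^ 2 + L ^ 2 :=
        Nat.add_le_add (Nat.add_le_add_left h4 _) h2
    _ = _ := by ring

theorem col_le (b q c : ℕ) (hb : 1 ≤ b) : c + b ≤ bigK b q c := by
  unfold bigK
  have h : (c + b) * 1 ≤ (c + b) * (3 * b + 1) := Nat.mul_le_mul_left _ (by omega)
  omega

section

variable {pr : ℕ → ℕ} (hpr : ∀ i, (pr i).Prime) (hlo : ∀ i, 512 * 4 ^ i ≤ pr i)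
    (hhi : ∀ i, pr i ≤ 1024 * 4 ^ i)

include hpr hlo hhi in
theorem isDecomp_outF (b c : ℕ) (hb0 : b = 100000000000) {V : Type} [Fintype V] (G : SimpleGraph V) (id : V → ℕ)
    (hid : Function.Injective id)
    (hb : ∀ v, id v < 2 ^ (c * (Nat.log 2 (Fintype.card V) + 1))) :
    IsDecomp G ((c + b) * (Nat.log 2 (Fintype.card V) + 1))
      (2 * Nat.log 2 (Fintype.card V))
      (fun v => (outF pr b c (Fintype.card V) (edgesOf G id) (id v)).1)
      (fun v => (outF pr b c (Fintype.card V) (edgesOf G id) (id v)).2) := by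
  set L := Nat.log 2 (Fintype.card V) + 1 with hL
  set J := c * L with hJ
  set R := b * L with hR
  set E := edgesOf G id with hE
  set Vs : Finset ℕ := Finset.univ.image id with hVs
  have hcard : Vs.card = Fintype.card V := by
    rw [hVs, card_image_of_injective _ hid, card_univ]
  have hmem : ∀ v, id v ∈ Vs := fun v => mem_image_of_mem _ (mem_univ _)
  have hid3 : ∀ a ∈ Vs, a < pr J ^ 3 := by
    intro a ha
    obtain ⟨v, _, rfl⟩ := mem_image.1 ha
    calc id v < 2 ^ J := hb v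
      _ ≤ 4 ^ J := Nat.pow_le_pow_left (by norm_num) J
      _ ≤ 512 * 4 ^ J := by omega
      _ ≤ pr J := hlo J
      _ = pr J ^ 1 := (pow_one _).symm
      _ ≤ pr J ^ 3 := Nat.pow_le_pow_right (hpr J).pos (by norm_num)
  have hR' : R = 100000000000 * (Nat.log 2 Vs.card + 1) := by
    rw [hcard, hR, hb0]
  have hgood := fun (v : ℕ) (hv : v ∈ Vs) => good_count hpr hlo hhi (symE_edgesOf (G := G)
    (id := id)) nb_edgesOf hid3 hR' hv
  obtain ⟨hA1, hA2, hA3⟩ := phaseA (symE_edgesOf (G := G) (id := id)) nb_edgesOf J (J + R)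
    (traj pr J R E (J + R)) hgood
  choose! tau cen h1 h2 using hA1
  have hout : ∀ v, outF pr b c (Fintype.card V) E (id v) =
      (tau (id v), Nat.pair (tau (id v)) (cen (id v))) := by
    intro v
    have hf : final pr J R R E (id v) = (tau (id v), cen (id v)) := by
      unfold final
      rw [h2 _ (hmem v)]
      rfl
    show ((final pr J R R E (id v)).1, Nat.pair (final pr J R R E (id v)).1
      (final pr J R R E (id v)).2) = _
    rw [hf]
  have hcol : ∀ v, (outF pr b c (Fintype.card V) E (id v)).1 = tau (id v) := fun v => by rw [hout]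
  have hclu : ∀ v, (outF pr b c (Fintype.card V) E (id v)).2 =
      Nat.pair (tau (id v)) (cen (id v)) := fun v => by rw [hout]
  have hpair : ∀ v w, (outF pr b c (Fintype.card V) E (id v)).2 =
      (outF pr b c (Fintype.card V) E (id w)).2 → tau (id v) = tau (id w) ∧
      cen (id v) = cen (id w) := by
    intro v w h
    rw [hclu, hclu] at h
    exact Nat.pair_eq_pair.1 h
  refine ⟨?_, ?_, ?_, ?_⟩
  · intro v
    show (outF pr b c (Fintype.card V) E (id v)).1 < _
    rw [hcol]
    have := h1 _ (hmem v)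
    refine lt_of_lt_of_le this (le_of_eq ?_)
    rw [hJ, hR]; ring
  · intro v w h
    show (outF pr b c (Fintype.card V) E (id v)).1 = (outF pr b c (Fintype.card V) E (id w)).1
    rw [hcol, hcol]
    exact (hpair v w h).1
  · intro v w hvw hne hc
    apply hne
    have hc' : tau (id v) = tau (id w) := by
      have : (outF pr b c (Fintype.card V) E (id v)).1 = (outF pr b c (Fintype.card V) E (id w)).1 := hc
      rwa [hcol, hcol] at this
    show (outF pr b c (Fintype.card V) E (id v)).2 = (outF pr b c (Fintype.card V) E (id w)).2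
    rw [hclu, hclu]
    have hx : cen (id v) = cen (id w) := by
      refine hA2 (id v) (hmem v) (id w) (hmem w) (tau (id v)) _ _ ((mem_edgesOf hid).2 hvw)
        (h2 _ (hmem v)) ?_
      rw [hc']; exact h2 _ (hmem w)
    rw [hc', hx]
  · intro v w hvw
    obtain ⟨hx1, hx2, -⟩ := hA3 (id v) (hmem v) _ _ (h2 _ (hmem v))
    obtain ⟨u0, -, hu0⟩ := mem_image.1 hx1
    have hcl : ∀ u, u ∈ {u | (outF pr b c (Fintype.card V) E (id u)).2 =
        (outF pr b c (Fintype.card V) E (id v)).2} ↔ id u ∈ Vs.filter (fun z =>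
        (trajA J E (traj pr J R E (J + R)) (J + R) z).res = some (tau (id v), cen (id v))) := by
      intro u
      rw [mem_filter]
      constructor
      · intro h
        obtain ⟨e1, e2⟩ := hpair u v h
        refine ⟨hmem u, ?_⟩
        rw [← e1, ← e2]; exact h2 _ (hmem u)
      · rintro ⟨-, h⟩
        rw [h2 _ (hmem u)] at h
        simp only [Option.some.injEq, Prod.mk.injEq] at h
        show (outF pr b c (Fintype.card V) E (id u)).2 = (outF pr b c (Fintype.card V) E (id v)).2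
        rw [hclu, hclu, h.1, h.2]
    have hu0cl : u0 ∈ {u | (outF pr b c (Fintype.card V) E (id u)).2 =
        (outF pr b c (Fintype.card V) E (id v)).2} := by
      rw [hcl, mem_filter]
      exact ⟨hmem u0, by rw [hu0]; exact hx2⟩
    have hwalk : ∀ u, (hu : u ∈ {u | (outF pr b c (Fintype.card V) E (id u)).2 =
        (outF pr b c (Fintype.card V) E (id v)).2}) →
        ∃ p : (G.induce {u | (outF pr b c (Fintype.card V) E (id u)).2 =
        (outF pr b c (Fintype.card V) E (id v)).2}).Walk ⟨u0, hu0cl⟩ ⟨u, hu⟩,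
        p.length ≤ Nat.log 2 (Fintype.card V) := by
      intro u hu
      obtain ⟨e1, e2⟩ := hpair u v hu
      have h3 := h2 _ (hmem u)
      rw [e1, e2] at h3
      obtain ⟨-, -, r, hr, hr2⟩ := hA3 (id u) (hmem u) _ _ h3
      rw [← hu0] at hr2
      rw [hcard] at hr
      obtain ⟨h4, p, hp⟩ := walk_of_ballIn (G := G) hid hcl hu0cl r u (by rw [← hu0]; exact hr2)
      refine ⟨p, hp.trans ?_⟩
      exact Nat.le_log_of_pow_le (by norm_num) hr
    obtain ⟨p, hp⟩ := hwalk v rfl
    obtain ⟨p', hp'⟩ := hwalk w hvw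
    refine ⟨p.reverse.append p', ?_⟩
    rw [SimpleGraph.Walk.length_append, SimpleGraph.Walk.length_reverse]
    omega

end

/-- **Main theorem.** -/
theorem main (c : ℕ) : ∃ (A : Alg (ℕ × ℕ)) (K : ℕ), ∀ (V : Type) [Fintype V] (G : SimpleGraph V)
    (id : V → ℕ), Function.Injective id →
    (∀ v, id v < 2 ^ (c * (Nat.log 2 (Fintype.card V) + 1))) →
    ∃ col clu : V → ℕ,
      IsDecomp G (K * (Nat.log 2 (Fintype.card V) + 1)) (2 * Nat.log 2 (Fintype.card V)) col clu ∧
      ∀ T, K * (Nat.log 2 (Fintype.card V) + 1) ^ 2 ≤ T →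
        ∀ v, A.out (A.run G id T v) = (col v, clu v) := by
  obtain ⟨pr, hpr, hlo, hhi⟩ := exists_pr
  obtain ⟨b, hb0⟩ : ∃ b : ℕ, b = 100000000000 := ⟨_, rfl⟩
  obtain ⟨A, hA⟩ := fullinfo (outF pr b c)
  refine ⟨A, bigK b (pr 0 * pr 0) c, ?_⟩
  intro V _ G id hid hb
  refine ⟨fun v => (outF pr b c (Fintype.card V) (edgesOf G id) (id v)).1,
    fun v => (outF pr b c (Fintype.card V) (edgesOf G id) (id v)).2, ?_, fun T hT v => ?_⟩
  · have h := isDecomp_outF hpr hlo hhi b c hb0 G id hid hb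
    refine ⟨fun v => lt_of_lt_of_le (h.colors v) (Nat.mul_le_mul_right _ ?_), h.mono, h.sep, h.diam⟩
    exact col_le b _ c (by omega)
  · exact hA V G id hid _ T ((totD_le b (pr 0 * pr 0) c _ (Nat.le_add_left _ _)).trans hT)
      (isLocal_outF pr b c _) v

end Pool.Agent.Helper48.ND
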