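import Mathlib

/-!
# The LOCAL model and network decompositions
-/

namespace Pool.Agent.Helper48.ND

/-- A deterministic algorithm in the LOCAL model. `init n i` is the initial state of a vertex with
identifier `i` in a graph with `n` vertices; in every round each vertex sends its whole state to all
its neighbours and computes its new state from its old state and the finite set of the states
received; `out` reads off the output. -/
structure Alg (Out : Type) where
  State : Type
  init : ℕ → ℕ → State
  step : State → Finset State → State
  out : State → Out

open Classical in
/-- state of the vertices after `t` rounds of the algorithm `A` on the graph `G` with the identifiers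
`id` -/
noncomputable def Alg.run {Out : Type} (A : Alg Out) {V : Type} [Fintype V] (G : SimpleGraph V)
    (id : V → ℕ) : ℕ → V → A.State
  | 0, v => A.init (Fintype.card V) (id v)
  | t + 1, v => A.step (A.run G id t v) ((Finset.univ.filter (fun w => G.Adj v w)).image
      (A.run G id t))

/-- `col v` (the colour of `v`) and `clu v` (the name of the cluster of `v`) form a network
decomposition of `G` with `C` colours and strong diameter at most `D` -/
structure IsDecomp {V : Type} (G : SimpleGraph V) (C D : ℕ) (col clu : V → ℕ) : Prop where
  /-- there are at most `C` colours -/
  colors : ∀ v, col v < C
  /-- every cluster has one colour -/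
  mono : ∀ v w, clu v = clu w → col v = col w
  /-- no edge joins two distinct clusters of the same colour -/
  sep : ∀ v w, G.Adj v w → clu v ≠ clu w → col v ≠ col w
  /-- any two vertices of a cluster are joined by a walk of length at most `D` in the subgraph
  induced by the cluster -/
  diam : ∀ v w, (h : clu w = clu v) →
    ∃ p : (G.induce {u | clu u = clu v}).Walk ⟨v, rfl⟩ ⟨w, h⟩, p.length ≤ D

end Pool.Agent.Helper48.ND
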