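import Pool.Agent.Helper48.ND.Bas

/-!
# ND-12: QQone

QQ_ge_one: AA ≥ ∑ a ∈ ball E v ρ, exp (th x a) = ∑ (exp (x a))^th ≥ (∑ exp (x a))^th = MM^th because
t ↦ t^th is subadditive for 0 ≤ th ≤ 1 (Real.rpow_add_le_add_rpow or NNReal versions, induction).
QQ_anti: MM is monotone in the radius and the exponent -th is negative. QQ_zero: MM E 0 x v = exp 0 = 1,
AA = card. not_isNC_zero: ball E v 0 = {v}, sh = 1.
-/

namespace Pool.Agent.Helper48.ND

open Finset Classical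

theorem rpow_sum_le {p : ℝ} (hp0 : 0 < p) (hp : p ≤ 1) (s : Finset ℕ) (f : ℕ → ℝ)
    (hf : ∀ a ∈ s, 0 ≤ f a) : (∑ a ∈ s, f a) ^ p ≤ ∑ a ∈ s, (f a) ^ p := by
  induction s using Finset.induction_on with
  | empty => simp [Real.zero_rpow hp0.ne']
  | insert b t hb ih =>
    rw [sum_insert hb, sum_insert hb]
    have h1 : 0 ≤ f b := hf b (mem_insert_self _ _)
    have h2 : ∀ a ∈ t, 0 ≤ f a := fun a ha => hf a (mem_insert_of_mem ha)
    have h3 : 0 ≤ ∑ a ∈ t, f a := sum_nonneg h2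
    exact (Real.rpow_add_le_add_rpow h1 h3 hp0.le hp).trans (add_le_add (le_refl _) (ih h2))

theorem MM_mono {E : Finset (ℕ × ℕ)} {ρ ρ' v : ℕ} (hρ : ρ ≤ ρ') (x : ℕ → ℝ) :
    MM E ρ x v ≤ MM E ρ' x v :=
  sum_le_sum_of_subset_of_nonneg (ball_mono hρ) (fun _ _ _ => (Real.exp_pos _).le)

theorem QQ_ge_one {E : Finset (ℕ × ℕ)} {R ρ v : ℕ} (hρ : ρ ≤ R) (x : ℕ → ℝ) :
    1 ≤ QQ E R ρ x v := by
  have hM : 0 < MM E ρ x v := MM_pos
  have hMp : 0 < (MM E ρ x v) ^ th := Real.rpow_pos_of_pos hM _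
  have h1 : (MM E ρ x v) ^ th ≤ AA E R x v := by
    have h2 : (MM E ρ x v) ^ th ≤ ∑ a ∈ ball E v ρ, (Real.exp (x a)) ^ th :=
      rpow_sum_le th_pos th_lt_one.le _ _ (fun a _ => (Real.exp_pos _).le)
    have h3 : ∑ a ∈ ball E v ρ, (Real.exp (x a)) ^ th
        = ∑ a ∈ ball E v ρ, Real.exp (th * x a) := by
      refine sum_congr rfl (fun a _ => ?_)
      rw [← Real.exp_mul, mul_comm]
    rw [h3] at h2
    exact h2.trans (sum_le_sum_of_subset_of_nonneg (ball_mono hρ)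
      (fun _ _ _ => (Real.exp_pos _).le))
  unfold QQ
  rw [Real.rpow_neg hM.le, ← div_eq_mul_inv]
  rw [le_div_iff₀ hMp, one_mul]
  exact h1

theorem QQ_anti {E : Finset (ℕ × ℕ)} {R ρ ρ' v : ℕ} (hρ : ρ ≤ ρ') (x : ℕ → ℝ) :
    QQ E R ρ' x v ≤ QQ E R ρ x v := by
  have hM : 0 < MM E ρ x v := MM_pos
  have h1 : (MM E ρ' x v) ^ (-th) ≤ (MM E ρ x v) ^ (-th) :=
    Real.rpow_le_rpow_of_nonpos hM (MM_mono hρ x) (by linarith [th_pos])
  exact mul_le_mul_of_nonneg_left h1 AA_pos.le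

theorem QQ_zero {E : Finset (ℕ × ℕ)} {R v : ℕ} {x : ℕ → ℝ} (hx : ∀ a ∈ ball E v R, x a = 0) :
    QQ E R 0 x v = ((ball E v R).card : ℝ) := by
  have h1 : AA E R x v = ((ball E v R).card : ℝ) := by
    unfold AA
    rw [sum_congr rfl (fun a ha => by rw [hx a ha, mul_zero, Real.exp_zero])]
    simp
  have h2 : MM E 0 x v = 1 := by
    unfold MM
    rw [ball_zero, sum_singleton, hx v self_mem_ball, Real.exp_zero]
  unfold QQ
  rw [h1, h2, Real.one_rpow, mul_one]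

theorem not_isNC_zero {E : Finset (ℕ × ℕ)} {x : ℕ → ℝ} {v : ℕ} : ¬ IsNC E 0 x v := by
  unfold IsNC
  have h : sh E 0 x v v = 1 := by
    unfold sh
    rw [if_pos self_mem_ball]
    unfold MM
    rw [ball_zero, sum_singleton]
    exact div_self (Real.exp_pos _).ne'
  rw [ball_zero, sum_singleton, h]
  norm_num

end Pool.Agent.Helper48.ND
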