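import Pool.Agent.Helper48.ND.PipeTraj
import Pool.Agent.Helper48.ND.Drift
import Pool.Agent.Helper48.ND.QQone

/-!
# The potential
-/

namespace Pool.Agent.Helper48.ND

open Finset Classical

/-- the potential at the beginning of block `τ` -/
noncomputable def Phi (pr : ℕ → ℕ) (J R : ℕ) (E : Finset (ℕ × ℕ)) (V : Finset ℕ) (τ : ℕ) : ℝ :=
  ∑ v ∈ V, Real.exp (c1 * tN pr J R E τ v) * QQ E R (τ - J) (tx pr J R E τ) v

section

variable {pr : ℕ → ℕ} (hpr : ∀ i, (pr i).Prime) (hlo : ∀ i, 512 * 4 ^ i ≤ pr i)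
    (hhi : ∀ i, pr i ≤ 1024 * 4 ^ i) {E : Finset (ℕ × ℕ)} (hE : SymE E) {V : Finset ℕ}
    (hV : ∀ a ∈ V, nb E a ⊆ V) {J R : ℕ} (hid : ∀ a ∈ V, a < pr J ^ 3)

include hpr hlo hhi hE hV hid in
theorem phi_step {τ : ℕ} (hτ : J ≤ τ) (hτR : τ - J ≤ R) :
    Phi pr J R E V (τ + 1) ≤ Real.exp (10 * th ^ 2 * et ^ 2) * Phi pr J R E V τ := by
  have h := drift hE hV hτR (bx pr J R E τ) (tN pr J R E τ) (tN pr J R E (τ + 1))
    (tl pr J R E (τ + 1) 0) (pr 0 * pr 0) (fun v _ => tN_succ v)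
    (fun a _ => by rw [tl_succ (Nat.zero_le J)]; exact newlab_lt (hpr 0).pos _ _)
    (fun j _ a _ => bx_succ hτ j a)
    (pipe_traj hpr hlo hhi hV hid hτ hτR)
  refine le_trans ?_ h
  unfold Phi
  rw [bx_end]
  refine sum_le_sum (fun v _ => mul_le_mul_of_nonneg_left (QQ_anti (by omega) _)
    (Real.exp_pos _).le)

theorem tN_init (a : ℕ) {τ : ℕ} (hτ : τ ≤ J) : tN pr J R E τ a = 0 := by
  induction τ with
  | zero => rfl
  | succ τ ih =>
    rw [tN_succ, ih (by omega)]
    have : τ - J = 0 := by omega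
    rw [this, if_neg not_isNC_zero]

include hV in
theorem phi_init : Phi pr J R E V J ≤ (V.card : ℝ) ^ 2 := by
  unfold Phi
  have h : ∀ v ∈ V, Real.exp (c1 * tN pr J R E J v) * QQ E R (J - J) (tx pr J R E J) v ≤
      (V.card : ℝ) := by
    intro v hv
    rw [tN_init v le_rfl, Nat.sub_self, QQ_zero (fun a _ => by rw [tx_eq, ht_zero le_rfl]; simp)]
    simp only [Nat.cast_zero, mul_zero, Real.exp_zero, one_mul]
    exact_mod_cast card_le_card (ball_closed hV hv)
  refine (sum_le_sum h).trans ?_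
  rw [sum_const, nsmul_eq_mul, sq]

include hpr hlo hhi hE hV hid in
theorem phi_le {m : ℕ} (hm : m ≤ R) :
    Phi pr J R E V (J + m) ≤ Real.exp (10 * th ^ 2 * et ^ 2 * m) * (V.card : ℝ) ^ 2 := by
  induction m with
  | zero => simpa using phi_init (pr := pr) (R := R) (J := J) hV
  | succ m ih =>
    have h1 := ih (by omega)
    have h2 := phi_step (R := R) hpr hlo hhi hE hV hid (τ := J + m) (by omega) (by omega)
    refine h2.trans ((mul_le_mul_of_nonneg_left h1 (Real.exp_pos _).le).trans (le_of_eq ?_))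
    rw [← mul_assoc, ← Real.exp_add]
    congr 2
    push_cast; ring

include hpr hlo hhi hE hV hid in
/-- every vertex has few non-concentrated times -/
theorem tN_bound {m : ℕ} (hm : m ≤ R) {v : ℕ} (hv : v ∈ V) :
    c1 * tN pr J R E (J + m) v ≤ 10 * th ^ 2 * et ^ 2 * m + 2 * Real.log V.card := by
  have hVpos : (0 : ℝ) < V.card := by exact_mod_cast card_pos.2 ⟨v, hv⟩
  have h1 := phi_le (R := R) hpr hlo hhi hE hV hid hm
  have h2 : Real.exp (c1 * tN pr J R E (J + m) v) ≤ Phi pr J R E V (J + m) := by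
    unfold Phi
    refine le_trans ?_ (single_le_sum (f := fun v => Real.exp (c1 * tN pr J R E (J + m) v) *
      QQ E R (J + m - J) (tx pr J R E (J + m)) v)
      (fun _ _ => mul_nonneg (Real.exp_pos _).le QQ_pos.le) hv)
    have h3 := QQ_ge_one (E := E) (R := R) (ρ := J + m - J) (v := v) (by omega)
      (tx pr J R E (J + m))
    exact le_mul_of_one_le_right (Real.exp_pos _).le h3
  have h4 := Real.log_le_log (Real.exp_pos _) (h2.trans h1)
  rw [Real.log_exp, Real.log_mul (Real.exp_pos _).ne' (by positivity), Real.log_exp,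
    Real.log_pow] at h4
  exact_mod_cast h4

end

end Pool.Agent.Helper48.ND
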