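import Pool.Agent.Helper48.ND.Hash

/-!
# ND-7: PickLab

newlab = pick * p + ev with pick < p and ev < p. If the new labels of w and u are equal then the picks
are equal (divide by p), say y, and ev p (lab w) y = ev p (lab u) y. So the left side is at most
conf (W u) (K u) p lab u y with y = pick (W u) .. u (the terms with w ∉ W u vanish by hK), the minimum
over y in range p, hence at most 1/p times the sum over y in range p, which is at most
1/p * ∑ w ∈ W u, 2 * K u w by ev_card.
-/

namespace Pool.Agent.Helper48.ND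

open Finset Classical

theorem picklab_lt {W : Finset ℕ} {K : ℕ → ℝ} {p : ℕ} (hp : 0 < p) (lab : ℕ → ℕ) (u : ℕ) :
    pick W K p lab u < p := by
  unfold pick
  have h : (Finset.range p).Nonempty := ⟨0, Finset.mem_range.2 hp⟩
  rw [dif_pos h]
  exact Finset.mem_range.1
    (Finset.exists_min_image (Finset.range p) (conf W K p lab u) h).choose_spec.1

theorem picklab_min {W : Finset ℕ} {K : ℕ → ℝ} {p : ℕ} (lab : ℕ → ℕ) (u : ℕ)
    {y : ℕ} (hy : y ∈ Finset.range p) :
    conf W K p lab u (pick W K p lab u) ≤ conf W K p lab u y := by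
  unfold pick
  have h : (Finset.range p).Nonempty := ⟨y, hy⟩
  rw [dif_pos h]
  exact (Finset.exists_min_image (Finset.range p) (conf W K p lab u) h).choose_spec.2 y hy

theorem newlab_lt {W : Finset ℕ} {K : ℕ → ℝ} {p : ℕ} (hp : 0 < p) (lab : ℕ → ℕ) (u : ℕ) :
    newlab W K p lab u < p * p := by
  unfold newlab
  have h1 := picklab_lt (W := W) (K := K) hp lab u
  have h2 := ev_lt hp (lab u) (pick W K p lab u)
  calc pick W K p lab u * p + ev p (lab u) (pick W K p lab u)
      < pick W K p lab u * p + p := by omega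
    _ = (pick W K p lab u + 1) * p := by ring
    _ ≤ p * p := Nat.mul_le_mul_right _ h1

theorem picklab_sum {p : ℕ} (hp : p.Prime) {V : Finset ℕ} {W : Finset ℕ} {K : ℕ → ℝ}
    (lab : ℕ → ℕ) (hlab : ∀ w ∈ V, lab w < p ^ 3) {u : ℕ} (hu : u ∈ V) (hW : W ⊆ V)
    (hK0 : ∀ w, 0 ≤ K w) :
    ∑ y ∈ Finset.range p, conf W K p lab u y ≤ 2 * ∑ w ∈ V, K w := by
  unfold conf
  simp only [Finset.sum_filter]
  rw [Finset.sum_comm, Finset.mul_sum]
  have hle : ∑ w ∈ W, ∑ y ∈ Finset.range p,
      (if lab w ≠ lab u ∧ ev p (lab w) y = ev p (lab u) y then K w else 0) ≤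
      ∑ w ∈ W, 2 * K w := by
    refine Finset.sum_le_sum (fun w hw => ?_)
    by_cases hne : lab w = lab u
    · have : ∑ y ∈ Finset.range p,
          (if lab w ≠ lab u ∧ ev p (lab w) y = ev p (lab u) y then K w else 0) = 0 := by
        refine Finset.sum_eq_zero (fun y _ => ?_)
        rw [if_neg]
        rintro ⟨h, _⟩
        exact h hne
      rw [this]
      exact mul_nonneg (by norm_num) (hK0 w)
    · have hc := ev_card hp (hlab w (hW hw)) (hlab u hu) hne
      have : ∑ y ∈ Finset.range p,
          (if lab w ≠ lab u ∧ ev p (lab w) y = ev p (lab u) y then K w else 0) =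
          (((Finset.range p).filter (fun y => ev p (lab w) y = ev p (lab u) y)).card : ℝ) * K w := by
        rw [← nsmul_eq_mul, ← Finset.sum_const, Finset.sum_filter]
        refine Finset.sum_congr rfl (fun y _ => ?_)
        simp [hne]
      rw [this]
      refine mul_le_mul_of_nonneg_right ?_ (hK0 w)
      exact_mod_cast hc
  exact hle.trans (Finset.sum_le_sum_of_subset_of_nonneg hW
    (fun w _ _ => mul_nonneg (by norm_num) (hK0 w)))

theorem newlab_conf {p : ℕ} (hp : p.Prime) {V : Finset ℕ} (W : ℕ → Finset ℕ) (K : ℕ → ℕ → ℝ)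
    (lab : ℕ → ℕ) (hlab : ∀ w ∈ V, lab w < p ^ 3) {u : ℕ} (hu : u ∈ V) (hW : W u ⊆ V)
    (hK0 : ∀ w, 0 ≤ K u w) (hK : ∀ w ∈ V, w ∉ W u → K u w = 0) :
    ∑ w ∈ V.filter (fun w => lab w ≠ lab u ∧
        newlab (W w) (K w) p lab w = newlab (W u) (K u) p lab u), K u w ≤
      2 / (p : ℝ) * ∑ w ∈ V, K u w := by
  have hp0 : 0 < p := hp.pos
  have hpR : (0 : ℝ) < (p : ℝ) := by exact_mod_cast hp0
  set y0 := pick (W u) (K u) p lab u with hy0
  have step1 : ∑ w ∈ V.filter (fun w => lab w ≠ lab u ∧
        newlab (W w) (K w) p lab w = newlab (W u) (K u) p lab u), K u w ≤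
      conf (W u) (K u) p lab u y0 := by
    unfold conf
    rw [← Finset.sum_filter_add_sum_filter_not (V.filter (fun w => lab w ≠ lab u ∧
        newlab (W w) (K w) p lab w = newlab (W u) (K u) p lab u)) (fun w => w ∈ W u)]
    have hz : ∑ w ∈ (V.filter (fun w => lab w ≠ lab u ∧
        newlab (W w) (K w) p lab w = newlab (W u) (K u) p lab u)).filter (fun w => w ∉ W u),
        K u w = 0 := by
      refine Finset.sum_eq_zero (fun w hw => ?_)
      rw [Finset.mem_filter, Finset.mem_filter] at hw
      exact hK w hw.1.1 hw.2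
    rw [hz, add_zero]
    refine Finset.sum_le_sum_of_subset_of_nonneg ?_ (fun w _ _ => hK0 w)
    intro w hw
    rw [Finset.mem_filter, Finset.mem_filter] at hw
    obtain ⟨⟨_, hne, heq⟩, hwW⟩ := hw
    rw [Finset.mem_filter]
    refine ⟨hwW, hne, ?_⟩
    unfold newlab at heq
    have e1 := ev_lt hp0 (lab w) (pick (W w) (K w) p lab w)
    have e2 := ev_lt hp0 (lab u) (pick (W u) (K u) p lab u)
    have hq : pick (W w) (K w) p lab w = pick (W u) (K u) p lab u := by
      have := congrArg (fun t => t / p) heq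
      beta_reduce at this
      rw [mul_comm, Nat.mul_add_div hp0, Nat.div_eq_of_lt e1, mul_comm (pick (W u) (K u) p lab u),
        Nat.mul_add_div hp0, Nat.div_eq_of_lt e2] at this
      simpa using this
    rw [hq] at heq
    exact Nat.add_left_cancel heq
  have step2 : (p : ℝ) * conf (W u) (K u) p lab u y0 ≤ 2 * ∑ w ∈ V, K u w := by
    calc (p : ℝ) * conf (W u) (K u) p lab u y0
        = ∑ _y ∈ Finset.range p, conf (W u) (K u) p lab u y0 := by
          rw [Finset.sum_const, Finset.card_range, nsmul_eq_mul]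
      _ ≤ ∑ y ∈ Finset.range p, conf (W u) (K u) p lab u y :=
          Finset.sum_le_sum (fun y hy => picklab_min lab u hy)
      _ ≤ _ := picklab_sum hp lab hlab hu hW hK0
  refine step1.trans ?_
  rw [div_mul_eq_mul_div, le_div_iff₀ hpR, mul_comm]
  exact step2

end Pool.Agent.Helper48.ND
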