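import Pool.Agent.Helper48.ND.Bas

/-!
# ND-8: Pipe

Fix u. T i = ∑ w ∈ V, K i u w, B i = ∑ over w ∈ V, w ≠ u, l i w = l i u of K i u w. For i ≤ J:
B i ≤ (conflict sum, hconf) + ∑ over w ≠ u with l (i+1) w = l (i+1) u of K i u w, so
B i ≤ 2/p i * T i + 7/5 * B (i+1) for i < J (hr1) and B J ≤ 2/p J * T J (hinj). T i ≤ (7/5)^i T 0 (hr2).
Hence B i ≤ 1/128 * (7/20)^i * T 0 by decreasing induction.
-/

namespace Pool.Agent.Helper48.ND

open Finset Classical

theorem pipe_defect {J : ℕ} {V : Finset ℕ} (p : ℕ → ℕ) (K : ℕ → ℕ → ℕ → ℝ) (l : ℕ → ℕ → ℕ)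
    (hK0 : ∀ i u w, 0 ≤ K i u w)
    (hr1 : ∀ i < J, ∀ u ∈ V, ∀ w ∈ V, K i u w ≤ 7 / 5 * K (i + 1) u w)
    (hr2 : ∀ i < J, ∀ u ∈ V, ∀ w ∈ V, K (i + 1) u w ≤ 7 / 5 * K i u w)
    (hp : ∀ i, 512 * 4 ^ i ≤ p i) (hinj : Set.InjOn (l (J + 1)) V)
    (hconf : ∀ i ≤ J, ∀ u ∈ V, ∑ w ∈ V.filter (fun w => l (i + 1) w ≠ l (i + 1) u ∧
      l i w = l i u), K i u w ≤ 2 / (p i : ℝ) * ∑ w ∈ V, K i u w) :
    ∀ u ∈ V, ∑ w ∈ V.filter (fun w => w ≠ u ∧ l 0 w = l 0 u), K 0 u w ≤
      1 / 128 * ∑ w ∈ V, K 0 u w := by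
  intro u hu
  set T : ℕ → ℝ := fun i => ∑ w ∈ V, K i u w with hT
  set B : ℕ → ℝ := fun i => ∑ w ∈ V.filter (fun w => w ≠ u ∧ l i w = l i u), K i u w with hB
  have hTn : ∀ i, 0 ≤ T i := fun i => Finset.sum_nonneg (fun w _ => hK0 i u w)
  -- growth of the totals
  have hTle : ∀ i, i ≤ J → T i ≤ (7 / 5) ^ i * T 0 := by
    intro i
    induction i with
    | zero => intro _; simp
    | succ i ih =>
      intro hi
      have h1 : T (i + 1) ≤ 7 / 5 * T i := by
        simp only [hT]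
        rw [Finset.mul_sum]
        exact Finset.sum_le_sum (fun w hw => hr2 i (by omega) u hu w hw)
      have h2 := ih (by omega)
      calc T (i + 1) ≤ 7 / 5 * T i := h1
        _ ≤ 7 / 5 * ((7 / 5) ^ i * T 0) := by gcongr
        _ = (7 / 5) ^ (i + 1) * T 0 := by rw [pow_succ]; ring
  -- the conflict term
  have hC : ∀ i, i ≤ J → 2 / (p i : ℝ) * T i ≤ 1 / 256 * (7 / 20) ^ i * T 0 := by
    intro i hi
    have hpi : (512 * 4 ^ i : ℝ) ≤ p i := by exact_mod_cast hp i
    have hpos : (0 : ℝ) < 512 * 4 ^ i := by positivity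
    have h1 : 2 / (p i : ℝ) ≤ 2 / (512 * 4 ^ i) := by
      apply div_le_div_of_nonneg_left (by norm_num) hpos hpi
    calc 2 / (p i : ℝ) * T i ≤ 2 / (512 * 4 ^ i) * ((7 / 5) ^ i * T 0) := by
          apply mul_le_mul h1 (hTle i hi) (hTn i) (by positivity)
      _ = 1 / 256 * (7 / 20) ^ i * T 0 := by
          have : (7 / 20 : ℝ) ^ i = (7 / 5) ^ i / 4 ^ i := by
            rw [← div_pow]; norm_num
          rw [this]
          field_simp
          ring
  -- splitting of the defect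
  have hsplit : ∀ i, i ≤ J → B i ≤ 2 / (p i : ℝ) * T i +
      ∑ w ∈ V.filter (fun w => w ≠ u ∧ l (i + 1) w = l (i + 1) u), K i u w := by
    intro i hi
    have h1 := hconf i hi u hu
    have h2 : B i ≤ ∑ w ∈ V.filter (fun w => l (i + 1) w ≠ l (i + 1) u ∧ l i w = l i u), K i u w +
        ∑ w ∈ V.filter (fun w => w ≠ u ∧ l (i + 1) w = l (i + 1) u), K i u w := by
      rw [← Finset.sum_union_inter]
      have h3 : B i ≤ ∑ w ∈ V.filter (fun w => l (i + 1) w ≠ l (i + 1) u ∧ l i w = l i u) ∪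
          V.filter (fun w => w ≠ u ∧ l (i + 1) w = l (i + 1) u), K i u w := by
        apply Finset.sum_le_sum_of_subset_of_nonneg
        · intro w hw
          simp only [Finset.mem_filter, Finset.mem_union] at hw ⊢
          by_cases h : l (i + 1) w = l (i + 1) u
          · exact Or.inr ⟨hw.1, hw.2.1, h⟩
          · exact Or.inl ⟨hw.1, h, hw.2.2⟩
        · intro w _ _
          exact hK0 i u w
      have h4 : 0 ≤ ∑ w ∈ V.filter (fun w => l (i + 1) w ≠ l (i + 1) u ∧ l i w = l i u) ∩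
          V.filter (fun w => w ≠ u ∧ l (i + 1) w = l (i + 1) u), K i u w :=
        Finset.sum_nonneg (fun w _ => hK0 i u w)
      linarith
    linarith
  -- decreasing induction
  have hmain : ∀ k i, i + k = J → B i ≤ 1 / 128 * (7 / 20) ^ i * T 0 := by
    intro k
    induction k with
    | zero =>
      intro i hi
      have hiJ : i = J := by omega
      subst hiJ
      have h1 := hsplit i le_rfl
      have h2 : ∑ w ∈ V.filter (fun w => w ≠ u ∧ l (i + 1) w = l (i + 1) u), K i u w = 0 := by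
        rw [Finset.filter_eq_empty_iff.mpr, Finset.sum_empty]
        intro w hw h
        exact h.1 (hinj hw hu h.2)
      have h3 := hC i le_rfl
      have h4 : 0 ≤ (7 / 20 : ℝ) ^ i * T 0 := mul_nonneg (by positivity) (hTn 0)
      rw [h2] at h1
      nlinarith
    | succ k ih =>
      intro i hi
      have h1 := hsplit i (by omega)
      have h2 := ih (i + 1) (by omega)
      have h3 := hC i (by omega)
      have h4 : 0 ≤ (7 / 20 : ℝ) ^ i * T 0 := mul_nonneg (by positivity) (hTn 0)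
      have h5 : ∑ w ∈ V.filter (fun w => w ≠ u ∧ l (i + 1) w = l (i + 1) u), K i u w ≤
          7 / 5 * B (i + 1) := by
        simp only [hB]
        rw [Finset.mul_sum]
        apply Finset.sum_le_sum
        intro w hw
        exact hr1 i (by omega) u hu w (Finset.mem_filter.mp hw).1
      have h6 : (7 / 20 : ℝ) ^ (i + 1) = 7 / 20 * (7 / 20) ^ i := by rw [pow_succ]; ring
      rw [h6] at h2
      nlinarith
  have h := hmain J 0 (by omega)
  simpa [hB, hT] using h

end Pool.Agent.Helper48.ND
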