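import Pool.Agent.Helper48.ND.Close

/-!
# ND-9: Ratio

Termwise: v ∈ ball E u R ⊆ V and ball E v R ⊆ V. exp (c1 N' v) ≤ exp c1 * exp (c1 N v), QQ_close,
sh_close with δ = et: the factor is exp c1 * exp (2 th et) * exp (2 et)^2 ≤ 7/5 (very crude). (KK_nonneg
is in this file because other modules use it.)
-/

namespace Pool.Agent.Helper48.ND

open Finset Classical

theorem KK_nonneg {E : Finset (ℕ × ℕ)} {R ρ : ℕ} {x : ℕ → ℝ} {N : ℕ → ℕ} {u w : ℕ} :
    0 ≤ KK E R ρ x N u w :=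
  sum_nonneg (fun _ _ => mul_nonneg (mul_nonneg (Real.exp_pos _).le QQ_pos.le)
    (mul_nonneg sh_nonneg sh_nonneg))

theorem KK_ratio {E : Finset (ℕ × ℕ)} {V : Finset ℕ} (hV : ∀ a ∈ V, nb E a ⊆ V) {R ρ : ℕ}
    (hρ : ρ ≤ R) {x x' : ℕ → ℝ} {N N' : ℕ → ℕ} (hx : ∀ a ∈ V, |x' a - x a| ≤ et)
    (hN : ∀ a ∈ V, N' a ≤ N a + 1) {u w : ℕ} (hu : u ∈ V) (hw : w ∈ V) :
    KK E R ρ x' N' u w ≤ 7 / 5 * KK E R ρ x N u w := by
  have hc : Real.exp c1 * Real.exp (2 * th * et) * (Real.exp (2 * et) * Real.exp (2 * et)) ≤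
      7 / 5 := by
    rw [← Real.exp_add, ← Real.exp_add, ← Real.exp_add]
    refine (Real.exp_bound_div_one_sub_of_interval ?_ ?_).trans ?_
    · norm_num [c1, th, et]
    · norm_num [c1, th, et]
    · norm_num [c1, th, et]
  unfold KK
  rw [mul_sum]
  refine sum_le_sum fun v hv => ?_
  have hvV : v ∈ V := ball_closed hV hu hv
  have hb : ball E v R ⊆ V := ball_closed hV hvV
  have hbρ : ball E v ρ ⊆ V := ball_closed hV hvV
  have h1 : Real.exp (c1 * N' v) ≤ Real.exp c1 * Real.exp (c1 * N v) := by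
    rw [← Real.exp_add]
    apply Real.exp_le_exp.2
    have h2 : (N' v : ℝ) ≤ N v + 1 := by exact_mod_cast hN v hvV
    have h3 := c1_pos
    nlinarith
  have h2 : QQ E R ρ x' v ≤ Real.exp (2 * th * et) * QQ E R ρ x v :=
    QQ_close hρ fun a ha => hx a (hb ha)
  have h3 : sh E ρ x' v u ≤ Real.exp (2 * et) * sh E ρ x v u :=
    sh_close (hx u hu) fun a ha => hx a (hbρ ha)
  have h4 : sh E ρ x' v w ≤ Real.exp (2 * et) * sh E ρ x v w :=
    sh_close (hx w hw) fun a ha => hx a (hbρ ha)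
  have p1 : 0 ≤ QQ E R ρ x v := QQ_pos.le
  have p2 : 0 ≤ sh E ρ x v u := sh_nonneg
  have p3 : 0 ≤ sh E ρ x v w := sh_nonneg
  have p4 : 0 ≤ QQ E R ρ x' v := QQ_pos.le
  have p5 : 0 ≤ sh E ρ x' v u := sh_nonneg
  have p6 : 0 ≤ sh E ρ x' v w := sh_nonneg
  calc Real.exp (c1 * N' v) * QQ E R ρ x' v * (sh E ρ x' v u * sh E ρ x' v w)
      ≤ (Real.exp c1 * Real.exp (c1 * N v)) * (Real.exp (2 * th * et) * QQ E R ρ x v) *
          ((Real.exp (2 * et) * sh E ρ x v u) * (Real.exp (2 * et) * sh E ρ x v w)) := by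
        gcongr
    _ = (Real.exp c1 * Real.exp (2 * th * et) * (Real.exp (2 * et) * Real.exp (2 * et))) *
          (Real.exp (c1 * N v) * QQ E R ρ x v * (sh E ρ x v u * sh E ρ x v w)) := by ring
    _ ≤ 7 / 5 * (Real.exp (c1 * N v) * QQ E R ρ x v * (sh E ρ x v u * sh E ρ x v w)) := by
        apply mul_le_mul_of_nonneg_right hc
        positivity

end Pool.Agent.Helper48.ND
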