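import Pool.Agent.Helper48.ND.Traj
import Pool.Agent.Helper48.ND.Pipe
import Pool.Agent.Helper48.ND.PickLab
import Pool.Agent.Helper48.ND.Ratio

/-!
# The pipeline of labels gives labels with small defect
-/

namespace Pool.Agent.Helper48.ND

open Finset Classical

theorem KK_zero {E : Finset (ℕ × ℕ)} {R ρ : ℕ} (hρ : ρ ≤ R) {x : ℕ → ℝ} {N : ℕ → ℕ} {u w : ℕ}
    (hw : w ∉ ball E u (2 * R)) : KK E R ρ x N u w = 0 := by
  unfold KK
  refine sum_eq_zero (fun v hv => ?_)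
  have h : sh E ρ x v w = 0 := sh_zero (fun h => hw (ball_trans' hv h (by omega)))
  rw [h]; ring

/-- existence of the primes of the pipeline -/
theorem exists_pr : ∃ pr : ℕ → ℕ, (∀ i, (pr i).Prime) ∧ (∀ i, 512 * 4 ^ i ≤ pr i) ∧
    (∀ i, pr i ≤ 1024 * 4 ^ i) := by
  have h : ∀ i : ℕ, ∃ p, p.Prime ∧ 512 * 4 ^ i ≤ p ∧ p ≤ 1024 * 4 ^ i := by
    intro i
    obtain ⟨p, hp, h1, h2⟩ := Nat.exists_prime_lt_and_le_two_mul (512 * 4 ^ i) (by positivity)
    exact ⟨p, hp, h1.le, by omega⟩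
  choose pr h1 h2 h3 using h
  exact ⟨pr, h1, h2, h3⟩

theorem pr_sq_le {pr : ℕ → ℕ} (hlo : ∀ i, 512 * 4 ^ i ≤ pr i) (hhi : ∀ i, pr i ≤ 1024 * 4 ^ i)
    (i : ℕ) : pr (i + 1) * pr (i + 1) ≤ pr i ^ 3 := by
  calc pr (i + 1) * pr (i + 1) ≤ (1024 * 4 ^ (i + 1)) * (1024 * 4 ^ (i + 1)) :=
        Nat.mul_le_mul (hhi _) (hhi _)
    _ = 2 ^ 24 * (4 ^ i) ^ 2 := by rw [pow_succ]; ring
    _ ≤ 2 ^ 27 * (4 ^ i) ^ 3 := by
        apply Nat.mul_le_mul (by norm_num)
        exact Nat.pow_le_pow_right (by positivity) (by norm_num)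
    _ = (512 * 4 ^ i) ^ 3 := by ring
    _ ≤ pr i ^ 3 := Nat.pow_le_pow_left (hlo i) 3

section

variable {pr : ℕ → ℕ} (hpr : ∀ i, (pr i).Prime) (hlo : ∀ i, 512 * 4 ^ i ≤ pr i)
    (hhi : ∀ i, pr i ≤ 1024 * 4 ^ i) {E : Finset (ℕ × ℕ)} {V : Finset ℕ}
    (hV : ∀ a ∈ V, nb E a ⊆ V) {J R : ℕ} (hid : ∀ a ∈ V, a < pr J ^ 3)

include hpr hlo hhi hid in
theorem tl_bound (τ : ℕ) {i : ℕ} (hi : i ≤ J) {a : ℕ} (ha : a ∈ V) :
    tl pr J R E τ (i + 1) a < pr i ^ 3 := by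
  rcases Nat.lt_or_ge i J with h | h
  · cases τ with
    | zero =>
      rw [tl_zero h]
      exact pow_pos (hpr i).pos 3
    | succ τ =>
      rw [tl_succ h]
      exact lt_of_lt_of_le (newlab_lt (hpr (i + 1)).pos _ _) (pr_sq_le hlo hhi i)
  · have : i = J := le_antisymm hi h
    subst this
    rw [tl_top]
    exact hid a ha

include hpr hlo hhi hV hid in
theorem pipe_traj {T : ℕ} (hT : J ≤ T) (hTR : T - J ≤ R) :
    ∀ u ∈ V, ∑ w ∈ V.filter (fun w => w ≠ u ∧ tl pr J R E (T + 1) 0 w = tl pr J R E (T + 1) 0 u),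
      KK E R (T - J) (tx pr J R E T) (tN pr J R E (T + 1)) u w ≤
      1 / 128 * ∑ w ∈ V, KK E R (T - J) (tx pr J R E T) (tN pr J R E (T + 1)) u w := by
  have key := pipe_defect (J := J) (V := V) pr
    (fun i => KK E R (T - J) (tx pr J R E (T - i)) (tN pr J R E (T + 1 - i)))
    (fun i => tl pr J R E (T + 1 - i) i) (fun i u w => KK_nonneg) ?_ ?_ hlo ?_ ?_
  · simpa using key
  · intro i hi u hu w hw
    have e1 : T - i = T - (i + 1) + 1 := by omega
    have e2 : T + 1 - i = T + 1 - (i + 1) + 1 := by omega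
    show KK E R (T - J) (tx pr J R E (T - i)) (tN pr J R E (T + 1 - i)) u w ≤ 7 / 5 *
      KK E R (T - J) (tx pr J R E (T - (i + 1))) (tN pr J R E (T + 1 - (i + 1))) u w
    rw [e1, e2]
    exact KK_ratio hV hTR (fun a _ => tx_close a) (fun a _ => tN_succ_le a) hu hw
  · intro i hi u hu w hw
    have e1 : T - i = T - (i + 1) + 1 := by omega
    have e2 : T + 1 - i = T + 1 - (i + 1) + 1 := by omega
    show KK E R (T - J) (tx pr J R E (T - (i + 1))) (tN pr J R E (T + 1 - (i + 1))) u w ≤ 7 / 5 *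
      KK E R (T - J) (tx pr J R E (T - i)) (tN pr J R E (T + 1 - i)) u w
    rw [e1, e2]
    refine KK_ratio hV hTR (fun a _ => ?_) (fun a _ => ?_) hu hw
    · rw [abs_sub_comm]; exact tx_close a
    · exact (tN_le a).trans (Nat.le_succ _)
  · intro a _ b _ hab
    simpa [tl_top] using hab
  · intro i hi u hu
    have e1 : T + 1 - i = (T - i) + 1 := by omega
    have e2 : T + 1 - (i + 1) = T - i := by omega
    have e3 : min R (T - i + i - J) = T - J := by
      rw [Nat.sub_add_cancel (by omega)]; exact min_eq_right hTR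
    have h := newlab_conf (hpr i) (V := V) (fun a => ball E a (2 * R))
      (KK E R (T - J) (tx pr J R E (T - i)) (tN pr J R E (T - i + 1)))
      (tl pr J R E (T - i) (i + 1)) (fun w hw => tl_bound hpr hlo hhi hid _ hi hw) hu
      (ball_closed hV hu) (fun w => KK_nonneg) (fun w _ hw => KK_zero hTR hw)
    show ∑ w ∈ V.filter (fun w => tl pr J R E (T + 1 - (i + 1)) (i + 1) w ≠
        tl pr J R E (T + 1 - (i + 1)) (i + 1) u ∧
        tl pr J R E (T + 1 - i) i w = tl pr J R E (T + 1 - i) i u),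
        KK E R (T - J) (tx pr J R E (T - i)) (tN pr J R E (T + 1 - i)) u w ≤
      2 / (pr i : ℝ) * ∑ w ∈ V, KK E R (T - J) (tx pr J R E (T - i)) (tN pr J R E (T + 1 - i)) u w
    rw [e2, e1]
    have e4 : ∀ a, tl pr J R E (T - i + 1) i a = newlab (ball E a (2 * R))
        (KK E R (T - J) (tx pr J R E (T - i)) (tN pr J R E (T - i + 1)) a) (pr i)
        (tl pr J R E (T - i) (i + 1)) a := by
      intro a; rw [tl_succ hi, e3]
    simp only [e4]
    exact h

end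

end Pool.Agent.Helper48.ND
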