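import Pool.Agent.Helper48.ND.Bas

/-!
# ND-1: Scal

The scalar inequality (checked numerically with 50 digits). Write z = sinh et * S1 + (cosh et - 1) * σ,
A = sinh (th et) * A1 + (cosh (th et) - 1) * τ. Then |z| ≤ (exp et - 1) σ ≤ 1.0002 et σ and
|A| ≤ (exp (th et) - 1) τ ≤ 1.01 th et τ. For |z| ≤ 1/3000:
(1+z)^(-th) = exp (-th * log (1+z)) ≤ 1 + y + y^2, y = -th * log (1+z)
(log (1+z) ≥ z - z^2/2 - 2|z|^3).
-/

namespace Pool.Agent.Helper48.ND

open Finset Classical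

theorem scal_exp (x : ℝ) (h0 : 0 ≤ x) (h1 : x ≤ 1) : Real.exp x ≤ 1 + x + x ^ 2 := by
  have h := Real.abs_exp_sub_one_sub_id_le (x := x) (by rw [abs_of_nonneg h0]; exact h1)
  have := (abs_le.mp h).2
  linarith

theorem scal_exp' (x : ℝ) (h1 : |x| ≤ 1) : Real.exp x ≤ 1 + x + x ^ 2 := by
  have h := Real.abs_exp_sub_one_sub_id_le h1
  have := (abs_le.mp h).2
  linarith

theorem scal_cosh_lower (x : ℝ) : x ^ 2 / 2 ≤ Real.cosh x - 1 := by
  have h : Real.cosh x = 1 + 2 * Real.sinh (x / 2) ^ 2 := by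
    have h1 := Real.cosh_two_mul (x / 2)
    have h2 := Real.cosh_sq (x / 2)
    rw [show 2 * (x / 2) = x by ring] at h1
    rw [h1, h2]
    ring
  have h3 : (x / 2) ^ 2 ≤ Real.sinh (x / 2) ^ 2 := by
    rw [← sq_abs (x / 2), ← sq_abs (Real.sinh (x / 2)), Real.abs_sinh]
    exact pow_le_pow_left₀ (abs_nonneg _) (Real.self_le_sinh_iff.mpr (abs_nonneg _)) 2
  rw [h]
  nlinarith

theorem scal_log (z : ℝ) (hz : |z| ≤ 1 / 3000) :
    z - z ^ 2 / 2 - 2 * |z| ^ 3 ≤ Real.log (1 + z) ∧ |Real.log (1 + z)| ≤ 101 / 100 * |z| := by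
  have h := Real.abs_log_sub_add_sum_range_le (x := -z) (by rw [abs_neg]; linarith) 2
  simp only [Finset.sum_range_succ, Finset.sum_range_zero, abs_neg, sub_neg_eq_add] at h
  have hz0 := abs_nonneg z
  have h2 : |z| ^ (2 + 1) / (1 - |z|) ≤ 2 * |z| ^ 3 := by
    rw [div_le_iff₀ (by linarith)]
    have h5 : 0 ≤ |z| ^ 3 * (1 - 2 * |z|) := mul_nonneg (by positivity) (by linarith)
    have h6 : |z| ^ (2 + 1) = |z| ^ 3 := rfl
    rw [h6]
    linarith
  have h3 := abs_le.mp (h.trans h2)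
  norm_num at h3
  have hsq : z ^ 2 = |z| ^ 2 := (sq_abs z).symm
  have h4 : |z| ^ 2 ≤ 1 / 3000 * |z| := by nlinarith
  have h5 : |z| ^ 3 ≤ 1 / 3000 * |z| := by
    have : |z| ^ 3 = |z| ^ 2 * |z| := by ring
    rw [this]
    nlinarith
  constructor
  · linarith [h3.1]
  · rw [abs_le]
    have h6 := neg_abs_le z
    have h7 := le_abs_self z
    constructor
    · linarith [h3.1]
    · linarith [h3.2, sq_nonneg z]

theorem scal (A1 τ S1 σ : ℝ) (hA : |A1| ≤ τ) (hτ : τ ≤ 1) (hS : |S1| ≤ σ) (hσ : σ ≤ 1) :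
    (1 + (Real.sinh (th * et) * A1 + (Real.cosh (th * et) - 1) * τ)) *
      (1 + (Real.sinh et * S1 + (Real.cosh et - 1) * σ)) ^ (-th) ≤
    1 + (Real.sinh (th * et) * A1 - th * Real.sinh et * S1) + th ^ 2 * et ^ 2 * (τ + 7 * σ)
      - th * et ^ 2 / 2 * (σ - σ ^ 2) := by
  have hτ0 : 0 ≤ τ := (abs_nonneg _).trans hA
  have hσ0 : 0 ≤ σ := (abs_nonneg _).trans hS
  have hthv : th = 1 / 200 := rfl
  have hetv : et = 1 / 4000 := rfl
  set a := Real.sinh (th * et) with ha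
  set b := Real.cosh (th * et) - 1 with hb
  set p := Real.sinh et with hp
  set r := Real.cosh et - 1 with hr
  have ha0 : 0 ≤ a := Real.sinh_nonneg_iff.mpr (by rw [hthv, hetv]; norm_num)
  have hp0 : 0 ≤ p := Real.sinh_nonneg_iff.mpr (by rw [hetv]; norm_num)
  have hb0 : 0 ≤ b := by have := Real.one_le_cosh (th * et); linarith
  have hr1 : et ^ 2 / 2 ≤ r := scal_cosh_lower et
  have hr0 : 0 ≤ r := le_trans (by positivity) hr1
  have hpr : p + r ≤ 1 / 4000 + 1 / 16000000 := by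
    have h1 : p + r = Real.exp et - 1 := by
      rw [hp, hr, Real.sinh_eq, Real.cosh_eq]
      ring
    have h2 := scal_exp et (by rw [hetv]; norm_num) (by rw [hetv]; norm_num)
    rw [h1]
    rw [hetv] at h2 ⊢
    linarith
  have hab : a + b ≤ 1 / 800000 + 1 / 640000000000 := by
    have h1 : a + b = Real.exp (th * et) - 1 := by
      rw [ha, hb, Real.sinh_eq, Real.cosh_eq]
      ring
    have h2 := scal_exp (th * et) (by rw [hthv, hetv]; norm_num) (by rw [hthv, hetv]; norm_num)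
    rw [h1]
    rw [hthv, hetv] at h2 ⊢
    linarith
  have hb1 : b ≤ th ^ 2 * et ^ 2 := by
    have h1 := Real.cosh_le_exp_half_sq (th * et)
    have h2 := scal_exp ((th * et) ^ 2 / 2) (by positivity) (by rw [hthv, hetv]; norm_num)
    have h3 : (1 : ℝ) + (th * et) ^ 2 / 2 + ((th * et) ^ 2 / 2) ^ 2 ≤ 1 + th ^ 2 * et ^ 2 := by
      rw [hthv, hetv]
      norm_num
    rw [hb]
    linarith
  set z := p * S1 + r * σ with hz
  set A := a * A1 + b * τ with hA'
  have hzabs : |z| ≤ (1 / 4000 + 1 / 16000000) * σ := by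
    calc |z| ≤ |p * S1| + |r * σ| := abs_add_le _ _
      _ = p * |S1| + r * σ := by
          rw [abs_mul, abs_mul, abs_of_nonneg hp0, abs_of_nonneg hr0, abs_of_nonneg hσ0]
      _ ≤ p * σ + r * σ := by gcongr
      _ = (p + r) * σ := by ring
      _ ≤ _ := by gcongr
  have hAabs : |A| ≤ (1 / 800000 + 1 / 640000000000) * τ := by
    calc |A| ≤ |a * A1| + |b * τ| := abs_add_le _ _
      _ = a * |A1| + b * τ := by
          rw [abs_mul, abs_mul, abs_of_nonneg ha0, abs_of_nonneg hb0, abs_of_nonneg hτ0]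
      _ ≤ a * τ + b * τ := by gcongr
      _ = (a + b) * τ := by ring
      _ ≤ _ := by gcongr
  have hz1 : |z| ≤ 1 / 3000 := by nlinarith
  obtain ⟨hL1, hL2⟩ := scal_log z hz1
  have hzpos : 0 < 1 + z := by
    have := neg_abs_le z
    linarith
  set L := Real.log (1 + z) with hL
  have hrpow : (1 + z) ^ (-th) = Real.exp (-th * L) := by
    rw [Real.rpow_def_of_pos hzpos]
    congr 1
    ring
  have hLabs : |L| ≤ 1 / 1000 := by linarith
  have hexp : Real.exp (-th * L) ≤ 1 + (-th * L) + (-th * L) ^ 2 := by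
    apply scal_exp'
    rw [abs_mul, abs_neg, hthv, abs_of_pos (by norm_num)]
    linarith
  have hApos : 0 ≤ 1 + A := by
    have h1 := neg_abs_le A
    nlinarith
  rw [hrpow]
  refine (mul_le_mul_of_nonneg_left hexp hApos).trans ?_
  -- bounds of the single terms
  have hσ2 : σ ^ 2 ≤ σ := by nlinarith
  have hz2 : z ^ 2 ≤ (1 / 4000 + 1 / 16000000) ^ 2 * σ ^ 2 := by
    rw [← sq_abs z, ← mul_pow]
    exact pow_le_pow_left₀ (abs_nonneg _) hzabs 2
  have hz3 : |z| ^ 3 ≤ (1 / 4000 + 1 / 16000000) ^ 3 * σ := by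
    have h1 : |z| ^ 3 ≤ ((1 / 4000 + 1 / 16000000) * σ) ^ 3 :=
      pow_le_pow_left₀ (abs_nonneg _) hzabs 3
    have h2 : ((1 / 4000 + 1 / 16000000) * σ) ^ 3 = (1 / 4000 + 1 / 16000000 : ℝ) ^ 3 * σ ^ 3 := by
      ring
    have h3 : σ ^ 3 ≤ σ := by
      have : σ ^ 3 = σ ^ 2 * σ := by ring
      rw [this]
      nlinarith
    have h4 : (1 / 4000 + 1 / 16000000 : ℝ) ^ 3 * σ ^ 3 ≤ (1 / 4000 + 1 / 16000000 : ℝ) ^ 3 * σ := by
      gcongr
    linarith
  have hLσ : |L| ≤ 101 / 100 * ((1 / 4000 + 1 / 16000000) * σ) := by linarith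
  have hAL : -(A * L) ≤ (1 / 800000 + 1 / 640000000000) *
      (101 / 100 * ((1 / 4000 + 1 / 16000000) * σ)) := by
    have h1 : -(A * L) ≤ |A| * |L| := by
      rw [← abs_mul]
      exact neg_le_abs _
    have h2 : |A| ≤ 1 / 800000 + 1 / 640000000000 := by nlinarith
    have h3 : |A| * |L| ≤ (1 / 800000 + 1 / 640000000000) *
      (101 / 100 * ((1 / 4000 + 1 / 16000000) * σ)) :=
      mul_le_mul h2 hLσ (abs_nonneg _) (by norm_num)
    linarith
  have hL2' : L ^ 2 ≤ (101 / 100 * (1 / 4000 + 1 / 16000000)) ^ 2 * σ := by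
    have h1 : L ^ 2 ≤ (101 / 100 * ((1 / 4000 + 1 / 16000000) * σ)) ^ 2 := by
      rw [← sq_abs L]
      exact pow_le_pow_left₀ (abs_nonneg _) hLσ 2
    have h2 : (101 / 100 * ((1 / 4000 + 1 / 16000000) * σ)) ^ 2 =
        (101 / 100 * (1 / 4000 + 1 / 16000000) : ℝ) ^ 2 * σ ^ 2 := by ring
    have h4 : (101 / 100 * (1 / 4000 + 1 / 16000000) : ℝ) ^ 2 * σ ^ 2 ≤
        (101 / 100 * (1 / 4000 + 1 / 16000000) : ℝ) ^ 2 * σ := by gcongr
    linarith
  have hAle : A ≤ 1 := by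
    have h1 := le_abs_self A
    nlinarith
  have hAL2 : (1 + A) * L ^ 2 ≤ 2 * ((101 / 100 * (1 / 4000 + 1 / 16000000)) ^ 2 * σ) := by
    have : 0 ≤ L ^ 2 := sq_nonneg _
    nlinarith
  have hexpand : (1 + A) * (1 + (-th * L) + (-th * L) ^ 2) =
      1 + A - th * L + th * (-(A * L)) + th ^ 2 * ((1 + A) * L ^ 2) := by ring
  rw [hexpand]
  have hbτ : b * τ ≤ th ^ 2 * et ^ 2 * τ := by gcongr
  have hrσ : th * (et ^ 2 / 2 * σ) ≤ th * (r * σ) := by
    rw [hthv]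
    gcongr
  have hthL : -(th * L) ≤ -(th * (z - z ^ 2 / 2 - 2 * |z| ^ 3)) := by
    rw [hthv]
    linarith
  have e1 : th * (-(A * L)) ≤ th * ((1 / 800000 + 1 / 640000000000) *
      (101 / 100 * ((1 / 4000 + 1 / 16000000) * σ))) := by
    rw [hthv]
    gcongr
  have e2 : th ^ 2 * ((1 + A) * L ^ 2) ≤
      th ^ 2 * (2 * ((101 / 100 * (1 / 4000 + 1 / 16000000)) ^ 2 * σ)) := by
    gcongr
  rw [hthv, hetv] at *
  rw [hA'] at *
  rw [hz] at hthL
  nlinarith

end Pool.Agent.Helper48.ND
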