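import Pool.Agent.Helper48.ND.Scal

/-!
# ND-2: StepOne

Put S1 = ∑ a ∈ X, e a * sh a, σ = ∑ a ∈ X, sh a, A1 = ∑ a ∈ X, e a * al a, τ = ∑ a ∈ X, al a.
As e a = 1 or -1, exp (et * e a) - 1 = sinh et * e a + (cosh et - 1). So MM of x' equals
MM of x times (1 + (sinh et * S1 + (cosh et - 1) * σ)) (sh is 0 outside ball E v ρ), and AA of x'
equals AA of x times (1 + (sinh (th et) * A1 + (cosh (th et) - 1) * τ)). Both factors are positive.
|S1| ≤ σ ≤ 1 and |A1| ≤ τ ≤ 1 (sum_sh_le_one, sum_al_le_one). QQ = AA * MM ^ (-th): use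
Real.mul_rpow and scal, multiplied by QQ E R ρ x v > 0.
-/

namespace Pool.Agent.Helper48.ND

open Finset Classical

theorem stepone_gen (B X : Finset ℕ) (c : ℝ) (x x' e : ℕ → ℝ) (he : ∀ a ∈ X, e a = 1 ∨ e a = -1)
    (hx : ∀ a ∈ B, x' a = if a ∈ X then x a + et * e a else x a) (S : ℝ)
    (hS : S = ∑ a ∈ B, Real.exp (c * x a)) (hS0 : 0 < S) (s : ℕ → ℝ)
    (hs : ∀ a, s a = if a ∈ B then Real.exp (c * x a) / S else 0) :
    ∑ a ∈ B, Real.exp (c * x' a) = S * (1 + (Real.sinh (c * et) * ∑ a ∈ X, e a * s a +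
      (Real.cosh (c * et) - 1) * ∑ a ∈ X, s a)) := by
  have h1 : S * (Real.sinh (c * et) * ∑ a ∈ X, e a * s a + (Real.cosh (c * et) - 1) *
      ∑ a ∈ X, s a) = ∑ a ∈ X, (if a ∈ B then
        Real.exp (c * x a) * (Real.sinh (c * et) * e a + (Real.cosh (c * et) - 1)) else 0) := by
    rw [Finset.mul_sum, Finset.mul_sum, ← Finset.sum_add_distrib, Finset.mul_sum]
    refine Finset.sum_congr rfl fun a _ => ?_
    rw [hs a]
    split_ifs with h
    · field_simp
    · ring
  have h2 : ∀ a ∈ B, Real.exp (c * x' a) = Real.exp (c * x a) + (if a ∈ X then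
      Real.exp (c * x a) * (Real.sinh (c * et) * e a + (Real.cosh (c * et) - 1)) else 0) := by
    intro a ha
    rw [hx a ha]
    split_ifs with h
    · rw [mul_add, Real.exp_add]
      rcases he a h with h3 | h3
      · rw [h3, mul_one, mul_one, ← Real.cosh_add_sinh (c * et)]
        ring
      · rw [h3]
        have : c * (et * -1) = -(c * et) := by ring
        rw [this, ← Real.cosh_sub_sinh (c * et)]
        ring
    · rw [add_zero]
  rw [Finset.sum_congr rfl h2, Finset.sum_add_distrib, mul_add, mul_one, h1, ← hS]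
  congr 1
  rw [← Finset.sum_filter, ← Finset.sum_filter]
  refine Finset.sum_congr ?_ fun _ _ => rfl
  ext a
  simp only [mem_filter]
  exact and_comm

theorem step_one {E : Finset (ℕ × ℕ)} {R ρ : ℕ} (hρ : ρ ≤ R) (x x' e : ℕ → ℝ) (X : Finset ℕ)
    (v : ℕ) (he : ∀ a ∈ X, e a = 1 ∨ e a = -1)
    (hx : ∀ a ∈ ball E v R, x' a = if a ∈ X then x a + et * e a else x a) :
    QQ E R ρ x' v ≤ QQ E R ρ x v *
      (1 + ∑ a ∈ X, e a * (Real.sinh (th * et) * al E R x v a - th * Real.sinh et * sh E ρ x v a)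
        + th ^ 2 * et ^ 2 * (∑ a ∈ X, al E R x v a + 7 * ∑ a ∈ X, sh E ρ x v a)
        - th * et ^ 2 / 2 * (∑ a ∈ X, sh E ρ x v a - (∑ a ∈ X, sh E ρ x v a) ^ 2)) := by
  set S1 := ∑ a ∈ X, e a * sh E ρ x v a with hS1
  set σ := ∑ a ∈ X, sh E ρ x v a with hσ
  set A1 := ∑ a ∈ X, e a * al E R x v a with hA1
  set τ := ∑ a ∈ X, al E R x v a with hτ
  have hAA : AA E R x' v = AA E R x v *
      (1 + (Real.sinh (th * et) * A1 + (Real.cosh (th * et) - 1) * τ)) :=
    stepone_gen (ball E v R) X th x x' e he hx (AA E R x v) rfl AA_pos (fun a => al E R x v a)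
      (fun a => rfl)
  have hMM : MM E ρ x' v = MM E ρ x v * (1 + (Real.sinh et * S1 + (Real.cosh et - 1) * σ)) := by
    have h1 := stepone_gen (ball E v ρ) X 1 x x' e he (fun a ha => hx a (ball_mono hρ ha))
      (MM E ρ x v) (by simp only [one_mul]; rfl) MM_pos (fun a => sh E ρ x v a)
      (fun a => by simp only [one_mul]; rfl)
    simp only [one_mul] at h1
    exact h1
  have habs : ∀ f : ℕ → ℝ, (∀ a, 0 ≤ f a) → |∑ a ∈ X, e a * f a| ≤ ∑ a ∈ X, f a := by
    intro f hf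
    refine (Finset.abs_sum_le_sum_abs _ _).trans (Finset.sum_le_sum fun a ha => ?_)
    rw [abs_mul, abs_of_nonneg (hf a)]
    rcases he a ha with h | h
    · rw [h]; simp
    · rw [h]; simp
  have hsc := scal A1 τ S1 σ (habs _ fun a => al_nonneg) (sum_al_le_one X)
    (habs _ fun a => sh_nonneg) (sum_sh_le_one X)
  have hz : 0 < 1 + (Real.sinh et * S1 + (Real.cosh et - 1) * σ) := by
    have h1 : 0 < MM E ρ x' v := MM_pos
    rw [hMM] at h1
    exact (mul_pos_iff_of_pos_left MM_pos).mp h1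
  have hQ : QQ E R ρ x' v = QQ E R ρ x v *
      ((1 + (Real.sinh (th * et) * A1 + (Real.cosh (th * et) - 1) * τ)) *
      (1 + (Real.sinh et * S1 + (Real.cosh et - 1) * σ)) ^ (-th)) := by
    unfold QQ
    rw [hAA, hMM, Real.mul_rpow MM_pos.le hz.le]
    ring
  have hlin : ∑ a ∈ X, e a * (Real.sinh (th * et) * al E R x v a -
      th * Real.sinh et * sh E ρ x v a) = Real.sinh (th * et) * A1 - th * Real.sinh et * S1 := by
    rw [hA1, hS1, Finset.mul_sum, Finset.mul_sum, ← Finset.sum_sub_distrib]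
    refine Finset.sum_congr rfl fun a _ => ?_
    ring
  rw [hQ, hlin]
  exact mul_le_mul_of_nonneg_left hsc QQ_pos.le

end Pool.Agent.Helper48.ND
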