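import Pool.Agent.Helper48.ND.StepOne

/-!
# ND-3: StepSum

Use step_one for every v in V with X = V.filter P and e a = if 0 < LL .. a then -1 else 1. The sum of
the linear terms is, after exchanging the sums, ∑ a ∈ X, e a * ∑ v ∈ V, exp (c1 N v) * QQ v *
(sinh (th et) * al v a - th sinh et * sh v a), and the inner sum equals LL E R ρ x N a: the terms with
v ∉ ball E a R vanish, because then a ∉ ball E v R (ball_symm) and ball E v ρ ⊆ ball E v R; also
ball E a R ⊆ V (ball_closed). Each e a * LL a is ≤ 0.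
-/

namespace Pool.Agent.Helper48.ND

open Finset Classical

theorem step_sum {E : Finset (ℕ × ℕ)} (hE : SymE E) {V : Finset ℕ} (hV : ∀ a ∈ V, nb E a ⊆ V)
    {R ρ : ℕ} (hρ : ρ ≤ R) (x x' : ℕ → ℝ) (N : ℕ → ℕ) (P : ℕ → Prop)
    (hx : ∀ a ∈ V, x' a = if P a then x a + et * (if 0 < LL E R ρ x N a then -1 else 1) else x a) :
    ∑ v ∈ V, Real.exp (c1 * N v) * QQ E R ρ x' v ≤
    ∑ v ∈ V, Real.exp (c1 * N v) * QQ E R ρ x v *
      (1 + th ^ 2 * et ^ 2 * (∑ a ∈ V.filter P, al E R x v a + 7 * ∑ a ∈ V.filter P, sh E ρ x v a)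
        - th * et ^ 2 / 2 * (∑ a ∈ V.filter P, sh E ρ x v a
          - (∑ a ∈ V.filter P, sh E ρ x v a) ^ 2)) := by
  set X := V.filter P with hX
  let e : ℕ → ℝ := fun a => if 0 < LL E R ρ x N a then -1 else 1
  have he : ∀ a ∈ X, e a = 1 ∨ e a = -1 := by
    intro a _
    show (if 0 < LL E R ρ x N a then (-1 : ℝ) else 1) = 1 ∨
      (if 0 < LL E R ρ x N a then (-1 : ℝ) else 1) = -1
    split_ifs
    · exact Or.inr rfl
    · exact Or.inl rfl
  let lin : ℕ → ℕ → ℝ := fun v a =>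
    Real.sinh (th * et) * al E R x v a - th * Real.sinh et * sh E ρ x v a
  let q : ℕ → ℝ := fun v => th ^ 2 * et ^ 2 * (∑ a ∈ X, al E R x v a +
    7 * ∑ a ∈ X, sh E ρ x v a) - th * et ^ 2 / 2 * (∑ a ∈ X, sh E ρ x v a -
      (∑ a ∈ X, sh E ρ x v a) ^ 2)
  have h1 : ∀ v ∈ V, QQ E R ρ x' v ≤ QQ E R ρ x v * (1 + ∑ a ∈ X, e a * lin v a + q v) := by
    intro v hv
    have h := step_one (E := E) hρ x x' e X v he (by
      intro a ha
      have haV : a ∈ V := ball_closed hV hv ha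
      rw [hx a haV]
      by_cases hP : P a
      · rw [if_pos hP, if_pos (mem_filter.mpr ⟨haV, hP⟩)]
      · rw [if_neg hP, if_neg (fun h => hP (mem_filter.mp h).2)])
    refine h.trans (le_of_eq ?_)
    show QQ E R ρ x v * _ = QQ E R ρ x v * _
    congr 1
    show _ = 1 + ∑ a ∈ X, e a * (Real.sinh (th * et) * al E R x v a -
      th * Real.sinh et * sh E ρ x v a) + (_ - _)
    ring
  have h2 : ∀ a ∈ V, ∑ v ∈ V, Real.exp (c1 * N v) * QQ E R ρ x v * lin v a = LL E R ρ x N a := by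
    intro a ha
    unfold LL
    symm
    refine Finset.sum_subset (ball_closed hV ha) fun v hv hva => ?_
    have h3 : a ∉ ball E v R := fun h => hva ((ball_symm hE).mp h)
    rw [al_zero h3, sh_zero (fun h => h3 (ball_mono hρ h))]
    ring
  have h3 : ∑ v ∈ V, Real.exp (c1 * N v) * QQ E R ρ x v * ∑ a ∈ X, e a * lin v a ≤ 0 := by
    have h4 : ∑ v ∈ V, Real.exp (c1 * N v) * QQ E R ρ x v * ∑ a ∈ X, e a * lin v a =
        ∑ a ∈ X, e a * LL E R ρ x N a := by
      have h5 : ∀ v ∈ V, Real.exp (c1 * N v) * QQ E R ρ x v * ∑ a ∈ X, e a * lin v a =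
          ∑ a ∈ X, e a * (Real.exp (c1 * N v) * QQ E R ρ x v * lin v a) := by
        intro v _
        rw [Finset.mul_sum]
        refine Finset.sum_congr rfl fun a _ => ?_
        ring
      rw [Finset.sum_congr rfl h5, Finset.sum_comm]
      refine Finset.sum_congr rfl fun a ha => ?_
      rw [← Finset.mul_sum, h2 a (mem_filter.mp ha).1]
    rw [h4]
    refine Finset.sum_nonpos fun a _ => ?_
    show (if 0 < LL E R ρ x N a then (-1 : ℝ) else 1) * LL E R ρ x N a ≤ 0
    split_ifs with h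
    · linarith
    · push Not at h
      linarith
  have h6 : ∀ v ∈ V, Real.exp (c1 * N v) * QQ E R ρ x' v ≤
      Real.exp (c1 * N v) * QQ E R ρ x v * (1 + q v) +
      Real.exp (c1 * N v) * QQ E R ρ x v * ∑ a ∈ X, e a * lin v a := by
    intro v hv
    refine (mul_le_mul_of_nonneg_left (h1 v hv) (Real.exp_pos _).le).trans (le_of_eq ?_)
    ring
  calc ∑ v ∈ V, Real.exp (c1 * N v) * QQ E R ρ x' v
      ≤ ∑ v ∈ V, (Real.exp (c1 * N v) * QQ E R ρ x v * (1 + q v) +
        Real.exp (c1 * N v) * QQ E R ρ x v * ∑ a ∈ X, e a * lin v a) := Finset.sum_le_sum h6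
    _ = ∑ v ∈ V, Real.exp (c1 * N v) * QQ E R ρ x v * (1 + q v) +
        ∑ v ∈ V, Real.exp (c1 * N v) * QQ E R ρ x v * ∑ a ∈ X, e a * lin v a :=
        Finset.sum_add_distrib
    _ ≤ ∑ v ∈ V, Real.exp (c1 * N v) * QQ E R ρ x v * (1 + q v) := by linarith
    _ = _ := by
        refine Finset.sum_congr rfl fun v _ => ?_
        show Real.exp (c1 * N v) * QQ E R ρ x v * (1 + (_ - _)) = _
        ring

end Pool.Agent.Helper48.ND
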