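import Pool.Agent.Helper48.ND.Bas

/-!
# Facts on the trajectory of phase B
-/

namespace Pool.Agent.Helper48.ND

open Finset Classical

variable {pr : ℕ → ℕ} {J R τ : ℕ} {E : Finset (ℕ × ℕ)}

/-- state of block `τ` after the counting and the step of the pipeline -/
noncomputable def midS (pr : ℕ → ℕ) (J R : ℕ) (E : Finset (ℕ × ℕ)) (τ : ℕ) : ℕ → St :=
  stepL pr J R τ E (stepC J τ E (traj pr J R E τ))

/-- state of block `τ` before class `j` moves -/
noncomputable def blk (pr : ℕ → ℕ) (J R : ℕ) (E : Finset (ℕ × ℕ)) (τ j : ℕ) : ℕ → St :=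
  stepXs J R τ E j (midS pr J R E τ)

/-- log-weights at the beginning of block `τ` -/
noncomputable def tx (pr : ℕ → ℕ) (J R : ℕ) (E : Finset (ℕ × ℕ)) (τ : ℕ) : ℕ → ℝ :=
  xx (traj pr J R E τ)

/-- counters at the beginning of block `τ` -/
noncomputable def tN (pr : ℕ → ℕ) (J R : ℕ) (E : Finset (ℕ × ℕ)) (τ : ℕ) (a : ℕ) : ℕ :=
  (traj pr J R E τ a).cnt

/-- labels at the beginning of block `τ` -/
noncomputable def tl (pr : ℕ → ℕ) (J R : ℕ) (E : Finset (ℕ × ℕ)) (τ i : ℕ) (a : ℕ) : ℕ :=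
  (traj pr J R E τ a).lab i

theorem traj_succ : traj pr J R E (τ + 1) = blk pr J R E τ (pr 0 * pr 0) := rfl

theorem blk_succ (j : ℕ) : blk pr J R E τ (j + 1) = stepX J R τ j E (blk pr J R E τ j) := rfl

theorem blk_cnt (j a : ℕ) : (blk pr J R E τ j a).cnt = (midS pr J R E τ a).cnt := by
  induction j with
  | zero => rfl
  | succ j ih => rw [blk_succ]; exact ih

theorem blk_lab (j a : ℕ) : (blk pr J R E τ j a).lab = (midS pr J R E τ a).lab := by
  induction j with
  | zero => rfl
  | succ j ih => rw [blk_succ]; exact ih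

theorem blk_hist (j a : ℕ) : (blk pr J R E τ j a).hist = (midS pr J R E τ a).hist := by
  induction j with
  | zero => rfl
  | succ j ih => rw [blk_succ]; exact ih

theorem tN_succ (a : ℕ) : tN pr J R E (τ + 1) a = tN pr J R E τ a +
    if IsNC E (τ - J) (tx pr J R E τ) a then 1 else 0 := by
  unfold tN; rw [traj_succ, blk_cnt]; rfl

theorem midS_cnt (a : ℕ) : (midS pr J R E τ a).cnt = tN pr J R E (τ + 1) a := by
  unfold tN; rw [traj_succ, blk_cnt]

theorem tl_eq_mid (i a : ℕ) : tl pr J R E (τ + 1) i a = (midS pr J R E τ a).lab i := by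
  unfold tl; rw [traj_succ, blk_lab]

theorem tl_succ {i : ℕ} (hi : i ≤ J) (a : ℕ) : tl pr J R E (τ + 1) i a =
    newlab (ball E a (2 * R)) (KK E R (min R (τ + i - J)) (tx pr J R E τ) (tN pr J R E (τ + 1)) a)
      (pr i) (tl pr J R E τ (i + 1)) a := by
  rw [tl_eq_mid]
  have h1 : (midS pr J R E τ a).lab i = newlab (ball E a (2 * R))
      (KK E R (min R (τ + i - J)) (xx (stepC J τ E (traj pr J R E τ)))
        (fun b => (stepC J τ E (traj pr J R E τ) b).cnt) a)
      (pr i) (fun b => (stepC J τ E (traj pr J R E τ) b).lab (i + 1)) a := by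
    show (if i ≤ J then _ else _) = _
    rw [if_pos hi]
  rw [h1]
  have h2 : (fun b => (stepC J τ E (traj pr J R E τ) b).cnt) = tN pr J R E (τ + 1) := by
    funext b; rw [← midS_cnt]; rfl
  rw [h2]
  rfl

theorem tl_top (τ a : ℕ) : tl pr J R E τ (J + 1) a = a := by
  induction τ with
  | zero =>
    show (if J + 1 ≤ J then 0 else a) = a
    rw [if_neg (by omega)]
  | succ τ ih =>
    rw [tl_eq_mid]
    show (if J + 1 ≤ J then _ else (traj pr J R E τ a).lab (J + 1)) = a
    rw [if_neg (by omega)]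
    exact ih

theorem tl_zero {i : ℕ} (hi : i ≤ J) (a : ℕ) : tl pr J R E 0 i a = 0 := by
  show (if i ≤ J then 0 else a) = 0
  rw [if_pos hi]

theorem blk_zero_ht (a : ℕ) : (blk pr J R E τ 0 a).ht = (traj pr J R E τ a).ht := rfl

theorem blk_ht_succ (j a : ℕ) : (blk pr J R E τ (j + 1) a).ht =
    if J ≤ τ ∧ tl pr J R E (τ + 1) 0 a = j then (blk pr J R E τ j a).ht +
      (if 0 < LL E R (τ - J) (xx (blk pr J R E τ j)) (tN pr J R E (τ + 1)) a then -1 else 1)
    else (blk pr J R E τ j a).ht := by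
  rw [blk_succ]
  have h2 : (fun b => (blk pr J R E τ j b).cnt) = tN pr J R E (τ + 1) := by
    funext b; rw [blk_cnt, midS_cnt]
  show (if J ≤ τ ∧ (blk pr J R E τ j a).lab 0 = j then (blk pr J R E τ j a).ht +
      (if 0 < LL E R (τ - J) (xx (blk pr J R E τ j)) (fun b => (blk pr J R E τ j b).cnt) a
        then -1 else 1) else (blk pr J R E τ j a).ht) = _
  rw [h2, blk_lab, ← tl_eq_mid]

/-- log-weights during block `τ` -/
noncomputable def bx (pr : ℕ → ℕ) (J R : ℕ) (E : Finset (ℕ × ℕ)) (τ j : ℕ) : ℕ → ℝ :=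
  xx (blk pr J R E τ j)

theorem bx_zero : bx pr J R E τ 0 = tx pr J R E τ := rfl

theorem bx_end : bx pr J R E τ (pr 0 * pr 0) = tx pr J R E (τ + 1) := by
  unfold bx tx; rw [traj_succ]

theorem bx_succ (hτ : J ≤ τ) (j a : ℕ) : bx pr J R E τ (j + 1) a =
    if tl pr J R E (τ + 1) 0 a = j then bx pr J R E τ j a +
      et * (if 0 < LL E R (τ - J) (bx pr J R E τ j) (tN pr J R E (τ + 1)) a then -1 else 1)
    else bx pr J R E τ j a := by
  unfold bx
  show et * (((blk pr J R E τ (j + 1) a).ht : ℤ) : ℝ) = _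
  rw [blk_ht_succ]
  by_cases h : tl pr J R E (τ + 1) 0 a = j
  · rw [if_pos ⟨hτ, h⟩, if_pos h]
    show _ = et * (((blk pr J R E τ j a).ht : ℤ) : ℝ) + _
    split_ifs <;> push_cast <;> ring
  · rw [if_neg (fun h' => h h'.2), if_neg h]
    rfl

theorem blk_ht_close (j a : ℕ) : (blk pr J R E τ j a).ht = (traj pr J R E τ a).ht ∨
    (tl pr J R E (τ + 1) 0 a < j ∧ |(blk pr J R E τ j a).ht - (traj pr J R E τ a).ht| ≤ 1) := by
  induction j with
  | zero => exact Or.inl rfl
  | succ j ih =>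
    rw [blk_ht_succ]
    by_cases h : J ≤ τ ∧ tl pr J R E (τ + 1) 0 a = j
    · rw [if_pos h]
      right
      refine ⟨by omega, ?_⟩
      rcases ih with ih | ih
      · rw [ih]
        split_ifs <;> simp
      · exact absurd ih.1 (by omega)
    · rw [if_neg h]
      rcases ih with ih | ih
      · exact Or.inl ih
      · exact Or.inr ⟨by omega, ih.2⟩

theorem ht_step (a : ℕ) : |(traj pr J R E (τ + 1) a).ht - (traj pr J R E τ a).ht| ≤ 1 := by
  rw [traj_succ]
  rcases blk_ht_close (pr := pr) (J := J) (R := R) (E := E) (τ := τ) (pr 0 * pr 0) a with h | h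
  · rw [h]; simp
  · exact h.2

theorem ht_zero (hτ : τ ≤ J) (a : ℕ) : (traj pr J R E τ a).ht = 0 := by
  induction τ with
  | zero => rfl
  | succ τ ih =>
    have h : ∀ j, (blk pr J R E τ j a).ht = (traj pr J R E τ a).ht := by
      intro j
      induction j with
      | zero => rfl
      | succ j ihj => rw [blk_ht_succ, if_neg (by omega)]; exact ihj
    rw [traj_succ, h]
    exact ih (by omega)

theorem tx_eq (a : ℕ) : tx pr J R E τ a = et * ((traj pr J R E τ a).ht : ℝ) := rfl

theorem tx_close (a : ℕ) : |tx pr J R E (τ + 1) a - tx pr J R E τ a| ≤ et := by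
  rw [tx_eq, tx_eq, ← mul_sub, abs_mul, abs_of_pos et_pos]
  have h := ht_step (pr := pr) (J := J) (R := R) (E := E) (τ := τ) a
  have h' : |((traj pr J R E (τ + 1) a).ht : ℝ) - ((traj pr J R E τ a).ht : ℝ)| ≤ 1 := by
    exact_mod_cast h
  calc et * _ ≤ et * 1 := mul_le_mul_of_nonneg_left h' et_pos.le
    _ = et := mul_one _

theorem tN_le (a : ℕ) : tN pr J R E τ a ≤ tN pr J R E (τ + 1) a := by
  rw [tN_succ]; omega

theorem tN_succ_le (a : ℕ) : tN pr J R E (τ + 1) a ≤ tN pr J R E τ a + 1 := by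
  rw [tN_succ]; split_ifs <;> omega

theorem tN_card (a : ℕ) : tN pr J R E τ a =
    ((Finset.range τ).filter (fun t => IsNC E (t - J) (tx pr J R E t) a)).card := by
  induction τ with
  | zero => rfl
  | succ τ ih =>
    rw [tN_succ, ih, Finset.range_add_one, Finset.filter_insert]
    split_ifs
    · rw [card_insert_of_notMem (by simp)]
    · rfl

theorem hist_eq {T : ℕ} (hτ : τ < T) (a : ℕ) :
    (traj pr J R E T a).hist τ = (traj pr J R E τ a).ht := by
  induction T with
  | zero => omega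
  | succ T ih =>
    rw [traj_succ, blk_hist]
    show Function.update (traj pr J R E T a).hist T (traj pr J R E T a).ht τ = _
    by_cases h : τ = T
    · subst h; simp
    · rw [Function.update_of_ne h]
      exact ih (by omega)

end Pool.Agent.Helper48.ND
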